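import Mathlib

set_option autoImplicit false

/-!
# Cycles of prescribed length and the embedding lemma
-/

namespace Pool.Agent.TH516.CC

open Finset Classical

variable {V : Type*}

/-- `G` has a cycle with `ℓ` vertices, given as a sequence `f 0, ..., f (ℓ - 1)`. -/
def HasCyc (G : SimpleGraph V) (ℓ : ℕ) : Prop :=
  ∃ f : ℕ → V, (∀ i < ℓ, ∀ j < ℓ, f i = f j → i = j) ∧
    (∀ i, i + 1 < ℓ → G.Adj (f i) (f (i + 1))) ∧ G.Adj (f (ℓ - 1)) (f 0)

theorem HasCyc.isContained {G : SimpleGraph V} {ℓ : ℕ} (h3 : 3 ≤ ℓ) (h : HasCyc G ℓ) :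
    (SimpleGraph.cycleGraph ℓ).IsContained G := by
  obtain ⟨f, hinj, hadj, hlast⟩ := h
  have key : ∀ u v : Fin ℓ, (u - v).val = 1 → G.Adj (f u) (f v) := by
    intro u v huv
    have hu := u.isLt
    have hv := v.isLt
    by_cases hle : v.val ≤ u.val
    · rw [Fin.sub_val_of_le (by exact hle)] at huv
      have : u.val = v.val + 1 := by omega
      rw [this]
      exact (hadj v (by omega)).symm
    · have hlt : u < v := by rw [Fin.lt_def]; omega
      rw [Fin.coe_sub_iff_lt.mpr hlt] at huv
      have h1 : u.val = 0 := by omega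
      have h2 : v.val = ℓ - 1 := by omega
      rw [h1, h2]
      exact hlast.symm
  refine ⟨⟨⟨fun i => f i.val, ?_⟩, ?_⟩⟩
  · intro u v huv
    rcases SimpleGraph.cycleGraph_adj'.mp huv with h | h
    · exact key u v h
    · exact (key v u h).symm
  · intro u v huv
    exact Fin.ext (hinj u u.isLt v v.isLt huv)

theorem HasCyc.exists_cycle {G : SimpleGraph V} {ℓ : ℕ} (h3 : 3 ≤ ℓ) (h : HasCyc G ℓ) :
    ∃ (v : V) (p : G.Walk v v), p.IsCycle ∧ p.length = ℓ :=
  (SimpleGraph.cycleGraph_isContained_iff (by omega)).mp (h.isContained h3)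

theorem HasCyc.mono {G H : SimpleGraph V} (hGH : G ≤ H) {ℓ : ℕ} (h : HasCyc G ℓ) : HasCyc H ℓ := by
  obtain ⟨f, h1, h2, h3⟩ := h
  exact ⟨f, h1, fun i hi => hGH (h2 i hi), hGH h3⟩

/-- Large subsets of `s` and `t` contain a vertex of `s` with a proportion `η` of neighbours. -/
def DP (G : SimpleGraph V) (k : ℕ) (η : ℝ) (s t : Finset V) : Prop :=
  ∀ X ⊆ s, ∀ Y ⊆ t, k ≤ X.card → k ≤ Y.card →
    ∃ x ∈ X, η * Y.card ≤ ((Y.filter (G.Adj x)).card : ℝ)

theorem embed (G : SimpleGraph V) (ℓ : ℕ) (h3 : 3 ≤ ℓ) (c : ℕ → Finset V) (k q : ℕ) (η : ℝ)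
    (hη0 : 0 ≤ η)
    (hdis : ∀ i < ℓ, ∀ j < ℓ, c i = c j ∨ Disjoint (c i) (c j))
    (hDP : ∀ i, i + 1 < ℓ → DP G k η (c i) (c (i + 1)))
    (hDP0 : DP G k η (c 0) (c (ℓ - 1)))
    (hadj0 : Disjoint (c 0) (c (ℓ - 1)))
    (hmult : ∀ i < ℓ, ((range ℓ).filter (fun j => c j = c i)).card + 2 * q ≤ (c i).card)
    (hk : 1 ≤ k) (hkq : k ≤ q) (hηq : (k : ℝ) ≤ η * q)
    (hηc : ∀ i < ℓ, ((q : ℝ) + k) ≤ η * (c i).card) : HasCyc G ℓ := by
  have hcard : ∀ i < ℓ, 2 * q ≤ (c i).card := fun i hi => by have := hmult i hi; omega
  -- choice of the first vertex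
  obtain ⟨v0, hv0c, hv0l, hv01⟩ : ∃ v0 ∈ c 0,
      q + k ≤ ((c (ℓ - 1)).filter (G.Adj v0)).card ∧ q + k ≤ ((c 1).filter (G.Adj v0)).card := by
    set X0 := (c 0).filter (fun x => q + k ≤ ((c (ℓ - 1)).filter (G.Adj x)).card) with hX0
    have hX0c : k ≤ X0.card := by
      by_contra hlt
      push Not at hlt
      have h1 : k ≤ ((c 0) \ X0).card := by
        have := Finset.le_card_sdiff X0 (c 0)
        have h2 := hcard 0 (by omega)
        omega
      obtain ⟨x, hx, hx2⟩ := hDP0 _ sdiff_subset _ (subset_refl _) h1
        (by have := hcard (ℓ - 1) (by omega); omega)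
      have h3 := hηc (ℓ - 1) (by omega)
      have h4 : ((q + k : ℕ) : ℝ) ≤ (((c (ℓ - 1)).filter (G.Adj x)).card : ℝ) := by
        push_cast; linarith
      rw [mem_sdiff, hX0, mem_filter] at hx
      exact hx.2 ⟨hx.1, by exact_mod_cast h4⟩
    obtain ⟨x, hx, hx2⟩ := hDP 0 (by omega) X0 (filter_subset _ _) (c 1) (subset_refl _) hX0c
      (by have := hcard 1 (by omega); omega)
    rw [hX0, mem_filter] at hx
    refine ⟨x, hx.1, hx.2, ?_⟩
    have h3 := hηc 1 (by omega)
    have h4 : ((q + k : ℕ) : ℝ) ≤ (((c 1).filter (G.Adj x)).card : ℝ) := by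
      push_cast; linarith
    exact_mod_cast h4
  obtain ⟨Z, hZsub, hZcard⟩ := Finset.exists_subset_card_eq (show q ≤ ((c (ℓ - 1)).filter (G.Adj v0)).card by omega)
  have hZc : Z ⊆ c (ℓ - 1) := hZsub.trans (filter_subset _ _)
  have hZadj : ∀ z ∈ Z, G.Adj v0 z := fun z hz => (mem_filter.1 (hZsub hz)).2
  set T : ℕ → Finset V := fun i => if i = ℓ - 1 then Z else c i \ Z with hT
  have hTc : ∀ i < ℓ, T i ⊆ c i := by
    intro i hi
    simp only [hT]
    split_ifs with h
    · rw [h]; exact hZc
    · exact sdiff_subset
  have hv0Z : v0 ∉ Z := fun h => (Finset.disjoint_left.1 hadj0 hv0c) (hZc h)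
  -- the greedy construction
  have main : ∀ t, 1 ≤ t → t ≤ ℓ - 1 → ∃ f : ℕ → V, f 0 = v0 ∧
      (∀ i < t, ∀ j < t, f i = f j → i = j) ∧ (∀ i, i + 1 < t → G.Adj (f i) (f (i + 1))) ∧
      (∀ i < t, 1 ≤ i → f i ∈ T i) ∧
      k ≤ (((T t) \ (range t).image f).filter (G.Adj (f (t - 1)))).card := by
    intro t ht1
    induction t, ht1 using Nat.le_induction with
    | base =>
      intro _
      refine ⟨fun _ => v0, rfl, ?_, ?_, ?_, ?_⟩
      · intro i hi j hj _; omega
      · intro i hi; omega
      · intro i hi h1; omega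
      · have h1 : T 1 = c 1 \ Z := by simp only [hT]; rw [if_neg (by omega)]
        rw [h1]
        have hsub : ((c 1).filter (G.Adj v0)) \ Z ⊆
            ((c 1 \ Z) \ (range 1).image (fun _ => v0)).filter (G.Adj v0) := by
          intro y hy
          rw [mem_sdiff, mem_filter] at hy
          rw [mem_filter, mem_sdiff, mem_sdiff]
          refine ⟨⟨⟨hy.1.1, hy.2⟩, ?_⟩, hy.1.2⟩
          intro h
          rw [mem_image] at h
          obtain ⟨_, _, h⟩ := h
          rw [← h] at hy
          exact G.loopless.irrefl _ hy.1.2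
        refine le_trans ?_ (card_le_card hsub)
        have := Finset.le_card_sdiff Z ((c 1).filter (G.Adj v0))
        omega
    | succ t ht1 ih =>
      intro htl
      obtain ⟨f, hf0, hinj, hfadj, hfT, hfk⟩ := ih (by omega)
      set used := (range t).image f with hused
      set X := ((T t) \ used).filter (G.Adj (f (t - 1))) with hX
      set Y := T (t + 1) \ used with hY
      have hXc : X ⊆ c t := (filter_subset _ _).trans (sdiff_subset.trans (hTc t (by omega)))
      have hYc : Y ⊆ c (t + 1) := sdiff_subset.trans (hTc (t + 1) (by omega))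
      have hfc : ∀ i < t, f i ∈ c i := by
        intro i hi
        rcases Nat.eq_zero_or_pos i with h0 | h0
        · rw [h0, hf0]; exact hv0c
        · exact hTc i (by omega) (hfT i hi h0)
      have hYq : q ≤ Y.card := by
        by_cases hlast : t + 1 = ℓ - 1
        · have hTZ : T (t + 1) = Z := by simp only [hT]; rw [if_pos hlast]
          have : Y = Z := by
            rw [hY, hTZ]
            apply Finset.sdiff_eq_self_of_disjoint
            rw [Finset.disjoint_right]
            intro y hy hyZ
            rw [hused, mem_image] at hy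
            obtain ⟨i, hi, rfl⟩ := hy
            rw [mem_range] at hi
            rcases Nat.eq_zero_or_pos i with h0 | h0
            · rw [h0, hf0] at hyZ; exact hv0Z hyZ
            · have := hfT i hi h0
              simp only [hT] at this
              rw [if_neg (by omega), mem_sdiff] at this
              exact this.2 hyZ
          rw [this, hZcard]
        · have hTZ : T (t + 1) = c (t + 1) \ Z := by simp only [hT]; rw [if_neg hlast]
          have hm := hmult (t + 1) (by omega)
          have h1 : (used ∩ c (t + 1)).card ≤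
              ((range ℓ).filter (fun j => c j = c (t + 1))).card := by
            have hsub : used ∩ c (t + 1) ⊆
                ((range ℓ).filter (fun j => c j = c (t + 1))).image f := by
              intro y hy
              rw [mem_inter, hused, mem_image] at hy
              obtain ⟨⟨i, hi, rfl⟩, hyc⟩ := hy
              rw [mem_range] at hi
              rw [mem_image]
              refine ⟨i, ?_, rfl⟩
              rw [mem_filter, mem_range]
              refine ⟨by omega, ?_⟩
              rcases hdis i (by omega) (t + 1) (by omega) with h | h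
              · exact h
              · exact absurd hyc (Finset.disjoint_left.1 h (hfc i hi))
            exact (card_le_card hsub).trans card_image_le
          have h2 : c (t + 1) \ (Z ∪ (used ∩ c (t + 1))) ⊆ Y := by
            intro y hy
            rw [mem_sdiff, mem_union, mem_inter] at hy
            push Not at hy
            rw [hY, hTZ, mem_sdiff, mem_sdiff]
            exact ⟨⟨hy.1, hy.2.1⟩, fun h => hy.2.2 h hy.1⟩
          have h3 := Finset.le_card_sdiff (Z ∪ (used ∩ c (t + 1))) (c (t + 1))
          have h4 := card_union_le Z (used ∩ c (t + 1))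
          have h5 := card_le_card h2
          omega
      obtain ⟨v, hvX, hvY⟩ := hDP t (by omega) X hXc Y hYc hfk (by omega)
      have hvY' : k ≤ (Y.filter (G.Adj v)).card := by
        have h1 : η * q ≤ η * Y.card := by
          apply mul_le_mul_of_nonneg_left _ hη0
          exact_mod_cast hYq
        have h2 : (k : ℝ) ≤ ((Y.filter (G.Adj v)).card : ℝ) := by linarith
        exact_mod_cast h2
      have hvX' := hvX
      rw [hX, mem_filter, mem_sdiff] at hvX'
      obtain ⟨⟨hvT, hvu⟩, hvadj⟩ := hvX'
      have hvne : ∀ i < t, f i ≠ v := by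
        intro i hi h
        exact hvu (by rw [hused, mem_image]; exact ⟨i, mem_range.2 hi, h⟩)
      refine ⟨Function.update f t v, ?_, ?_, ?_, ?_, ?_⟩
      · rw [Function.update_of_ne (by omega)]; exact hf0
      · intro i hi j hj hij
        rcases Nat.lt_succ_iff_lt_or_eq.1 hi with hi' | hi' <;>
          rcases Nat.lt_succ_iff_lt_or_eq.1 hj with hj' | hj'
        · rw [Function.update_of_ne (by omega), Function.update_of_ne (by omega)] at hij
          exact hinj i hi' j hj' hij
        · rw [Function.update_of_ne (by omega), hj', Function.update_self] at hij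
          exact absurd hij (hvne i hi')
        · rw [hi', Function.update_self, Function.update_of_ne (by omega)] at hij
          exact absurd hij.symm (hvne j hj')
        · omega
      · intro i hi
        rcases Nat.lt_succ_iff_lt_or_eq.1 hi with hi' | hi'
        · rw [Function.update_of_ne (by omega), Function.update_of_ne (by omega)]
          exact hfadj i hi'
        · rw [hi', Function.update_self, Function.update_of_ne (by omega)]
          have : i = t - 1 := by omega
          rw [this]; exact hvadj
      · intro i hi hi1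
        rcases Nat.lt_succ_iff_lt_or_eq.1 hi with hi' | hi'
        · rw [Function.update_of_ne (by omega)]; exact hfT i hi' hi1
        · rw [hi', Function.update_self]; exact hvT
      · have h1 : t + 1 - 1 = t := by omega
        rw [h1, Function.update_self]
        refine hvY'.trans (card_le_card ?_)
        intro y hy
        rw [mem_filter] at hy
        rw [mem_filter]
        refine ⟨?_, hy.2⟩
        rw [hY, mem_sdiff] at hy
        rw [mem_sdiff]
        refine ⟨hy.1.1, ?_⟩
        intro h
        rw [mem_image] at h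
        obtain ⟨i, hi, hiy⟩ := h
        rw [mem_range] at hi
        rcases Nat.lt_succ_iff_lt_or_eq.1 hi with hi' | hi'
        · rw [Function.update_of_ne (by omega)] at hiy
          exact hy.1.2 (by rw [hused, mem_image]; exact ⟨i, mem_range.2 hi', hiy⟩)
        · rw [hi', Function.update_self] at hiy
          rw [← hiy] at hy
          exact G.loopless.irrefl _ hy.2
  obtain ⟨f, hf0, hinj, hfadj, hfT, hfk⟩ := main (ℓ - 1) (by omega) le_rfl
  have hpos : 0 < (((T (ℓ - 1)) \ (range (ℓ - 1)).image f).filter (G.Adj (f (ℓ - 1 - 1)))).card := by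
    omega
  obtain ⟨v, hv⟩ := card_pos.1 hpos
  rw [mem_filter, mem_sdiff] at hv
  obtain ⟨⟨hvT, hvu⟩, hvadj⟩ := hv
  have hTZ : T (ℓ - 1) = Z := by simp [hT]
  rw [hTZ] at hvT
  have hvne : ∀ i < ℓ - 1, f i ≠ v := by
    intro i hi h
    exact hvu (by rw [mem_image]; exact ⟨i, mem_range.2 hi, h⟩)
  refine ⟨Function.update f (ℓ - 1) v, ?_, ?_, ?_⟩
  · intro i hi j hj hij
    by_cases hi' : i = ℓ - 1 <;> by_cases hj' : j = ℓ - 1
    · omega
    · rw [hi', Function.update_self, Function.update_of_ne (by omega)] at hij
      exact absurd hij.symm (hvne j (by omega))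
    · rw [hj', Function.update_self, Function.update_of_ne (by omega)] at hij
      exact absurd hij (hvne i (by omega))
    · rw [Function.update_of_ne (by omega), Function.update_of_ne (by omega)] at hij
      exact hinj i (by omega) j (by omega) hij
  · intro i hi
    by_cases hi' : i + 1 = ℓ - 1
    · rw [Function.update_of_ne (by omega), hi', Function.update_self]
      have : i = ℓ - 1 - 1 := by omega
      rw [this]; exact hvadj
    · rw [Function.update_of_ne (by omega), Function.update_of_ne (by omega)]
      exact hfadj i (by omega)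
  · rw [Function.update_self, Function.update_of_ne (by omega), hf0]
    exact (hZadj v hvT).symm

end Pool.Agent.TH516.CC
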