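import Mathlib
import Pool.Agent.TH516.CC.Cyc

set_option autoImplicit false

/-!
# The spectral radius of a graph through its quadratic form
-/

namespace Pool.Agent.TH516.CC

open Finset Classical

variable {V : Type*} [Fintype V]

/-- The quadratic form of the adjacency matrix. -/
noncomputable def QF (G : SimpleGraph V) (x : V → ℝ) : ℝ :=
  ∑ u, ∑ v, if G.Adj u v then x u * x v else 0

/-- The squared norm. -/
noncomputable def nsq (x : V → ℝ) : ℝ := ∑ u, x u ^ 2

/-- The spectral radius: the largest eigenvalue of the adjacency matrix. -/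
noncomputable def specRadius (G : SimpleGraph V) : ℝ :=
  sSup {μ : ℝ | Module.End.HasEigenvalue (Matrix.toLin' (G.adjMatrix ℝ)) μ}

theorem nsq_nonneg (x : V → ℝ) : 0 ≤ nsq x := sum_nonneg fun _ _ => sq_nonneg _

theorem nsq_eq_zero {x : V → ℝ} (h : nsq x = 0) : x = 0 := by
  funext v
  have := (sum_eq_zero_iff_of_nonneg (fun u _ => sq_nonneg (x u))).1 h v (mem_univ v)
  simpa using this

theorem nsq_pos {x : V → ℝ} (h : x ≠ 0) : 0 < nsq x :=
  lt_of_le_of_ne (nsq_nonneg x) fun h' => h (nsq_eq_zero h'.symm)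

/-- the adjacency operator -/
noncomputable def AO (G : SimpleGraph V) (x : V → ℝ) (v : V) : ℝ :=
  ∑ w, if G.Adj v w then x w else 0

theorem QF_eq (G : SimpleGraph V) (x : V → ℝ) : QF G x = ∑ v, x v * AO G x v := by
  unfold QF AO
  refine sum_congr rfl fun u _ => ?_
  rw [mul_sum]
  refine sum_congr rfl fun v _ => ?_
  split_ifs <;> simp

/-- the bilinear form -/
noncomputable def BF (G : SimpleGraph V) (x y : V → ℝ) : ℝ :=
  ∑ u, ∑ v, if G.Adj u v then x u * y v else 0

theorem BF_eq (G : SimpleGraph V) (x y : V → ℝ) : BF G x y = ∑ v, x v * AO G y v := by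
  unfold BF AO
  refine sum_congr rfl fun u _ => ?_
  rw [mul_sum]
  refine sum_congr rfl fun v _ => ?_
  split_ifs <;> simp

theorem BF_symm (G : SimpleGraph V) (x y : V → ℝ) : BF G x y = BF G y x := by
  unfold BF
  rw [sum_comm]
  refine sum_congr rfl fun u _ => sum_congr rfl fun v _ => ?_
  simp only [G.adj_comm v u, mul_comm]

theorem QF_add_smul (G : SimpleGraph V) (x y : V → ℝ) (t : ℝ) :
    QF G (fun v => x v + t * y v) = QF G x + 2 * t * BF G x y + t ^ 2 * QF G y := by
  have h : QF G (fun v => x v + t * y v) =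
      QF G x + t * BF G x y + t * BF G y x + t ^ 2 * QF G y := by
    unfold QF BF
    simp only [mul_sum, ← sum_add_distrib]
    refine sum_congr rfl fun u _ => sum_congr rfl fun v _ => ?_
    split_ifs <;> ring
  rw [h, BF_symm G y x]; ring

theorem nsq_add_smul (x y : V → ℝ) (t : ℝ) :
    nsq (fun v => x v + t * y v) = nsq x + 2 * t * (∑ v, x v * y v) + t ^ 2 * nsq y := by
  unfold nsq
  simp only [mul_sum, ← sum_add_distrib]
  refine sum_congr rfl fun u _ => ?_
  ring

theorem QF_smul (G : SimpleGraph V) (x : V → ℝ) (t : ℝ) :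
    QF G (fun v => t * x v) = t ^ 2 * QF G x := by
  unfold QF
  simp only [mul_sum]
  refine sum_congr rfl fun u _ => sum_congr rfl fun v _ => ?_
  split_ifs <;> ring

theorem nsq_smul (x : V → ℝ) (t : ℝ) : nsq (fun v => t * x v) = t ^ 2 * nsq x := by
  unfold nsq
  rw [mul_sum]
  exact sum_congr rfl fun u _ => by ring

theorem QF_le_abs (G : SimpleGraph V) (x : V → ℝ) : QF G x ≤ QF G (fun v => |x v|) := by
  unfold QF
  refine sum_le_sum fun u _ => sum_le_sum fun v _ => ?_
  split_ifs
  · rw [← abs_mul]; exact le_abs_self _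
  · exact le_rfl

theorem nsq_abs (x : V → ℝ) : nsq (fun v => |x v|) = nsq x := by
  unfold nsq; simp

theorem exists_top [Nonempty V] (G : SimpleGraph V) : ∃ (μ : ℝ) (x : V → ℝ), (∀ v, 0 ≤ x v) ∧
    nsq x = 1 ∧ (∀ v, AO G x v = μ * x v) ∧ ∀ y, QF G y ≤ μ * nsq y := by
  have hcont : Continuous (fun x : V → ℝ => QF G x) := by
    unfold QF
    refine continuous_finsetSum _ fun u _ => continuous_finsetSum _ fun v _ => ?_
    split_ifs
    · exact (continuous_apply u).mul (continuous_apply v)
    · exact continuous_const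
  have hcn : Continuous (fun x : V → ℝ => nsq x) := by
    unfold nsq
    exact continuous_finsetSum _ fun u _ => (continuous_apply u).pow 2
  have hcomp : IsCompact {x : V → ℝ | nsq x = 1} := by
    apply Metric.isCompact_of_isClosed_isBounded
    · exact isClosed_eq hcn continuous_const
    · refine (Metric.isBounded_iff_subset_closedBall 0).2 ⟨1, ?_⟩
      intro x hx
      rw [mem_closedBall_zero_iff, pi_norm_le_iff_of_nonneg (by norm_num)]
      intro v
      rw [Real.norm_eq_abs, ← sq_le_one_iff_abs_le_one]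
      have h1 : nsq x = 1 := hx
      rw [← h1]
      exact single_le_sum (f := fun u => x u ^ 2) (fun u _ => sq_nonneg (x u)) (mem_univ v)
  have hne : {x : V → ℝ | nsq x = 1}.Nonempty := by
    obtain ⟨v0⟩ := ‹Nonempty V›
    refine ⟨Pi.single v0 1, ?_⟩
    show nsq _ = 1
    unfold nsq
    rw [sum_eq_single v0]
    · simp
    · intro b _ hb; simp [Pi.single_eq_of_ne hb]
    · simp
  obtain ⟨x0, hx0, hmax⟩ := hcomp.exists_isMaxOn hne hcont.continuousOn
  set x : V → ℝ := fun v => |x0 v| with hx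
  have hx1 : nsq x = 1 := by rw [hx, nsq_abs]; exact hx0
  have hxmax : ∀ y, nsq y = 1 → QF G y ≤ QF G x := fun y hy =>
    le_trans (hmax hy) (QF_le_abs G x0)
  have hall : ∀ y, QF G y ≤ QF G x * nsq y := by
    intro y
    by_cases hy : y = 0
    · subst hy
      simp [QF, nsq]
    · have hp := nsq_pos hy
      have h1 := hxmax (fun v => (Real.sqrt (nsq y))⁻¹ * y v) (by
        rw [nsq_smul, inv_pow, Real.sq_sqrt hp.le, inv_mul_cancel₀ hp.ne'])
      rw [QF_smul, inv_pow, Real.sq_sqrt hp.le] at h1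
      rw [inv_mul_eq_div, div_le_iff₀ hp] at h1
      exact h1
  refine ⟨QF G x, x, fun v => abs_nonneg _, hx1, ?_, hall⟩
  intro v
  -- first variation in the direction of the unit vector at v
  set e : V → ℝ := Pi.single v 1 with he
  have hBF : BF G x e = AO G x v := by
    rw [BF_symm, BF_eq, sum_eq_single v]
    · simp [he]
    · intro b _ hb; simp [he, Pi.single_eq_of_ne hb]
    · simp
  have hin : ∑ w, x w * e w = x v := by
    rw [sum_eq_single v]
    · simp [he]
    · intro b _ hb; simp [he, Pi.single_eq_of_ne hb]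
    · simp
  have hq : ∀ t : ℝ, 2 * t * (AO G x v - QF G x * x v) + t ^ 2 * (QF G e - QF G x * nsq e) ≤ 0 := by
    intro t
    have h1 := hall (fun w => x w + t * e w)
    rw [QF_add_smul, nsq_add_smul, hBF, hin, hx1] at h1
    nlinarith
  set a := AO G x v - QF G x * x v with ha
  set b := QF G e - QF G x * nsq e with hb
  have ha0 : a = 0 := by
    by_contra hne
    have h1 := hq (a / (|b| + 1))
    have hbp : 0 < |b| + 1 := by positivity
    have h2 : a / (|b| + 1) * a > 0 := by
      have : a / (|b| + 1) * a = a ^ 2 / (|b| + 1) := by ring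
      rw [this]; positivity
    have h3 : (a / (|b| + 1)) ^ 2 * b ≥ - (a / (|b| + 1) * a) := by
      have h4 : (a / (|b| + 1)) ^ 2 * |b| ≤ a / (|b| + 1) * a := by
        have : (a / (|b| + 1)) ^ 2 * |b| = (a ^ 2 / (|b| + 1)) * (|b| / (|b| + 1)) := by
          field_simp
        rw [this]
        have h5 : |b| / (|b| + 1) ≤ 1 := by rw [div_le_one hbp]; linarith
        have h6 : a / (|b| + 1) * a = a ^ 2 / (|b| + 1) := by ring
        rw [h6]
        have h7 : 0 ≤ a ^ 2 / (|b| + 1) := by positivity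
        nlinarith
      have h8 : -|b| ≤ b := neg_abs_le b
      nlinarith [sq_nonneg (a / (|b| + 1))]
    nlinarith
  have : AO G x v = QF G x * x v := by linarith
  exact this

theorem eig_iff (G : SimpleGraph V) (μ : ℝ) :
    Module.End.HasEigenvalue (Matrix.toLin' (G.adjMatrix ℝ)) μ ↔
      ∃ x : V → ℝ, x ≠ 0 ∧ ∀ v, AO G x v = μ * x v := by
  have key : ∀ x : V → ℝ, (Matrix.toLin' (G.adjMatrix ℝ)) x = μ • x ↔ ∀ v, AO G x v = μ * x v := by
    intro x
    rw [Matrix.toLin'_apply, funext_iff]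
    refine forall_congr' fun v => ?_
    rw [SimpleGraph.adjMatrix_mulVec_apply]
    unfold AO
    rw [← sum_filter]
    have : univ.filter (fun w => G.Adj v w) = G.neighborFinset v := by
      ext w; simp
    rw [this]
    simp [Pi.smul_apply]
  constructor
  · intro h
    obtain ⟨x, hx⟩ := h.exists_hasEigenvector
    exact ⟨x, hx.2, (key x).1 hx.apply_eq_smul⟩
  · rintro ⟨x, hx, h⟩
    exact Module.End.hasEigenvalue_of_hasEigenvector
      (Module.End.hasEigenvector_iff.2 ⟨Module.End.mem_eigenspace_iff.2 ((key x).2 h), hx⟩)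

theorem specRadius_eq (G : SimpleGraph V) {μ : ℝ} {x : V → ℝ}
    (h1 : nsq x = 1) (h2 : ∀ v, AO G x v = μ * x v) (h3 : ∀ y, QF G y ≤ μ * nsq y) :
    specRadius G = μ := by
  have hx : x ≠ 0 := by
    rintro rfl
    simp [nsq] at h1
  apply IsGreatest.csSup_eq
  constructor
  · exact (eig_iff G μ).2 ⟨x, hx, h2⟩
  · intro ν hν
    obtain ⟨y, hy, hyν⟩ := (eig_iff G ν).1 hν
    have h4 : QF G y = ν * nsq y := by
      rw [QF_eq]
      unfold nsq
      rw [mul_sum]
      refine sum_congr rfl fun v _ => ?_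
      rw [hyν]; ring
    have h5 := h3 y
    rw [h4] at h5
    exact le_of_mul_le_mul_right h5 (nsq_pos hy)

theorem top [Nonempty V] (G : SimpleGraph V) : ∃ x : V → ℝ, (∀ v, 0 ≤ x v) ∧
    nsq x = 1 ∧ (∀ v, AO G x v = specRadius G * x v) := by
  obtain ⟨μ, x, h0, h1, h2, h3⟩ := exists_top G
  rw [specRadius_eq G h1 h2 h3]
  exact ⟨x, h0, h1, h2⟩

theorem QF_le [Nonempty V] (G : SimpleGraph V) (y : V → ℝ) : QF G y ≤ specRadius G * nsq y := by
  obtain ⟨μ, x, h0, h1, h2, h3⟩ := exists_top G
  rw [specRadius_eq G h1 h2 h3]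
  exact h3 y

theorem QF_of_eig (G : SimpleGraph V) {μ : ℝ} {x : V → ℝ} (h2 : ∀ v, AO G x v = μ * x v) :
    QF G x = μ * nsq x := by
  rw [QF_eq]
  unfold nsq
  rw [mul_sum]
  refine sum_congr rfl fun v _ => ?_
  rw [h2]; ring

theorem specRadius_le [Nonempty V] (G : SimpleGraph V) {c : ℝ}
    (h : ∀ x : V → ℝ, (∀ v, 0 ≤ x v) → nsq x = 1 → QF G x ≤ c) : specRadius G ≤ c := by
  obtain ⟨x, h0, h1, h2⟩ := top G
  have := h x h0 h1
  rw [QF_of_eig G h2, h1] at this
  linarith

end Pool.Agent.TH516.CC
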