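import Mathlib
import Pool.Agent.TH516.CC.Spec

set_option autoImplicit false

/-!
# Bounds for the spectral radius
-/

namespace Pool.Agent.TH516.CC

open Finset Classical

variable {V : Type*} [Fintype V]

/-- No triangles. -/
def TriFree (G : SimpleGraph V) : Prop := ∀ a b c, G.Adj a b → G.Adj b c → G.Adj a c → False

/-- Ordered adjacent pairs. -/
noncomputable def opairs (G : SimpleGraph V) : Finset (V × V) := univ.filter fun p => G.Adj p.1 p.2

theorem QF_opairs (G : SimpleGraph V) (x : V → ℝ) : QF G x = ∑ p ∈ opairs G, x p.1 * x p.2 := by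
  unfold QF opairs
  rw [sum_filter, ← univ_product_univ, sum_product]

theorem sum_sq_pairs_le (D : Finset (V × V)) (x : V → ℝ) :
    ∑ p ∈ D, (x p.1 * x p.2) ^ 2 ≤ nsq x ^ 2 := by
  calc ∑ p ∈ D, (x p.1 * x p.2) ^ 2 ≤ ∑ p : V × V, (x p.1 * x p.2) ^ 2 :=
        sum_le_sum_of_subset_of_nonneg (subset_univ _) fun _ _ _ => sq_nonneg _
    _ = nsq x ^ 2 := by
        rw [← univ_product_univ, sum_product, sq (nsq x)]
        unfold nsq
        rw [sum_mul_sum]
        exact sum_congr rfl fun _ _ => sum_congr rfl fun _ _ => by ring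

theorem sum_pairs_le (D : Finset (V × V)) (x : V → ℝ) :
    ∑ p ∈ D, x p.1 * x p.2 ≤ Real.sqrt D.card * nsq x := by
  have h1 : (∑ p ∈ D, x p.1 * x p.2) ^ 2 ≤ (D.card : ℝ) * ∑ p ∈ D, (x p.1 * x p.2) ^ 2 :=
    sq_sum_le_card_mul_sum_sq
  have h2 := sum_sq_pairs_le D x
  have h3 : (∑ p ∈ D, x p.1 * x p.2) ^ 2 ≤ (Real.sqrt D.card * nsq x) ^ 2 := by
    rw [mul_pow, Real.sq_sqrt (Nat.cast_nonneg _)]
    refine h1.trans ?_
    exact mul_le_mul_of_nonneg_left h2 (Nat.cast_nonneg _)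
  exact (le_abs_self _).trans (abs_le_of_sq_le_sq h3 (mul_nonneg (Real.sqrt_nonneg _) (nsq_nonneg x)))

/-- Ordered pairs adjacent in `G` and not in `G'`. -/
noncomputable def dpairs (G G' : SimpleGraph V) : Finset (V × V) :=
  univ.filter fun p => G.Adj p.1 p.2 ∧ ¬ G'.Adj p.1 p.2

theorem mem_dpairs {G G' : SimpleGraph V} {p : V × V} :
    p ∈ dpairs G G' ↔ G.Adj p.1 p.2 ∧ ¬ G'.Adj p.1 p.2 := by
  unfold dpairs; rw [mem_filter]; simp

/-- Removing few edges changes the form only slightly. -/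
theorem QF_loss {G G' : SimpleGraph V} (hle : G' ≤ G) (x : V → ℝ) :
    QF G x ≤ QF G' x + Real.sqrt ((dpairs G G').card) * nsq x := by
  have h : QF G x = QF G' x + ∑ p ∈ dpairs G G', x p.1 * x p.2 := by
    rw [QF_opairs, QF_opairs]
    unfold opairs dpairs
    rw [sum_filter, sum_filter, sum_filter, ← sum_add_distrib]
    refine sum_congr rfl fun p _ => ?_
    by_cases h1 : G.Adj p.1 p.2
    · by_cases h2 : G'.Adj p.1 p.2 <;> simp [h1, h2]
    · have h2 : ¬ G'.Adj p.1 p.2 := fun h => h1 (hle h)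
      simp [h1, h2]
  rw [h]
  exact add_le_add_right (sum_pairs_le _ x) _

/-- Motzkin-Straus for triangle-free graphs. -/
theorem QF_triFree {G : SimpleGraph V} (h : TriFree G) (y : V → ℝ) (hy : ∀ v, 0 ≤ y v) :
    QF G y ≤ (∑ v, y v) ^ 2 / 2 := by
  rcases isEmpty_or_nonempty V with hV | hV
  · simp [QF]
  obtain ⟨v, -, hv⟩ := exists_max_image (univ : Finset V) (AO G y) univ_nonempty
  set D := AO G y v with hD
  have hDe : D = ∑ w ∈ univ.filter (fun w => G.Adj v w), y w := by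
    rw [hD]; unfold AO; rw [sum_filter]
  set T := ∑ w, y w with hT
  have hTD : ∑ w ∈ univ.filter (fun w => ¬ G.Adj v w), y w = T - D := by
    rw [hDe, hT, ← sum_filter_add_sum_filter_not univ (fun w => G.Adj v w) y]; ring
  have h1 : QF G y ≤ 2 * ∑ u ∈ univ.filter (fun w => ¬ G.Adj v w), y u * AO G y u := by
    have h2 : ∑ u ∈ univ.filter (fun w => ¬ G.Adj v w), y u * AO G y u =
        ∑ u, ∑ w, if G.Adj u w then (if ¬ G.Adj v u then y u * y w else 0) else 0 := by
      rw [sum_filter]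
      refine sum_congr rfl fun u _ => ?_
      unfold AO
      split_ifs with h3
      · simp
      · rw [mul_sum]
        refine sum_congr rfl fun w _ => ?_
        by_cases h4 : G.Adj u w <;> simp [h4]
    have h2' : ∑ u ∈ univ.filter (fun w => ¬ G.Adj v w), y u * AO G y u =
        ∑ u, ∑ w, if G.Adj u w then (if ¬ G.Adj v w then y u * y w else 0) else 0 := by
      rw [h2, sum_comm]
      refine sum_congr rfl fun u _ => sum_congr rfl fun w _ => ?_
      simp only [G.adj_comm w u, mul_comm (y w) (y u)]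
    rw [two_mul]
    nth_rewrite 1 [h2]
    rw [h2']
    unfold QF
    simp only [← sum_add_distrib]
    refine sum_le_sum fun u _ => sum_le_sum fun w _ => ?_
    have hnn : 0 ≤ y u * y w := mul_nonneg (hy u) (hy w)
    by_cases h3 : G.Adj u w
    · by_cases h4 : G.Adj v u
      · by_cases h5 : G.Adj v w
        · exact absurd h5 fun h5 => h v u w h4 h3 h5
        · simp [h3, h4, h5]
      · by_cases h5 : G.Adj v w
        · simp [h3, h4, h5]
        · simp [h3, h4, h5, hnn]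
    · simp [h3]
  have h2 : ∑ u ∈ univ.filter (fun w => ¬ G.Adj v w), y u * AO G y u ≤ (T - D) * D := by
    rw [← hTD, sum_mul]
    exact sum_le_sum fun u _ => mul_le_mul_of_nonneg_left (hv u (mem_univ u)) (hy u)
  nlinarith [sq_nonneg (T - 2 * D)]

theorem opairs_card_triFree {G : SimpleGraph V} (h : TriFree G) :
    ((opairs G).card : ℝ) ≤ (Fintype.card V : ℝ) ^ 2 / 2 := by
  have h1 := QF_triFree h (fun _ => 1) (fun _ => zero_le_one)
  rw [QF_opairs] at h1
  simpa using h1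

/-- Nosal's inequality. -/
theorem QF_sq_triFree {G : SimpleGraph V} (h : TriFree G) (x : V → ℝ) :
    QF G x ^ 2 ≤ ((opairs G).card : ℝ) / 2 * nsq x ^ 2 := by
  rw [QF_opairs]
  have h1 : (∑ p ∈ opairs G, x p.1 * x p.2) ^ 2 ≤
      ((opairs G).card : ℝ) * ∑ p ∈ opairs G, (x p.1 * x p.2) ^ 2 := sq_sum_le_card_mul_sum_sq
  have h2 : ∑ p ∈ opairs G, (x p.1 * x p.2) ^ 2 = QF G (fun v => x v ^ 2) := by
    rw [QF_opairs]
    exact sum_congr rfl fun p _ => by ring
  have h3 := QF_triFree h (fun v => x v ^ 2) (fun v => sq_nonneg _)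
  rw [h2] at h1
  have h4 : (∑ v, x v ^ 2) = nsq x := rfl
  rw [h4] at h3
  nlinarith [Nat.cast_nonneg (α := ℝ) (opairs G).card]

theorem opairs_even (G : SimpleGraph V) : (opairs G).card = 2 * G.edgeFinset.card := by
  rw [SimpleGraph.two_mul_card_edgeFinset]
  rfl

theorem triFree_specRadius [Nonempty V] {G : SimpleGraph V} (h : TriFree G) :
    specRadius G ≤ Real.sqrt ((Fintype.card V ^ 2 / 4 : ℕ) : ℝ) := by
  obtain ⟨x, h0, h1, h2⟩ := top G
  have h3 := QF_of_eig G h2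
  rw [h1, mul_one] at h3
  have h4 := QF_sq_triFree h x
  rw [h3, h1, one_pow, mul_one] at h4
  have h5 := opairs_card_triFree h
  have h6 : G.edgeFinset.card ≤ Fintype.card V ^ 2 / 4 := by
    rw [Nat.le_div_iff_mul_le (by norm_num)]
    rw [opairs_even] at h5
    have : ((G.edgeFinset.card * 4 : ℕ) : ℝ) ≤ ((Fintype.card V ^ 2 : ℕ) : ℝ) := by
      push_cast at h5 ⊢; linarith
    exact_mod_cast this
  apply Real.le_sqrt_of_sq_le
  refine h4.trans ?_
  rw [opairs_even]
  push_cast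
  have : (G.edgeFinset.card : ℝ) ≤ ((Fintype.card V ^ 2 / 4 : ℕ) : ℝ) := by exact_mod_cast h6
  linarith

theorem hasCyc_three [Nonempty V] {G : SimpleGraph V}
    (h : Real.sqrt ((Fintype.card V ^ 2 / 4 : ℕ) : ℝ) < specRadius G) : HasCyc G 3 := by
  by_contra hno
  refine absurd (triFree_specRadius (G := G) ?_) (not_le.2 h)
  intro a b c hab hbc hac
  apply hno
  refine ⟨fun i => if i = 0 then a else if i = 1 then b else c, ?_, ?_, ?_⟩
  · intro i hi j hj hij
    have h1 := hab.ne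
    have h2 := hbc.ne
    have h3 := hac.ne
    interval_cases i <;> interval_cases j <;> simp_all
  · intro i hi
    have : i = 0 ∨ i = 1 := by omega
    rcases this with rfl | rfl <;> simp [hab, hbc]
  · simp [hac.symm]

theorem sum_univ_mem (P : Finset V) (f : V → ℝ) :
    ∑ u ∈ P, f u = ∑ u, if u ∈ P then f u else 0 := by
  rw [← sum_filter]
  refine sum_congr ?_ fun _ _ => rfl
  ext v; simp

/-- If all edges go between `P` and `Q`. -/
theorem QF_bip {G : SimpleGraph V} (P Q : Finset V) (hPQ : Disjoint P Q)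
    (h : ∀ u v, G.Adj u v → (u ∈ P ∧ v ∈ Q) ∨ (u ∈ Q ∧ v ∈ P)) (x : V → ℝ) (hx : ∀ v, 0 ≤ x v) :
    QF G x ≤ Real.sqrt ((P.card : ℝ) * Q.card) * nsq x := by
  have h1 : QF G x ≤ 2 * ((∑ u ∈ P, x u) * (∑ v ∈ Q, x v)) := by
    have h2 : (∑ u ∈ P, x u) * (∑ v ∈ Q, x v) =
        ∑ u, ∑ v, if u ∈ P ∧ v ∈ Q then x u * x v else 0 := by
      rw [sum_mul_sum, sum_univ_mem P]
      refine sum_congr rfl fun u _ => ?_
      by_cases hu : u ∈ P
      · simp only [hu, if_true, true_and]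
        rw [sum_univ_mem Q]
      · simp [hu]
    have h3 : (∑ u ∈ P, x u) * (∑ v ∈ Q, x v) =
        ∑ u, ∑ v, if u ∈ Q ∧ v ∈ P then x u * x v else 0 := by
      rw [h2, sum_comm]
      refine sum_congr rfl fun u _ => sum_congr rfl fun v _ => ?_
      simp only [and_comm, mul_comm]
    rw [two_mul]
    nth_rewrite 1 [h2]
    rw [h3]
    unfold QF
    simp only [← sum_add_distrib]
    refine sum_le_sum fun u _ => sum_le_sum fun v _ => ?_
    have hnn : 0 ≤ x u * x v := mul_nonneg (hx u) (hx v)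
    by_cases h4 : G.Adj u v
    · rcases h u v h4 with h5 | h5
      · rw [if_pos h4, if_pos h5]
        split_ifs <;> linarith
      · rw [if_pos h4, if_pos h5]
        split_ifs <;> linarith
    · rw [if_neg h4]
      split_ifs <;> linarith
  have hP : (∑ u ∈ P, x u) ^ 2 ≤ P.card * ∑ u ∈ P, x u ^ 2 := sq_sum_le_card_mul_sum_sq
  have hQ : (∑ u ∈ Q, x u) ^ 2 ≤ Q.card * ∑ u ∈ Q, x u ^ 2 := sq_sum_le_card_mul_sum_sq
  set p := ∑ u ∈ P, x u ^ 2 with hp
  set q := ∑ u ∈ Q, x u ^ 2 with hq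
  have hpq : p + q ≤ nsq x := by
    rw [hp, hq, ← sum_union hPQ]
    exact sum_le_sum_of_subset_of_nonneg (subset_univ _) fun _ _ _ => sq_nonneg _
  have hp0 : 0 ≤ p := sum_nonneg fun _ _ => sq_nonneg _
  have hq0 : 0 ≤ q := sum_nonneg fun _ _ => sq_nonneg _
  have h5 : ((∑ u ∈ P, x u) * (∑ v ∈ Q, x v)) ^ 2 ≤
      (Real.sqrt ((P.card : ℝ) * Q.card) * ((p + q) / 2)) ^ 2 := by
    rw [mul_pow, mul_pow, Real.sq_sqrt (by positivity)]
    have h6 : (∑ u ∈ P, x u) ^ 2 * (∑ u ∈ Q, x u) ^ 2 ≤ (P.card * p) * (Q.card * q) :=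
      mul_le_mul hP hQ (sq_nonneg _) (by positivity)
    have h7 : p * q ≤ ((p + q) / 2) ^ 2 := by nlinarith [sq_nonneg (p - q)]
    have h8 : (0 : ℝ) ≤ (P.card : ℝ) * Q.card := by positivity
    nlinarith
  have h6 := (le_abs_self _).trans (abs_le_of_sq_le_sq h5 (by positivity))
  have h7 : Real.sqrt ((P.card : ℝ) * Q.card) * (p + q) ≤
      Real.sqrt ((P.card : ℝ) * Q.card) * nsq x :=
    mul_le_mul_of_nonneg_left hpq (Real.sqrt_nonneg _)
  linarith

end Pool.Agent.TH516.CC
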