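import Mathlib
import Pool.Agent.TH516.CC.Spec2

set_option autoImplicit false

/-!
# The spectral radius of a graph with a small fractional vertex cover
-/

namespace Pool.Agent.TH516.CC

open Finset Classical

theorem abc_alg1 {a b c t δ : ℝ} (ha : 0 ≤ a) (hb : 0 ≤ b) (habc : a + b + c ≤ 1)
    (hat : 2 * a + b ≤ t) (ht : t ≤ 2 / 5) (hδ : δ ≤ t ^ 2 - 3 * t + 1) :
    δ ≤ (1 - 2 * b) - 2 * a * (1 + 2 * c * (1 - 2 * b)) := by
  have hbt : b ≤ t := by linarith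
  have h1 : 0 ≤ 1 - 2 * b := by linarith
  have h2 : 2 * a * (1 + 2 * c * (1 - 2 * b)) ≤ 2 * a * (1 + 2 * (1 - a - b) * (1 - 2 * b)) := by
    apply mul_le_mul_of_nonneg_left _ (by linarith)
    nlinarith
  set a0 := (t - b) / 2 with ha0
  have h3 : a ≤ a0 := by rw [ha0]; linarith
  have ha05 : a0 ≤ 1 / 5 := by rw [ha0]; linarith
  have h4 : 2 * a0 * (1 + 2 * (1 - a0 - b) * (1 - 2 * b)) -
      2 * a * (1 + 2 * (1 - a - b) * (1 - 2 * b)) =
      (a0 - a) * (2 + 4 * ((1 - 2 * b) * (1 - b - a0 - a))) := by ring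
  have h5 : 0 ≤ (a0 - a) * (2 + 4 * ((1 - 2 * b) * (1 - b - a0 - a))) := by
    apply mul_nonneg (by linarith)
    have : 0 ≤ (1 - 2 * b) * (1 - b - a0 - a) := mul_nonneg h1 (by linarith)
    linarith
  have h6 : (1 - 2 * b) - 2 * a0 * (1 + 2 * (1 - a0 - b) * (1 - 2 * b)) =
      (t ^ 2 - 3 * t + 1) + b * (1 - t) + b * ((t - b) * (5 - 2 * (t + b))) := by
    rw [ha0]; ring
  have h7 : 0 ≤ b * (1 - t) := mul_nonneg hb (by linarith)
  have h8 : 0 ≤ b * ((t - b) * (5 - 2 * (t + b))) :=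
    mul_nonneg hb (mul_nonneg (by linarith) (by linarith))
  linarith

theorem abc_alg2 {a b c t δ θ : ℝ} (ha : 0 ≤ a) (hb : 0 ≤ b) (hc : 0 ≤ c)
    (habc : a + b + c ≤ 1) (hat : 2 * a + b ≤ t) (ht : t ≤ 2 / 5) (hδ0 : 0 ≤ δ)
    (hδ1 : δ ≤ 1 / 10) (hδ : δ ≤ t ^ 2 - 3 * t + 1) (hθ : θ = 1 / 2 - δ / 10) :
    b < θ ∧ a * (1 + c / θ + b / (θ - b)) ≤ θ := by
  have h1 := abc_alg1 ha hb habc hat ht hδ
  have hbt : b ≤ 2 / 5 := by linarith
  have hθb : b < θ := by rw [hθ]; linarith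
  have hθ0 : 0 < θ := lt_of_le_of_lt hb hθb
  refine ⟨hθb, ?_⟩
  have hd : 0 < θ - b := by linarith
  have key : a * (θ ^ 2 + c * (θ - b)) ≤ θ ^ 2 * (θ - b) := by
    -- value at 1/2
    have h2 : (1 / 2) ^ 2 * (1 / 2 - b) - a * ((1 / 2) ^ 2 + c * (1 / 2 - b)) ≥ δ / 8 := by
      nlinarith
    have hac : 0 ≤ a * c := mul_nonneg ha hc
    -- difference
    have h3 : θ ^ 2 * (θ - b) - a * (θ ^ 2 + c * (θ - b)) =
        ((1 / 2) ^ 2 * (1 / 2 - b) - a * ((1 / 2) ^ 2 + c * (1 / 2 - b))) -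
        (1 / 2 - θ) * (((1 / 2) ^ 2 + (1 / 2) * θ + θ ^ 2) - b * (1 / 2 + θ)
          - a * (1 / 2 + θ) - a * c) := by ring
    have h4 : 0 ≤ 1 / 2 - θ := by rw [hθ]; linarith
    have h5 : ((1 / 2) ^ 2 + (1 / 2) * θ + θ ^ 2) - b * (1 / 2 + θ) - a * (1 / 2 + θ) - a * c ≤
        3 / 4 := by
      have hθ2 : θ ≤ 1 / 2 := by linarith
      have h6 : 0 ≤ b * (1 / 2 + θ) := by positivity
      have h7 : 0 ≤ a * (1 / 2 + θ) := by positivity
      nlinarith
    have h6 : (1 / 2 - θ) * (((1 / 2) ^ 2 + (1 / 2) * θ + θ ^ 2) - b * (1 / 2 + θ)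
          - a * (1 / 2 + θ) - a * c) ≤ (1 / 2 - θ) * (3 / 4) :=
      mul_le_mul_of_nonneg_left h5 h4
    have h7 : (1 / 2 - θ) = δ / 10 := by rw [hθ]; ring
    rw [h7] at h6
    rw [h7] at h3
    linarith
  have h8 : a * (1 + c / θ + b / (θ - b)) = a * (θ ^ 2 + c * (θ - b)) / (θ * (θ - b)) := by
    field_simp
    ring
  rw [h8, div_le_iff₀ (by positivity)]
  linarith

theorem abc_form {P Q R p q r a b c θ : ℝ} (hp : 0 ≤ p) (hq : 0 ≤ q)
    (hr : 0 ≤ r) (hb : 0 ≤ b) (hc : 0 ≤ c) (hPp : P ^ 2 ≤ a * p)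
    (hQq : Q ^ 2 ≤ b * q) (hRr : R ^ 2 ≤ c * r) (hbθ : b < θ)
    (h : a * (1 + c / θ + b / (θ - b)) ≤ θ) :
    P ^ 2 + Q ^ 2 + 2 * P * Q + 2 * P * R ≤ θ * (p + q + r) := by
  have hθ : 0 < θ := lt_of_le_of_lt hb hbθ
  have hd : 0 < θ - b := by linarith
  have h1 : 2 * P * R ≤ c / θ * P ^ 2 + θ * r := by
    have h2 : (2 * P * R) ^ 2 ≤ (c / θ * P ^ 2 + θ * r) ^ 2 := by
      have h3 : (2 * P * R) ^ 2 ≤ 4 * (c / θ * P ^ 2) * (θ * r) := by
        have : 4 * (c / θ * P ^ 2) * (θ * r) = 4 * P ^ 2 * (c * r) := by field_simp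
        rw [this]
        nlinarith [sq_nonneg P]
      nlinarith [sq_nonneg (c / θ * P ^ 2 - θ * r)]
    exact (le_abs_self _).trans (abs_le_of_sq_le_sq h2 (by positivity))
  have h2 : 2 * P * Q ≤ b / (θ - b) * P ^ 2 + (θ - b) * q := by
    have h2 : (2 * P * Q) ^ 2 ≤ (b / (θ - b) * P ^ 2 + (θ - b) * q) ^ 2 := by
      have h3 : (2 * P * Q) ^ 2 ≤ 4 * (b / (θ - b) * P ^ 2) * ((θ - b) * q) := by
        have : 4 * (b / (θ - b) * P ^ 2) * ((θ - b) * q) = 4 * P ^ 2 * (b * q) := by field_simp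
        rw [this]
        nlinarith [sq_nonneg P]
      nlinarith [sq_nonneg (b / (θ - b) * P ^ 2 - (θ - b) * q)]
    exact (le_abs_self _).trans (abs_le_of_sq_le_sq h2 (by positivity))
  have h3 : P ^ 2 * (1 + c / θ + b / (θ - b)) ≤ θ * p := by
    have h4 : 0 ≤ 1 + c / θ + b / (θ - b) := by positivity
    calc P ^ 2 * (1 + c / θ + b / (θ - b)) ≤ (a * p) * (1 + c / θ + b / (θ - b)) :=
          mul_le_mul_of_nonneg_right hPp h4
      _ = (a * (1 + c / θ + b / (θ - b))) * p := by ring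
      _ ≤ θ * p := mul_le_mul_of_nonneg_right h hp
  nlinarith

variable {V : Type*} [Fintype V]

/-- `A`, `B`, `C` disjoint, all edges are inside `A`, inside `B`, or between `A` and `B ∪ C`. -/
theorem QF_abc {G : SimpleGraph V} (A B C : Finset V) (hAB : Disjoint A B) (hAC : Disjoint A C)
    (hBC : Disjoint B C)
    (hcov : ∀ u v, G.Adj u v → u ∈ A ∪ B ∪ C)
    (h1 : ∀ u v, G.Adj u v → u ∈ C → v ∈ A)
    {n t δ : ℝ} (hn : 0 < n)
    (hsum : (A.card : ℝ) + B.card + C.card ≤ n)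
    (hat : 2 * (A.card : ℝ) + B.card ≤ t * n) (ht : t ≤ 2 / 5) (hδ0 : 0 ≤ δ)
    (hδ1 : δ ≤ 1 / 10) (hδ : δ ≤ t ^ 2 - 3 * t + 1) (x : V → ℝ) (hx : ∀ v, 0 ≤ x v) :
    QF G x ≤ (1 / 2 - δ / 10) * n * nsq x := by
  set P := ∑ u ∈ A, x u with hP
  set Q := ∑ u ∈ B, x u with hQ
  set R := ∑ u ∈ C, x u with hR
  have h2 : QF G x ≤ P ^ 2 + Q ^ 2 + 2 * P * Q + 2 * P * R := by
    have e1 : ∀ S T : Finset V, (∑ u ∈ S, x u) * (∑ v ∈ T, x v) =
        ∑ u, ∑ v, if u ∈ S ∧ v ∈ T then x u * x v else 0 := by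
      intro S T
      rw [sum_mul_sum, sum_univ_mem S]
      refine sum_congr rfl fun u _ => ?_
      by_cases hu : u ∈ S
      · simp only [hu, if_true, true_and]
        rw [sum_univ_mem T]
      · simp [hu]
    have e2 : P ^ 2 + Q ^ 2 + 2 * P * Q + 2 * P * R =
        ∑ u, ∑ v, (((if u ∈ A ∧ v ∈ A then x u * x v else 0) +
          (if u ∈ B ∧ v ∈ B then x u * x v else 0) +
          (if u ∈ A ∧ v ∈ B then x u * x v else 0) +
          (if u ∈ B ∧ v ∈ A then x u * x v else 0)) +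
          (if u ∈ A ∧ v ∈ C then x u * x v else 0) +
          (if u ∈ C ∧ v ∈ A then x u * x v else 0)) := by
      simp only [sum_add_distrib]
      rw [← e1, ← e1, ← e1, ← e1, ← e1, ← e1]
      ring
    rw [e2]
    unfold QF
    refine sum_le_sum fun u _ => sum_le_sum fun v _ => ?_
    have hnn : 0 ≤ x u * x v := mul_nonneg (hx u) (hx v)
    have i1 : 0 ≤ (if u ∈ A ∧ v ∈ A then x u * x v else 0) := by
      split_ifs <;> linarith
    have i2 : 0 ≤ (if u ∈ B ∧ v ∈ B then x u * x v else 0) := by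
      split_ifs <;> linarith
    have i3 : 0 ≤ (if u ∈ A ∧ v ∈ B then x u * x v else 0) := by
      split_ifs <;> linarith
    have i4 : 0 ≤ (if u ∈ B ∧ v ∈ A then x u * x v else 0) := by
      split_ifs <;> linarith
    have i5 : 0 ≤ (if u ∈ A ∧ v ∈ C then x u * x v else 0) := by
      split_ifs <;> linarith
    have i6 : 0 ≤ (if u ∈ C ∧ v ∈ A then x u * x v else 0) := by
      split_ifs <;> linarith
    by_cases huv : G.Adj u v
    · rw [if_pos huv]
      have hu := hcov u v huv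
      have hv := hcov v u huv.symm
      rw [mem_union, mem_union] at hu hv
      rcases hu with (hu | hu) | hu
      · rcases hv with (hv | hv) | hv
        · rw [if_pos (show u ∈ A ∧ v ∈ A from ⟨hu, hv⟩)] at i1 ⊢; linarith
        · rw [if_pos (show u ∈ A ∧ v ∈ B from ⟨hu, hv⟩)] at i3 ⊢; linarith
        · rw [if_pos (show u ∈ A ∧ v ∈ C from ⟨hu, hv⟩)] at i5 ⊢; linarith
      · rcases hv with (hv | hv) | hv
        · rw [if_pos (show u ∈ B ∧ v ∈ A from ⟨hu, hv⟩)] at i4 ⊢; linarith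
        · rw [if_pos (show u ∈ B ∧ v ∈ B from ⟨hu, hv⟩)] at i2 ⊢; linarith
        · exact absurd (h1 v u huv.symm hv) (fun h => Finset.disjoint_left.1 hAB h hu)
      · have hv' := h1 u v huv hu
        rw [if_pos (show u ∈ C ∧ v ∈ A from ⟨hu, hv'⟩)] at i6 ⊢; linarith
    · rw [if_neg huv]; linarith
  have hP2 : P ^ 2 ≤ A.card * ∑ u ∈ A, x u ^ 2 := sq_sum_le_card_mul_sum_sq
  have hQ2 : Q ^ 2 ≤ B.card * ∑ u ∈ B, x u ^ 2 := sq_sum_le_card_mul_sum_sq
  have hR2 : R ^ 2 ≤ C.card * ∑ u ∈ C, x u ^ 2 := sq_sum_le_card_mul_sum_sq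
  set p := ∑ u ∈ A, x u ^ 2 with hp
  set q := ∑ u ∈ B, x u ^ 2 with hq
  set r := ∑ u ∈ C, x u ^ 2 with hr
  have hp0 : 0 ≤ p := sum_nonneg fun _ _ => sq_nonneg _
  have hq0 : 0 ≤ q := sum_nonneg fun _ _ => sq_nonneg _
  have hr0 : 0 ≤ r := sum_nonneg fun _ _ => sq_nonneg _
  have hpqr : p + q + r ≤ nsq x := by
    rw [hp, hq, hr, ← sum_union hAB, ← sum_union (by
      rw [disjoint_union_left]; exact ⟨hAC, hBC⟩)]
    exact sum_le_sum_of_subset_of_nonneg (subset_univ _) fun _ _ _ => sq_nonneg _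
  have halg := abc_alg2 (a := A.card / n) (b := B.card / n) (c := C.card / n) (t := t) (δ := δ)
    (θ := 1 / 2 - δ / 10) (by positivity) (by positivity) (by positivity)
    (by rw [← add_div, ← add_div, div_le_one hn]; exact hsum)
    (by rw [← mul_div_assoc, ← add_div, div_le_iff₀ hn]; exact hat) ht hδ0 hδ1 hδ rfl
  have hform := abc_form (P := P / n) (Q := Q / n) (R := R / n) (p := p / n) (q := q / n)
    (r := r / n) (a := A.card / n) (b := B.card / n) (c := C.card / n) (θ := 1 / 2 - δ / 10)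
    (by positivity) (by positivity) (by positivity) (by positivity) (by positivity)
    (by rw [div_pow, div_mul_div_comm, sq n]; exact div_le_div_of_nonneg_right hP2 (by positivity))
    (by rw [div_pow, div_mul_div_comm, sq n]; exact div_le_div_of_nonneg_right hQ2 (by positivity))
    (by rw [div_pow, div_mul_div_comm, sq n]; exact div_le_div_of_nonneg_right hR2 (by positivity))
    halg.1 halg.2
  have e3 : (P / n) ^ 2 + (Q / n) ^ 2 + 2 * (P / n) * (Q / n) + 2 * (P / n) * (R / n) =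
      (P ^ 2 + Q ^ 2 + 2 * P * Q + 2 * P * R) / n ^ 2 := by field_simp
  have e4 : (1 / 2 - δ / 10) * (p / n + q / n + r / n) =
      (1 / 2 - δ / 10) * n * (p + q + r) / n ^ 2 := by field_simp
  rw [e3, e4, div_le_div_iff_of_pos_right (by positivity)] at hform
  have h9 : (1 / 2 - δ / 10) * n * (p + q + r) ≤ (1 / 2 - δ / 10) * n * nsq x := by
    apply mul_le_mul_of_nonneg_left hpqr
    apply mul_nonneg _ hn.le
    linarith
  linarith

end Pool.Agent.TH516.CC
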