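import Mathlib
import Pool.Agent.TH516.CC.Cyc

set_option autoImplicit false

/-!
# Closed walks in the reduced graph and cycles of all lengths
-/

namespace Pool.Agent.TH516.CC

open Finset Classical

variable {ι : Type*}

/-- number of visits, the starting vertex not counted -/
noncomputable def cnt {R : SimpleGraph ι} {u v : ι} (p : R.Walk u v) (j : ι) : ℕ :=
  p.support.tail.count j

theorem cnt_append {R : SimpleGraph ι} {u v w : ι} (p : R.Walk u v) (q : R.Walk v w) (j : ι) :
    cnt (p.append q) j = cnt p j + cnt q j := by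
  unfold cnt
  rw [SimpleGraph.Walk.tail_support_append, List.count_append]

theorem cnt_le_length {R : SimpleGraph ι} {u v : ι} (p : R.Walk u v) (j : ι) :
    cnt p j ≤ p.length := by
  unfold cnt
  refine List.count_le_length.trans ?_
  rw [List.length_tail, SimpleGraph.Walk.length_support]
  omega

theorem card_getVert_support {R : SimpleGraph ι} {u v : ι} (p : R.Walk u v) (j : ι) :
    ((range (p.length + 1)).filter (fun t => p.getVert t = j)).card = p.support.count j := by
  induction p with
  | nil =>
    rw [Finset.card_filter, SimpleGraph.Walk.support_nil, List.count_singleton]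
    simp only [SimpleGraph.Walk.length_nil, zero_add, range_one, sum_singleton,
      SimpleGraph.Walk.getVert_nil, beq_iff_eq]
    split_ifs <;> simp_all
  | cons h p ih =>
    rw [Finset.card_filter] at ih
    rw [Finset.card_filter, SimpleGraph.Walk.length_cons, Finset.sum_range_succ',
      SimpleGraph.Walk.support_cons, List.count_cons, ← ih]
    simp only [SimpleGraph.Walk.getVert_cons_succ, SimpleGraph.Walk.getVert_zero, beq_iff_eq]
    congr 1

theorem card_getVert {R : SimpleGraph ι} {u v : ι} (p : R.Walk u v) (j : ι) :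
    ((range p.length).filter (fun t => p.getVert (t + 1) = j)).card = cnt p j := by
  cases p with
  | nil =>
    unfold cnt
    rw [SimpleGraph.Walk.length_nil, range_zero, filter_empty, card_empty,
      SimpleGraph.Walk.support_nil, List.tail_cons, List.count_nil]
  | cons h p =>
    have := card_getVert_support p j
    unfold cnt
    rw [SimpleGraph.Walk.support_cons, List.tail_cons, ← this, SimpleGraph.Walk.length_cons]
    rfl

/-- Insert the detour `i, i', i` `s` times. -/
theorem insert_one {R : SimpleGraph ι} {u i i' : ι} (h : R.Adj i i') (s : ℕ) (W : R.Walk u u)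
    (hi : i ∈ W.support) :
    ∃ W' : R.Walk u u, W'.length = W.length + 2 * s ∧ (∀ j ∈ W.support, j ∈ W'.support) ∧
      ∀ j, cnt W' j ≤ cnt W j + (if j = i then s else 0) + (if j = i' then s else 0) := by
  induction s with
  | zero => exact ⟨W, by simp, fun j hj => hj, fun j => by simp⟩
  | succ s ih =>
    obtain ⟨W1, hl, hsup, hc⟩ := ih
    have hi1 := hsup i hi
    set D : R.Walk i i := SimpleGraph.Walk.cons h (SimpleGraph.Walk.cons h.symm SimpleGraph.Walk.nil) with hD
    refine ⟨(W1.takeUntil i hi1).append (D.append (W1.dropUntil i hi1)), ?_, ?_, ?_⟩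
    · rw [SimpleGraph.Walk.length_append, SimpleGraph.Walk.length_append]
      have h1 := congrArg SimpleGraph.Walk.length (W1.take_spec hi1)
      rw [SimpleGraph.Walk.length_append] at h1
      have h2 : D.length = 2 := rfl
      omega
    · intro j hj
      have h1 := hsup j hj
      rw [← W1.take_spec hi1, SimpleGraph.Walk.mem_support_append_iff] at h1
      rw [SimpleGraph.Walk.mem_support_append_iff, SimpleGraph.Walk.mem_support_append_iff]
      tauto
    · intro j
      have h1 := congrArg (fun w => cnt w j) (W1.take_spec hi1)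
      simp only [cnt_append] at h1
      rw [cnt_append, cnt_append]
      have h2 : cnt D j = (if j = i then 1 else 0) + (if j = i' then 1 else 0) := by
        unfold cnt
        rw [hD, SimpleGraph.Walk.support_cons, SimpleGraph.Walk.support_cons,
          SimpleGraph.Walk.support_nil, List.tail_cons, List.count_cons, List.count_singleton]
        simp only [beq_iff_eq]
        by_cases h3 : j = i
        · by_cases h4 : j = i'
          · exact absurd (h3.symm.trans h4) h.ne
          · rw [if_pos h3.symm, if_neg (fun h => h4 h.symm), if_pos h3, if_neg h4]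
        · by_cases h4 : j = i'
          · rw [if_neg (fun h => h3 h.symm), if_pos h4.symm, if_neg h3, if_pos h4]
          · rw [if_neg (fun h => h3 h.symm), if_neg (fun h => h4 h.symm), if_neg h3, if_neg h4]
      have h3 := hc j
      rw [h2]
      split_ifs at h3 ⊢ <;> omega

/-- Insert detours at the elements of `S`. -/
theorem insert_many {R : SimpleGraph ι} {u : ι} (f : ι → ι) (h : ℕ) (S : Finset ι) :
    (∀ i ∈ S, R.Adj i (f i)) → ∀ (s : ℕ), s ≤ h * S.card → ∀ (W : R.Walk u u),
    (∀ i ∈ S, i ∈ W.support) →
    ∃ W' : R.Walk u u, W'.length = W.length + 2 * s ∧ (∀ j ∈ W.support, j ∈ W'.support) ∧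
      ∀ j, cnt W' j ≤ cnt W j + (if j ∈ S then h else 0) + h * (S.filter (fun i => f i = j)).card := by
  induction S using Finset.induction_on with
  | empty =>
    intro _ s hs W _
    have : s = 0 := by simpa using hs
    subst this
    exact ⟨W, by simp, fun j hj => hj, fun j => by simp⟩
  | insert a S ha ih =>
    intro hf s hs W hW
    rw [card_insert_of_notMem ha] at hs
    have hs2 : s - min s h ≤ h * S.card := by
      rcases le_total s h with h1 | h1
      · rw [min_eq_left h1]; simp
      · rw [min_eq_right h1]
        have : h * (S.card + 1) = h * S.card + h := by ring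
        omega
    obtain ⟨W1, hl1, hsup1, hc1⟩ := ih (fun i hi => hf i (mem_insert_of_mem hi)) (s - min s h) hs2 W
      (fun i hi => hW i (mem_insert_of_mem hi))
    obtain ⟨W2, hl2, hsup2, hc2⟩ := insert_one (hf a (mem_insert_self a S)) (min s h) W1
      (hsup1 a (hW a (mem_insert_self a S)))
    refine ⟨W2, ?_, fun j hj => hsup2 j (hsup1 j hj), ?_⟩
    · rw [hl2, hl1]
      have : min s h ≤ s := min_le_left _ _
      omega
    · intro j
      have h1 := hc1 j
      have h2 := hc2 j
      have hmin : min s h ≤ h := min_le_right _ _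
      have h3 : (if j ∈ insert a S then h else 0) = (if j ∈ S then h else 0) + (if j = a then h else 0) := by
        by_cases hj : j = a
        · subst hj; simp [ha]
        · by_cases hj2 : j ∈ S <;> simp [hj, hj2]
      have h4 : ((insert a S).filter (fun i => f i = j)).card =
          (S.filter (fun i => f i = j)).card + (if j = f a then 1 else 0) := by
        rw [filter_insert]
        by_cases hj : f a = j
        · rw [if_pos hj, card_insert_of_notMem (by simp [ha]), if_pos hj.symm]
        · rw [if_neg hj, if_neg (fun h => hj h.symm)]; simp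
      rw [h3, h4, mul_add]
      have h5 : (if j = a then min s h else 0) ≤ (if j = a then h else 0) := by
        split_ifs <;> omega
      have h6 : (if j = f a then min s h else 0) ≤ h * (if j = f a then 1 else 0) := by
        split_ifs <;> omega
      omega

/-- A closed walk of even length through all of `S`. -/
theorem base_walk [Fintype ι] {R : SimpleGraph ι} (a : ι) (S : Finset ι)
    (hS : ∀ i ∈ S, R.Reachable a i) :
    ∃ W : R.Walk a a, Even W.length ∧ W.length ≤ 2 * Fintype.card ι * S.card ∧
      ∀ i ∈ S, i ∈ W.support := by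
  induction S using Finset.induction_on with
  | empty => exact ⟨SimpleGraph.Walk.nil, by simp, by simp, by simp⟩
  | insert b S hb ih =>
    obtain ⟨W, he, hl, hW⟩ := ih (fun i hi => hS i (mem_insert_of_mem hi))
    obtain ⟨p0⟩ := hS b (mem_insert_self b S)
    set p := p0.toPath with hp
    have hpl : (p : R.Walk a b).length < Fintype.card ι := p.2.length_lt
    refine ⟨W.append ((p : R.Walk a b).append (p : R.Walk a b).reverse), ?_, ?_, ?_⟩
    · rw [SimpleGraph.Walk.length_append, SimpleGraph.Walk.length_append,
        SimpleGraph.Walk.length_reverse]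
      exact he.add ⟨_, rfl⟩
    · rw [SimpleGraph.Walk.length_append, SimpleGraph.Walk.length_append,
        SimpleGraph.Walk.length_reverse, card_insert_of_notMem hb]
      have : 2 * Fintype.card ι * (S.card + 1) = 2 * Fintype.card ι * S.card + 2 * Fintype.card ι := by
        ring
      omega
    · intro i hi
      rw [SimpleGraph.Walk.mem_support_append_iff, SimpleGraph.Walk.mem_support_append_iff]
      rcases mem_insert.1 hi with rfl | hi
      · right; left; exact SimpleGraph.Walk.end_mem_support _
      · left; exact hW i hi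

variable {V : Type*}

/-- A closed walk with few visits to each cluster gives a cycle. -/
theorem walk_cyc (G : SimpleGraph V) (R : SimpleGraph ι) (C : ι → Finset V) {k q m : ℕ} {η : ℝ}
    (hdisj : ∀ i j, i ≠ j → Disjoint (C i) (C j))
    (hDP : ∀ i j, R.Adj i j → DP G k η (C i) (C j)) (hm : ∀ i, m ≤ (C i).card)
    (hη0 : 0 ≤ η) (hk : 1 ≤ k) (hkq : k ≤ q) (hηq : (k : ℝ) ≤ η * q) (hηm : ((q : ℝ) + k) ≤ η * m)
    {a : ι} (W : R.Walk a a) (h3 : 3 ≤ W.length) (hc : ∀ j, cnt W j + 2 * q ≤ m) :
    HasCyc G W.length := by
  have hmpos : 0 < m := by have := hc a; omega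
  have hCinj : ∀ i j, C i = C j → i = j := by
    intro i j hij
    by_contra hne
    have h1 := hdisj i j hne
    rw [hij, disjoint_self] at h1
    have h2 := hm j
    rw [h1] at h2
    simp at h2
    omega
  have hadjW : ∀ t, t + 1 < W.length → R.Adj (W.getVert (t + 1)) (W.getVert (t + 1 + 1)) :=
    fun t ht => W.adj_getVert_succ ht
  have hadj0 : R.Adj (W.getVert (0 + 1)) (W.getVert (W.length - 1 + 1)) := by
    have h1 := W.adj_getVert_succ (show 0 < W.length by omega)
    rw [W.getVert_zero] at h1
    have h2 : W.length - 1 + 1 = W.length := by omega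
    rw [h2, W.getVert_length]
    exact h1.symm
  refine embed G W.length h3 (fun t => C (W.getVert (t + 1))) k q η hη0 ?_ ?_ ?_ ?_ ?_ hk hkq hηq ?_
  · intro i _ j _
    by_cases h : W.getVert (i + 1) = W.getVert (j + 1)
    · left; simp only [h]
    · right; exact hdisj _ _ h
  · intro i hi
    exact hDP _ _ (hadjW i hi)
  · exact hDP _ _ hadj0
  · exact hdisj _ _ hadj0.ne
  · intro i _
    have h1 : (range W.length).filter (fun j => C (W.getVert (j + 1)) = C (W.getVert (i + 1))) =
        (range W.length).filter (fun j => W.getVert (j + 1) = W.getVert (i + 1)) := by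
      apply filter_congr
      intro t _
      exact ⟨fun h => hCinj _ _ h, fun h => by rw [h]⟩
    have h2 := card_getVert W (W.getVert (i + 1))
    have h3 := hc (W.getVert (i + 1))
    have h4 := hm (W.getVert (i + 1))
    simp only [h1]
    omega
  · intro i _
    have h1 : (m : ℝ) ≤ ((C (W.getVert (i + 1))).card : ℝ) := by exact_mod_cast hm _
    have := mul_le_mul_of_nonneg_left h1 hη0
    linarith

/-- All cycle lengths from a triangle and a large matching in the bipartite double cover. -/
theorem caseA [Fintype ι] (G : SimpleGraph V) (R : SimpleGraph ι) (C : ι → Finset V)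
    {k q m h : ℕ} {η : ℝ}
    (hdisj : ∀ i j, i ≠ j → Disjoint (C i) (C j))
    (hDP : ∀ i j, R.Adj i j → DP G k η (C i) (C j)) (hm : ∀ i, m ≤ (C i).card)
    (hη0 : 0 ≤ η) (hk : 1 ≤ k) (hkq : k ≤ q) (hηq : (k : ℝ) ≤ η * q) (hηm : ((q : ℝ) + k) ≤ η * m)
    {a b c : ι} (hab : R.Adj a b) (hbc : R.Adj b c) (hca : R.Adj c a)
    (S : Finset ι) (f : ι → ι) (hf : ∀ i ∈ S, R.Adj i (f i)) (hinj : Set.InjOn f S)
    (hS : ∀ i ∈ S, R.Reachable a i)
    (hmB : 2 * Fintype.card ι * Fintype.card ι + 4 + 2 * h + 2 * q ≤ m)
    (ℓ : ℕ) (h3 : 3 ≤ ℓ) (hℓ : ℓ ≤ 2 * h * S.card) : HasCyc G ℓ := by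
  set T : R.Walk a a := SimpleGraph.Walk.cons hab (SimpleGraph.Walk.cons hbc
    (SimpleGraph.Walk.cons hca SimpleGraph.Walk.nil)) with hT
  have hTl : T.length = 3 := rfl
  set E : R.Walk a a := SimpleGraph.Walk.cons hab (SimpleGraph.Walk.cons hab.symm
    SimpleGraph.Walk.nil) with hE
  have hEl : E.length = 2 := rfl
  obtain ⟨W0, he, hl, hW0⟩ := base_walk a S hS
  have hScard : S.card ≤ Fintype.card ι := card_le_univ S
  have hW0l : W0.length ≤ 2 * Fintype.card ι * Fintype.card ι :=
    hl.trans (Nat.mul_le_mul_left _ hScard)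
  by_cases hshort : ℓ < W0.length + 3
  · -- short cycles inside the triangle
    obtain ⟨W, hWl⟩ : ∃ W : R.Walk a a, W.length = ℓ := by
      rcases Nat.even_or_odd ℓ with hpar | hpar
      · obtain ⟨W', h1, -, -⟩ := insert_one hab ((ℓ - 2) / 2) E (SimpleGraph.Walk.start_mem_support _)
        refine ⟨W', ?_⟩
        obtain ⟨r, hr⟩ := hpar
        omega
      · obtain ⟨W', h1, -, -⟩ := insert_one hab ((ℓ - 3) / 2) T (SimpleGraph.Walk.start_mem_support _)
        refine ⟨W', ?_⟩
        obtain ⟨r, hr⟩ := hpar
        omega
    rw [← hWl]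
    refine walk_cyc G R C hdisj hDP hm hη0 hk hkq hηq hηm W (by omega) ?_
    intro j
    have := cnt_le_length W j
    omega
  · push Not at hshort
    -- the base walk with the right parity
    obtain ⟨W1, hW1S, hW1l, hW1par⟩ : ∃ W1 : R.Walk a a, (∀ i ∈ S, i ∈ W1.support) ∧
        W1.length ≤ W0.length + 3 ∧ Even (ℓ - W1.length) := by
      obtain ⟨r0, hr0⟩ := he
      rcases Nat.even_or_odd ℓ with hpar | hpar
      · refine ⟨W0, hW0, by omega, ?_⟩
        obtain ⟨r, hr⟩ := hpar
        exact ⟨r - r0, by omega⟩
      · refine ⟨W0.append T, ?_, ?_, ?_⟩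
        · intro i hi
          rw [SimpleGraph.Walk.mem_support_append_iff]
          left; exact hW0 i hi
        · rw [SimpleGraph.Walk.length_append, hTl]
        · rw [SimpleGraph.Walk.length_append, hTl]
          obtain ⟨r, hr⟩ := hpar
          exact ⟨r - r0 - 1, by omega⟩
    obtain ⟨s, hs⟩ := hW1par
    have hs2 : s ≤ h * S.card := by
      have : 2 * h * S.card = 2 * (h * S.card) := by ring
      omega
    obtain ⟨W, hWl, -, hWc⟩ := insert_many f h S hf s hs2 W1 hW1S
    have hWℓ : W.length = ℓ := by omega
    rw [← hWℓ]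
    refine walk_cyc G R C hdisj hDP hm hη0 hk hkq hηq hηm W (by omega) ?_
    intro j
    have h1 := hWc j
    have h2 := cnt_le_length W1 j
    have h4 : (S.filter (fun i => f i = j)).card ≤ 1 := by
      rw [card_le_one]
      intro x hx y hy
      rw [mem_filter] at hx hy
      exact hinj (by exact_mod_cast hx.1) (by exact_mod_cast hy.1) (hx.2.trans hy.2.symm)
    have h5 : h * (S.filter (fun i => f i = j)).card ≤ h := by
      calc h * (S.filter (fun i => f i = j)).card ≤ h * 1 := Nat.mul_le_mul_left _ h4
        _ = h := by ring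
    have h6 : (if j ∈ S then h else 0) ≤ h := by split_ifs <;> omega
    omega

end Pool.Agent.TH516.CC
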