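import Mathlib

set_option autoImplicit false

/-!
# Hall's theorem with deficiency
-/

namespace Pool.Agent.TH516.CC

open Finset Classical

variable {ι : Type*} [Fintype ι]

/-- the neighbourhood of a set -/
noncomputable def nbh (R : SimpleGraph ι) (X : Finset ι) : Finset ι :=
  univ.filter (fun j => ∃ i ∈ X, R.Adj i j)

theorem hall_def (R : SimpleGraph ι) (K : Finset ι) (D : ℕ)
    (hH : ∀ X ⊆ K, X.card ≤ (nbh R X).card + D) :
    ∃ S ⊆ K, ∃ f : ι → ι, (∀ i ∈ S, R.Adj i (f i)) ∧ Set.InjOn f S ∧ K.card ≤ S.card + D := by
  set t : K → Finset (ι ⊕ Fin D) := fun i =>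
    (univ.filter (fun j => R.Adj i j)).map Function.Embedding.inl ∪
      (univ : Finset (Fin D)).map Function.Embedding.inr with ht
  have hall : ∀ s : Finset K, s.card ≤ (s.biUnion t).card := by
    intro s
    rcases s.eq_empty_or_nonempty with rfl | ⟨i0, hi0⟩
    · simp
    · set X : Finset ι := s.map (Function.Embedding.subtype _) with hX
      have hXK : X ⊆ K := by
        intro i hi
        rw [hX, mem_map] at hi
        obtain ⟨a, _, rfl⟩ := hi
        exact a.2
      have h1 := hH X hXK
      rw [hX, card_map, ← hX] at h1
      have h2 : (nbh R X).map Function.Embedding.inl ∪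
          (univ : Finset (Fin D)).map Function.Embedding.inr ⊆ s.biUnion t := by
        intro y hy
        rw [mem_union] at hy
        rw [mem_biUnion]
        rcases hy with hy | hy
        · rw [mem_map] at hy
          obtain ⟨j, hj, rfl⟩ := hy
          unfold nbh at hj
          rw [mem_filter] at hj
          obtain ⟨_, i, hi, hij⟩ := hj
          rw [hX, mem_map] at hi
          obtain ⟨a, ha, rfl⟩ := hi
          refine ⟨a, ha, ?_⟩
          rw [ht, mem_union]
          left
          rw [mem_map]
          exact ⟨j, by rw [mem_filter]; exact ⟨mem_univ _, hij⟩, rfl⟩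
        · refine ⟨i0, hi0, ?_⟩
          rw [ht, mem_union]
          right; exact hy
      have h3 := card_le_card h2
      rw [card_union_of_disjoint, card_map, card_map, card_univ, Fintype.card_fin] at h3
      · omega
      · rw [disjoint_left]
        intro y hy1 hy2
        rw [mem_map] at hy1 hy2
        obtain ⟨a, _, rfl⟩ := hy1
        obtain ⟨b, _, hb⟩ := hy2
        simp at hb
  obtain ⟨g, hginj, hg⟩ := (Finset.all_card_le_biUnion_card_iff_exists_injective t).1 hall
  set S : Finset ι := K.filter (fun i => ∃ (h : i ∈ K) (j : ι), g ⟨i, h⟩ = Sum.inl j) with hS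
  have hSf : ∀ i, i ∈ S → ∃ (h : i ∈ K) (j : ι), g ⟨i, h⟩ = Sum.inl j := by
    intro i hi
    rw [hS, mem_filter] at hi
    exact hi.2
  choose! hK f hf using hSf
  refine ⟨S, filter_subset _ _, f, ?_, ?_, ?_⟩
  · intro i hi
    have h1 := hg ⟨i, hK i hi⟩
    rw [hf i hi, ht, mem_union] at h1
    rcases h1 with h1 | h1
    · rw [mem_map] at h1
      obtain ⟨j, hj, hj2⟩ := h1
      rw [mem_filter] at hj
      have : j = f i := Sum.inl_injective hj2
      rw [← this]; exact hj.2
    · rw [mem_map] at h1
      obtain ⟨j, _, hj2⟩ := h1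
      simp at hj2
  · intro i hi j hj hij
    have hi' : i ∈ S := by exact_mod_cast hi
    have hj' : j ∈ S := by exact_mod_cast hj
    have h1 := hf i hi'
    have h2 := hf j hj'
    rw [hij, ← h2] at h1
    have := hginj h1
    simpa using this
  · -- the other elements are sent to the dummies
    have h1 : (K \ S).card ≤ D := by
      have h2 : ∀ i : ι, i ∈ K \ S → ∃ d : Fin D, ∃ h : i ∈ K, g ⟨i, h⟩ = Sum.inr d := by
        intro i hi
        rw [mem_sdiff, hS, mem_filter] at hi
        rcases hgi : g ⟨i, hi.1⟩ with j | d
        · exact absurd ⟨hi.1, hi.1, j, hgi⟩ hi.2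
        · exact ⟨d, hi.1, hgi⟩
      rcases (K \ S).eq_empty_or_nonempty with he | ⟨i0, hi0⟩
      · rw [he]; simp
      · have : Nonempty (Fin D) := ⟨(h2 i0 hi0).choose⟩
        choose! d hdK hd using h2
        calc (K \ S).card ≤ (univ : Finset (Fin D)).card := by
              apply card_le_card_of_injOn d (fun _ _ => mem_coe.2 (mem_univ _))
              intro i hi j hj hij
              have h3 := hd i (by exact_mod_cast hi)
              have h4 := hd j (by exact_mod_cast hj)
              rw [hij, ← h4] at h3
              simpa using hginj h3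
          _ = D := by rw [card_univ, Fintype.card_fin]
    have h2 := card_sdiff_add_card K S
    have h3 : (K ∪ S).card = K.card := by
      rw [union_eq_left.2 (filter_subset _ _)]
    omega

end Pool.Agent.TH516.CC
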