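import Mathlib
import Pool.Agent.TH516.CC.Spec2

set_option autoImplicit false

/-!
# Deleting vertices of small degree
-/

namespace Pool.Agent.TH516.CC

open Finset Classical

variable {V : Type*} [Fintype V]

/-- The spanning subgraph of the edges inside `S`. -/
def rs (G : SimpleGraph V) (S : Finset V) : SimpleGraph V where
  Adj u v := G.Adj u v ∧ u ∈ S ∧ v ∈ S
  symm := ⟨fun _ _ h => ⟨h.1.symm, h.2.2, h.2.1⟩⟩
  loopless := ⟨fun _ h => G.loopless.irrefl _ h.1⟩

theorem rs_univ (G : SimpleGraph V) : rs G univ = G := by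
  ext u v; simp [rs]

theorem QF_rs_le_card (G : SimpleGraph V) (S : Finset V) (x : V → ℝ) (hx : ∀ v, 0 ≤ x v) :
    QF (rs G S) x ≤ S.card * nsq x := by
  have h1 : QF (rs G S) x ≤ (∑ u ∈ S, x u) ^ 2 := by
    rw [sq, sum_mul_sum, sum_univ_mem S]
    unfold QF
    refine sum_le_sum fun u _ => ?_
    by_cases hu : u ∈ S
    · rw [if_pos hu, sum_univ_mem S]
      refine sum_le_sum fun v _ => ?_
      have hnn : 0 ≤ x u * x v := mul_nonneg (hx u) (hx v)
      by_cases h : (rs G S).Adj u v
      · have := h.2.2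
        simp [h, this]
      · rw [if_neg h]
        split_ifs <;> linarith
    · rw [if_neg hu]
      refine (sum_eq_zero fun v _ => ?_).le
      rw [if_neg]
      exact fun h => hu h.2.1
  have h2 : (∑ u ∈ S, x u) ^ 2 ≤ S.card * ∑ u ∈ S, x u ^ 2 := sq_sum_le_card_mul_sum_sq
  have h3 : ∑ u ∈ S, x u ^ 2 ≤ nsq x :=
    sum_le_sum_of_subset_of_nonneg (subset_univ _) fun _ _ _ => sq_nonneg _
  have h4 : (0 : ℝ) ≤ S.card := Nat.cast_nonneg _
  nlinarith

theorem spec_rs_le_card [Nonempty V] (G : SimpleGraph V) (S : Finset V) :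
    specRadius (rs G S) ≤ S.card := by
  refine specRadius_le _ fun x hx h1 => ?_
  have := QF_rs_le_card G S x hx
  rw [h1] at this
  linarith

theorem AO_rs (G : SimpleGraph V) (S : Finset V) (x : V → ℝ) {v : V} (hv : v ∈ S) :
    AO (rs G S) x v = ∑ w ∈ S.filter (G.Adj v), x w := by
  unfold AO
  rw [← sum_filter]
  refine sum_congr ?_ fun _ _ => rfl
  ext w
  rw [mem_filter, mem_filter]
  constructor
  · intro h; exact ⟨h.2.2.2, h.2.1⟩
  · intro h; exact ⟨mem_univ _, h.2, hv, h.1⟩

/-- Deleting one vertex. -/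
theorem delete_one [Nonempty V] (G : SimpleGraph V) (S : Finset V) {v : V} (hv : v ∈ S) :
    ∃ t : ℝ, 0 ≤ t ∧ t ≤ 1 ∧
      specRadius (rs G S) ^ 2 * t ≤ ((S.filter (G.Adj v)).card : ℝ) ∧
      specRadius (rs G S) * (1 - 2 * t) ≤ specRadius (rs G (S.erase v)) * (1 - t) := by
  obtain ⟨x, h0, h1, h2⟩ := top (rs G S)
  set μ := specRadius (rs G S) with hμ
  refine ⟨x v ^ 2, sq_nonneg _, ?_, ?_, ?_⟩
  · rw [← h1]
    exact single_le_sum (f := fun u => x u ^ 2) (fun u _ => sq_nonneg (x u)) (mem_univ v)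
  · have h3 : μ * x v = ∑ w ∈ S.filter (G.Adj v), x w := by rw [← h2, AO_rs G S x hv]
    have h4 : (∑ w ∈ S.filter (G.Adj v), x w) ^ 2 ≤
        ((S.filter (G.Adj v)).card : ℝ) * ∑ w ∈ S.filter (G.Adj v), x w ^ 2 :=
      sq_sum_le_card_mul_sum_sq
    have h5 : ∑ w ∈ S.filter (G.Adj v), x w ^ 2 ≤ 1 := by
      rw [← h1]
      exact sum_le_sum_of_subset_of_nonneg (subset_univ _) fun _ _ _ => sq_nonneg _
    rw [← h3] at h4
    have h6 : (0 : ℝ) ≤ (S.filter (G.Adj v)).card := Nat.cast_nonneg _
    nlinarith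
  · -- test vector
    set e : V → ℝ := Pi.single v 1 with he
    have hle := QF_le (rs G (S.erase v)) (fun w => x w + (- x v) * e w)
    have hQ : QF (rs G (S.erase v)) (fun w => x w + (- x v) * e w) =
        QF (rs G S) (fun w => x w + (- x v) * e w) := by
      unfold QF
      refine sum_congr rfl fun u _ => sum_congr rfl fun w _ => ?_
      by_cases hu : u = v
      · have : x u + - x v * e u = 0 := by rw [hu]; simp [he]
        simp only [this, zero_mul, ite_self]
      · by_cases hw : w = v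
        · have : x w + - x v * e w = 0 := by rw [hw]; simp [he]
          simp only [this, mul_zero, ite_self]
        · have : (rs G (S.erase v)).Adj u w ↔ (rs G S).Adj u w := by
            simp [rs, mem_erase, hu, hw]
          simp only [this]
    have hBF : BF (rs G S) x e = μ * x v := by
      rw [BF_symm, BF_eq, sum_eq_single v]
      · simp [he, h2]
      · intro b _ hb; simp [he, Pi.single_eq_of_ne hb]
      · simp
    have hin : ∑ w, x w * e w = x v := by
      rw [sum_eq_single v]
      · simp [he]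
      · intro b _ hb; simp [he, Pi.single_eq_of_ne hb]
      · simp
    have hQe : QF (rs G S) e = 0 := by
      rw [QF_eq, sum_eq_single v]
      · have : AO (rs G S) e v = 0 := by
          unfold AO
          refine sum_eq_zero fun w _ => ?_
          by_cases hw : w = v
          · rw [hw, if_neg ((rs G S).loopless.irrefl _)]
          · simp [he, Pi.single_eq_of_ne hw]
        simp [this]
      · intro b _ hb; simp [he, Pi.single_eq_of_ne hb]
      · simp
    have hne : nsq e = 1 := by
      unfold nsq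
      rw [sum_eq_single v]
      · simp [he]
      · intro b _ hb; simp [he, Pi.single_eq_of_ne hb]
      · simp
    rw [hQ, QF_add_smul, nsq_add_smul, hBF, hin, hQe, hne, h1, QF_of_eig _ h2, h1] at hle
    nlinarith

theorem delete_num {μ μ' t s d : ℝ} (ht0 : 0 ≤ t) (hs : 100 ≤ s)
    (hμ : 49 / 100 * s ≤ μ) (hd : d ≤ 24 / 100 * s) (h1 : μ ^ 2 * t ≤ d)
    (h2 : μ * (1 - 2 * t) ≤ μ' * (1 - t)) : μ - 495 / 1000 ≤ μ' := by
  have hs0 : 0 < s := by linarith
  have hμ0 : 0 < μ := by nlinarith
  have h3 : μ * t ≤ 24 / 49 := by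
    have h4 : (49 / 100 * s) * (μ * t) ≤ 24 / 100 * s := by
      have : (49 / 100 * s) * (μ * t) ≤ μ * (μ * t) :=
        mul_le_mul_of_nonneg_right hμ (by positivity)
      nlinarith
    by_contra h5
    push Not at h5
    nlinarith
  have h4 : t ≤ 1 / 100 := by
    by_contra h5
    push Not at h5
    nlinarith
  by_contra h5
  push Not at h5
  have h6 : μ' * (1 - t) < (μ - 495 / 1000) * (1 - t) := by
    apply mul_lt_mul_of_pos_right h5; linarith
  nlinarith

/-- A subset on which the spectral radius is still large and all degrees are large. -/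
theorem exists_core [Nonempty V] (G : SimpleGraph V) (hn : 20000 ≤ Fintype.card V)
    (hμ : 499 / 1000 * (Fintype.card V : ℝ) ≤ specRadius G) :
    ∃ S : Finset V,
      specRadius G - 495 / 1000 * ((Fintype.card V : ℝ) - S.card) ≤ specRadius (rs G S) ∧
      (∀ v ∈ S, 24 / 100 * (S.card : ℝ) < ((S.filter (G.Adj v)).card : ℝ)) ∧
      100 ≤ S.card := by
  set n := Fintype.card V with hn'
  set F : Finset (Finset V) := univ.filter fun S : Finset V =>
    specRadius G - 495 / 1000 * ((n : ℝ) - S.card) ≤ specRadius (rs G S) with hF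
  have hne : F.Nonempty := by
    refine ⟨univ, ?_⟩
    rw [hF, mem_filter]
    refine ⟨mem_univ _, ?_⟩
    rw [rs_univ, card_univ, ← hn']
    linarith
  obtain ⟨S, hS, hmin⟩ := exists_min_image F Finset.card hne
  rw [hF, mem_filter] at hS
  have hSμ := hS.2
  have hle := spec_rs_le_card G S
  have hnR : (20000 : ℝ) ≤ n := by exact_mod_cast hn
  have hS100 : (100 : ℝ) ≤ S.card := by linarith
  refine ⟨S, hSμ, ?_, by exact_mod_cast hS100⟩
  intro v hv
  by_contra hlt
  push Not at hlt
  obtain ⟨t, ht0, ht1, h1, h2⟩ := delete_one G S hv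
  have h3 := delete_num ht0 hS100 (by linarith) hlt h1 h2
  have h4 : S.erase v ∈ F := by
    rw [hF, mem_filter]
    refine ⟨mem_univ _, ?_⟩
    rw [card_erase_of_mem hv, Nat.cast_sub (card_pos.2 ⟨v, hv⟩)]
    push_cast
    linarith
  have h5 := hmin _ h4
  have h6 := card_erase_lt_of_mem hv
  omega

end Pool.Agent.TH516.CC
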