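import Mathlib
import Pool.Agent.TH516.CC.Cyc

set_option autoImplicit false

/-!
# Paths in almost complete bipartite graphs
-/

namespace Pool.Agent.TH516.CC

open Finset Classical

variable {V : Type*}

theorem weave (G : SimpleGraph V) (j : ℕ) (z : ℕ → V)
    (hz : ∀ a ≤ j, ∀ b ≤ j, z a = z b → a = b) (A : ℕ → Finset V)
    (hA : ∀ i < j, j ≤ (A i).card)
    (hAadj : ∀ i < j, ∀ x ∈ A i, G.Adj (z i) x ∧ G.Adj x (z (i + 1)))
    (hAz : ∀ i < j, ∀ x ∈ A i, ∀ a ≤ j, x ≠ z a) :
    ∃ g : ℕ → V, g 0 = z 0 ∧ g (2 * j) = z j ∧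
      (∀ a ≤ 2 * j, ∀ b ≤ 2 * j, g a = g b → a = b) ∧
      (∀ a < 2 * j, G.Adj (g a) (g (a + 1))) ∧
      ∀ a ≤ 2 * j, (∃ b ≤ j, g a = z b) ∨ (∃ b < j, g a ∈ A b) := by
  have hall : ∀ s : Finset (Fin j), s.card ≤ (s.biUnion (fun i => A i)).card := by
    intro s
    rcases s.eq_empty_or_nonempty with rfl | ⟨i, hi⟩
    · simp
    · calc s.card ≤ (univ : Finset (Fin j)).card := card_le_univ s
        _ = j := by rw [card_univ, Fintype.card_fin]
        _ ≤ (A i).card := hA i i.isLt
        _ ≤ _ := card_le_card (subset_biUnion_of_mem (fun i : Fin j => A i) hi)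
  obtain ⟨x, hxinj, hx⟩ :=
    (Finset.all_card_le_biUnion_card_iff_exists_injective (fun i : Fin j => A i)).1 hall
  -- extend to ℕ
  set x' : ℕ → V := fun i => if h : i < j then x ⟨i, h⟩ else z 0 with hx'
  have hx'A : ∀ i < j, x' i ∈ A i := by
    intro i hi
    simp only [hx', dif_pos hi]
    exact hx ⟨i, hi⟩
  have hx'inj : ∀ a < j, ∀ b < j, x' a = x' b → a = b := by
    intro a ha b hb hab
    simp only [hx', dif_pos ha, dif_pos hb] at hab
    have := hxinj hab
    simpa using this
  refine ⟨fun a => if a % 2 = 0 then z (a / 2) else x' (a / 2), by simp, by simp, ?_, ?_, ?_⟩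
  · intro a ha b hb hab
    simp only at hab
    by_cases h1 : a % 2 = 0 <;> by_cases h2 : b % 2 = 0
    · rw [if_pos h1, if_pos h2] at hab
      have := hz (a / 2) (by omega) (b / 2) (by omega) hab
      omega
    · rw [if_pos h1, if_neg h2] at hab
      exact absurd hab.symm (hAz (b / 2) (by omega) _ (hx'A _ (by omega)) (a / 2) (by omega))
    · rw [if_neg h1, if_pos h2] at hab
      exact absurd hab (hAz (a / 2) (by omega) _ (hx'A _ (by omega)) (b / 2) (by omega))
    · rw [if_neg h1, if_neg h2] at hab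
      have := hx'inj (a / 2) (by omega) (b / 2) (by omega) hab
      omega
  · intro a ha
    simp only
    by_cases h1 : a % 2 = 0
    · rw [if_pos h1, if_neg (by omega)]
      have : (a + 1) / 2 = a / 2 := by omega
      rw [this]
      exact (hAadj (a / 2) (by omega) _ (hx'A _ (by omega))).1
    · rw [if_neg h1, if_pos (by omega)]
      have : (a + 1) / 2 = a / 2 + 1 := by omega
      rw [this]
      exact (hAadj (a / 2) (by omega) _ (hx'A _ (by omega))).2
  · intro a ha
    simp only
    by_cases h1 : a % 2 = 0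
    · left; exact ⟨a / 2, by omega, by rw [if_pos h1]⟩
    · right; exact ⟨a / 2, by omega, by rw [if_neg h1]; exact hx'A _ (by omega)⟩

theorem link (G : SimpleGraph V) (X1 Y1 F : Finset V) (hXY : Disjoint X1 Y1) {M : ℕ}
    (hM : ∀ y ∈ Y1, ∀ y' ∈ Y1, M ≤ (X1.filter (fun x => G.Adj y x ∧ G.Adj x y')).card)
    {y y' : V} (hy : y ∈ Y1) (hy' : y' ∈ Y1) (hne : y ≠ y') (hyF : y ∉ F) (hy'F : y' ∉ F)
    {j : ℕ} (hj : 1 ≤ j) (hjM : j + F.card ≤ M) (hjY : j + 2 + F.card ≤ Y1.card) :
    ∃ g : ℕ → V, g 0 = y ∧ g (2 * j) = y' ∧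
      (∀ a ≤ 2 * j, ∀ b ≤ 2 * j, g a = g b → a = b) ∧
      (∀ a < 2 * j, G.Adj (g a) (g (a + 1))) ∧ ∀ a ≤ 2 * j, g a ∉ F := by
  set W : Finset V := ((Y1.erase y).erase y') \ F with hW
  have hWc : j ≤ W.card := by
    have h1 := Finset.le_card_sdiff F ((Y1.erase y).erase y')
    rw [← hW, card_erase_of_mem (mem_erase.2 ⟨hne.symm, hy'⟩), card_erase_of_mem hy] at h1
    omega
  have hWm : ∀ w ∈ W, w ∈ Y1 ∧ w ≠ y ∧ w ≠ y' ∧ w ∉ F := by
    intro w hw
    rw [hW, mem_sdiff, mem_erase, mem_erase] at hw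
    exact ⟨hw.1.2.2, hw.1.2.1, hw.1.1, hw.2⟩
  obtain ⟨e⟩ : Nonempty (Fin j ↪ W) := by
    apply Function.Embedding.nonempty_of_card_le
    rw [Fintype.card_fin, Fintype.card_coe]
    exact hWc
  set z : ℕ → V := fun i => if i = 0 then y else if h : i < j then (e ⟨i, h⟩ : V) else y' with hz
  have heW : ∀ i : Fin j, (e i : V) ∈ Y1 ∧ (e i : V) ≠ y ∧ (e i : V) ≠ y' ∧ (e i : V) ∉ F := by
    intro i
    exact hWm _ (e i).2
  have hz0 : z 0 = y := by simp [hz]
  have hzj : z j = y' := by
    simp only [hz]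
    rw [if_neg (by omega), dif_neg (by omega)]
  have hzmid : ∀ i, 0 < i → ∀ h : i < j, z i = (e ⟨i, h⟩ : V) := by
    intro i hi h
    simp only [hz]
    rw [if_neg (by omega), dif_pos h]
  have hzY : ∀ i ≤ j, z i ∈ Y1 ∧ z i ∉ F := by
    intro i hi
    rcases Nat.eq_zero_or_pos i with h0 | h0
    · rw [h0, hz0]; exact ⟨hy, hyF⟩
    · rcases Nat.lt_or_ge i j with h | h
      · rw [hzmid i h0 h]; exact ⟨(heW _).1, (heW _).2.2.2⟩
      · have : i = j := by omega
        rw [this, hzj]; exact ⟨hy', hy'F⟩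
  have hzinj : ∀ a ≤ j, ∀ b ≤ j, z a = z b → a = b := by
    intro a ha b hb hab
    rcases Nat.eq_zero_or_pos a with a0 | a0 <;> rcases Nat.eq_zero_or_pos b with b0 | b0
    · omega
    · rw [a0, hz0] at hab
      rcases Nat.lt_or_ge b j with h | h
      · rw [hzmid b b0 h] at hab; exact absurd hab.symm (heW _).2.1
      · have : b = j := by omega
        rw [this, hzj] at hab; exact absurd hab hne
    · rw [b0, hz0] at hab
      rcases Nat.lt_or_ge a j with h | h
      · rw [hzmid a a0 h] at hab; exact absurd hab (heW _).2.1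
      · have : a = j := by omega
        rw [this, hzj] at hab; exact absurd hab.symm hne
    · rcases Nat.lt_or_ge a j with h | h <;> rcases Nat.lt_or_ge b j with h' | h'
      · rw [hzmid a a0 h, hzmid b b0 h'] at hab
        have := e.injective (Subtype.ext hab)
        simpa using this
      · have : b = j := by omega
        rw [this, hzj, hzmid a a0 h] at hab; exact absurd hab (heW _).2.2.1
      · have : a = j := by omega
        rw [this, hzj, hzmid b b0 h'] at hab; exact absurd hab.symm (heW _).2.2.1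
      · omega
  set A : ℕ → Finset V := fun i =>
    (X1.filter (fun x => G.Adj (z i) x ∧ G.Adj x (z (i + 1)))) \ F with hA
  obtain ⟨g, g0, gj, ginj, gadj, gmem⟩ := weave G j z hzinj A
    (by
      intro i hi
      have h1 := hM (z i) (hzY i hi.le).1 (z (i + 1)) (hzY (i + 1) hi).1
      have h2 := Finset.le_card_sdiff F (X1.filter (fun x => G.Adj (z i) x ∧ G.Adj x (z (i + 1))))
      simp only [hA]
      omega)
    (by
      intro i _ x hx
      simp only [hA] at hx
      rw [mem_sdiff, mem_filter] at hx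
      exact hx.1.2)
    (by
      intro i _ x hx a ha hxa
      simp only [hA] at hx
      rw [mem_sdiff, mem_filter] at hx
      exact disjoint_left.1 hXY hx.1.1 (hxa ▸ (hzY a ha).1))
  refine ⟨g, g0.trans hz0, gj.trans hzj, ginj, gadj, ?_⟩
  intro a ha
  rcases gmem a ha with ⟨b, hb, h⟩ | ⟨b, hb, h⟩
  · rw [h]; exact (hzY b hb).2
  · simp only [hA] at h
    exact (mem_sdiff.1 h).2

theorem cyc_one (G : SimpleGraph V) {g : ℕ → V} {u : V} {j : ℕ} (hj : 1 ≤ j)
    (ginj : ∀ a ≤ 2 * j, ∀ b ≤ 2 * j, g a = g b → a = b)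
    (gadj : ∀ a < 2 * j, G.Adj (g a) (g (a + 1))) (gu : ∀ a ≤ 2 * j, g a ≠ u)
    (h1 : G.Adj u (g 0)) (h2 : G.Adj (g (2 * j)) u) : HasCyc G (2 * j + 2) := by
  refine ⟨fun a => if a = 0 then u else g (a - 1), ?_, ?_, ?_⟩
  · intro a ha b hb hab
    simp only at hab
    by_cases a0 : a = 0 <;> by_cases b0 : b = 0
    · omega
    · rw [if_pos a0, if_neg b0] at hab
      exact absurd hab.symm (gu _ (by omega))
    · rw [if_neg a0, if_pos b0] at hab
      exact absurd hab (gu _ (by omega))
    · rw [if_neg a0, if_neg b0] at hab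
      have := ginj _ (by omega) _ (by omega) hab
      omega
  · intro a ha
    simp only
    by_cases a0 : a = 0
    · rw [if_pos a0, if_neg (by omega), a0]; exact h1
    · rw [if_neg a0, if_neg (by omega)]
      have := gadj (a - 1) (by omega)
      have h3 : a - 1 + 1 = a + 1 - 1 := by omega
      rw [h3] at this
      exact this
  · simp only [if_true]
    rw [if_neg (by omega)]
    have h3 : 2 * j + 2 - 1 - 1 = 2 * j := by omega
    rw [h3]; exact h2

theorem cyc_two (G : SimpleGraph V) {g : ℕ → V} {u v : V} {j : ℕ} (hj : 1 ≤ j)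
    (ginj : ∀ a ≤ 2 * j, ∀ b ≤ 2 * j, g a = g b → a = b)
    (gadj : ∀ a < 2 * j, G.Adj (g a) (g (a + 1))) (gu : ∀ a ≤ 2 * j, g a ≠ u)
    (gv : ∀ a ≤ 2 * j, g a ≠ v) (h0 : G.Adj v u)
    (h1 : G.Adj u (g 0)) (h2 : G.Adj (g (2 * j)) v) : HasCyc G (2 * j + 3) := by
  refine ⟨fun a => if a = 0 then u else if a = 2 * j + 2 then v else g (a - 1), ?_, ?_, ?_⟩
  · intro a ha b hb hab
    simp only at hab
    by_cases a0 : a = 0
    · by_cases b0 : b = 0
      · omega
      · rw [if_pos a0, if_neg b0] at hab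
        by_cases b1 : b = 2 * j + 2
        · rw [if_pos b1] at hab; exact absurd hab.symm h0.ne
        · rw [if_neg b1] at hab; exact absurd hab.symm (gu _ (by omega))
    · rw [if_neg a0] at hab
      by_cases b0 : b = 0
      · rw [if_pos b0] at hab
        by_cases a1 : a = 2 * j + 2
        · rw [if_pos a1] at hab; exact absurd hab h0.ne
        · rw [if_neg a1] at hab; exact absurd hab (gu _ (by omega))
      · rw [if_neg b0] at hab
        by_cases a1 : a = 2 * j + 2
        · by_cases b1 : b = 2 * j + 2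
          · omega
          · rw [if_pos a1, if_neg b1] at hab; exact absurd hab.symm (gv _ (by omega))
        · by_cases b1 : b = 2 * j + 2
          · rw [if_neg a1, if_pos b1] at hab; exact absurd hab (gv _ (by omega))
          · rw [if_neg a1, if_neg b1] at hab
            have := ginj _ (by omega) _ (by omega) hab
            omega
  · intro a ha
    simp only
    by_cases a0 : a = 0
    · rw [if_pos a0, if_neg (by omega), if_neg (by omega), a0]; exact h1
    · rw [if_neg a0, if_neg (by omega), if_neg (by omega)]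
      by_cases a1 : a + 1 = 2 * j + 2
      · rw [if_pos a1]
        have h3 : a - 1 = 2 * j := by omega
        rw [h3]; exact h2
      · rw [if_neg a1]
        have := gadj (a - 1) (by omega)
        have h3 : a - 1 + 1 = a + 1 - 1 := by omega
        rw [h3] at this
        exact this
  · simp only [if_true]
    rw [if_neg (by omega), if_pos (by omega)]
    exact h0

end Pool.Agent.TH516.CC
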