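import Mathlib
import Pool.Agent.TH516.CC.Core
import Pool.Agent.TH516.CC.Link

set_option autoImplicit false

/-!
# Graphs close to the balanced complete bipartite graph
-/

namespace Pool.Agent.TH516.CC

open Finset Classical

section
variable {V : Type*}

theorem odd_from_edge (G : SimpleGraph V) (X1 Y1 : Finset V) (hXY : Disjoint X1 Y1) {M : ℕ}
    (hM : ∀ y ∈ Y1, ∀ y' ∈ Y1, M ≤ (X1.filter (fun x => G.Adj y x ∧ G.Adj x y')).card)
    {u v : V} (huv : G.Adj u v) (hu : 3 ≤ (Y1.filter (G.Adj u)).card)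
    (hv : 3 ≤ (Y1.filter (G.Adj v)).card) {j : ℕ} (hj : 1 ≤ j) (hjM : j + 2 ≤ M)
    (hjY : j + 4 ≤ Y1.card) : HasCyc G (2 * j + 3) := by
  obtain ⟨y, hy⟩ : ((Y1.filter (G.Adj u)).erase v).Nonempty := by
    rw [← card_pos]
    have := pred_card_le_card_erase (s := Y1.filter (G.Adj u)) (a := v)
    omega
  rw [mem_erase, mem_filter] at hy
  obtain ⟨y', hy'⟩ : (((Y1.filter (G.Adj v)).erase u).erase y).Nonempty := by
    rw [← card_pos]
    have h1 := pred_card_le_card_erase (s := Y1.filter (G.Adj v)) (a := u)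
    have h2 := pred_card_le_card_erase (s := (Y1.filter (G.Adj v)).erase u) (a := y)
    omega
  rw [mem_erase, mem_erase, mem_filter] at hy'
  have hF : ({u, v} : Finset V).card = 2 := card_pair huv.ne
  obtain ⟨g, g0, gj, ginj, gadj, gF⟩ := link G X1 Y1 {u, v} hXY hM (y := y) (y' := y')
    hy.2.1 hy'.2.2.1 hy'.1.symm
    (by rw [mem_insert, mem_singleton]; push Not; exact ⟨hy.2.2.ne', hy.1⟩)
    (by rw [mem_insert, mem_singleton]; push Not; exact ⟨hy'.2.1, hy'.2.2.2.ne'⟩)
    hj (by rw [hF]; exact hjM) (by rw [hF]; omega)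
  refine cyc_two G hj ginj gadj (u := u) (v := v) ?_ ?_ huv.symm ?_ ?_
  · intro a ha h; exact gF a ha (by rw [h]; simp)
  · intro a ha h; exact gF a ha (by rw [h]; simp)
  · rw [g0]; exact hy.2.2
  · rw [gj]; exact hy'.2.2.2.symm

theorem even_from_vertex (G : SimpleGraph V) (X1 Y1 : Finset V) (hXY : Disjoint X1 Y1) {M : ℕ}
    (hM : ∀ y ∈ Y1, ∀ y' ∈ Y1, M ≤ (X1.filter (fun x => G.Adj y x ∧ G.Adj x y')).card)
    {u : V} (hu : 2 ≤ (Y1.filter (G.Adj u)).card) {j : ℕ} (hj : 1 ≤ j) (hjM : j + 1 ≤ M)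
    (hjY : j + 3 ≤ Y1.card) : HasCyc G (2 * j + 2) := by
  obtain ⟨y, hy, y', hy', hne⟩ := one_lt_card.1 (show 1 < (Y1.filter (G.Adj u)).card by omega)
  rw [mem_filter] at hy hy'
  obtain ⟨g, g0, gj, ginj, gadj, gF⟩ := link G X1 Y1 {u} hXY hM (y := y) (y' := y')
    hy.1 hy'.1 hne (by rw [mem_singleton]; exact hy.2.ne') (by rw [mem_singleton]; exact hy'.2.ne')
    hj (by rw [card_singleton]; exact hjM) (by rw [card_singleton]; omega)
  refine cyc_one G hj ginj gadj (u := u) ?_ ?_ ?_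
  · intro a ha h; exact gF a ha (by rw [h]; simp)
  · rw [g0]; exact hy.2
  · rw [gj]; exact hy'.2.symm

theorem bad_count (X Y : Finset V) (r : V → V → Prop) [DecidableRel r] {τ : ℝ} :
    ((X.filter (fun x => τ < ((Y.filter (fun y => r x y)).card : ℝ))).card : ℝ) * τ ≤
      (((X ×ˢ Y).filter (fun p => r p.1 p.2)).card : ℝ) := by
  have h1 : ((X ×ˢ Y).filter (fun p => r p.1 p.2)).card =
      ∑ x ∈ X, (Y.filter (fun y => r x y)).card := by
    rw [card_filter, sum_product]
    exact sum_congr rfl fun x _ => by rw [card_filter]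
  rw [h1]
  push_cast
  calc ((X.filter (fun x => τ < ((Y.filter (fun y => r x y)).card : ℝ))).card : ℝ) * τ
      = ∑ x ∈ X.filter (fun x => τ < ((Y.filter (fun y => r x y)).card : ℝ)), τ := by
        rw [sum_const, nsmul_eq_mul]
    _ ≤ ∑ x ∈ X.filter (fun x => τ < ((Y.filter (fun y => r x y)).card : ℝ)),
          ((Y.filter (fun y => r x y)).card : ℝ) :=
        sum_le_sum fun x hx => (mem_filter.1 hx).2.le
    _ ≤ ∑ x ∈ X, ((Y.filter (fun y => r x y)).card : ℝ) :=
        sum_le_sum_of_subset_of_nonneg (filter_subset _ _) fun _ _ _ => Nat.cast_nonneg _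

/-- two vertices with few non-neighbours have many common neighbours -/
theorem common (G : SimpleGraph V) (X X1 : Finset V) (hsub : X1 ⊆ X) {y y' : V} {τ : ℝ}
    (h1 : ((X.filter (fun x => ¬ G.Adj y x)).card : ℝ) ≤ τ)
    (h2 : ((X.filter (fun x => ¬ G.Adj y' x)).card : ℝ) ≤ τ) :
    (X1.card : ℝ) - 2 * τ ≤ ((X1.filter (fun x => G.Adj y x ∧ G.Adj x y')).card : ℝ) := by
  have hs : X1 ⊆ X1.filter (fun x => G.Adj y x ∧ G.Adj x y') ∪
      (X.filter (fun x => ¬ G.Adj y x) ∪ X.filter (fun x => ¬ G.Adj y' x)) := by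
    intro x hx
    rw [mem_union, mem_union, mem_filter, mem_filter, mem_filter]
    by_cases h3 : G.Adj y x
    · by_cases h4 : G.Adj y' x
      · left; exact ⟨hx, h3, h4.symm⟩
      · right; right; exact ⟨hsub hx, h4⟩
    · right; left; exact ⟨hsub hx, h3⟩
  have h3 := card_le_card hs
  have h4 := card_union_le (X1.filter (fun x => G.Adj y x ∧ G.Adj x y'))
    (X.filter (fun x => ¬ G.Adj y x) ∪ X.filter (fun x => ¬ G.Adj y' x))
  have h5 := card_union_le (X.filter (fun x => ¬ G.Adj y x)) (X.filter (fun x => ¬ G.Adj y' x))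
  have h6 : X1.card ≤ (X1.filter (fun x => G.Adj y x ∧ G.Adj x y')).card +
      ((X.filter (fun x => ¬ G.Adj y x)).card + (X.filter (fun x => ¬ G.Adj y' x)).card) := by
    omega
  have h7 : (X1.card : ℝ) ≤ ((X1.filter (fun x => G.Adj y x ∧ G.Adj x y')).card : ℝ) +
      (((X.filter (fun x => ¬ G.Adj y x)).card : ℝ) +
        ((X.filter (fun x => ¬ G.Adj y' x)).card : ℝ)) := by
    exact_mod_cast h6
  linarith

end

theorem sqrt_floor_ge {N : ℕ} (hN : 2 ≤ N) :
    (N : ℝ) / 2 - 1 / N ≤ Real.sqrt ((N ^ 2 / 4 : ℕ) : ℝ) := by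
  have hNR : (2 : ℝ) ≤ N := by exact_mod_cast hN
  have hpos : (0 : ℝ) < N := by linarith
  apply Real.le_sqrt_of_sq_le
  have h1 : N ^ 2 < 4 * (N ^ 2 / 4) + 4 := by omega
  have h2 : ((N ^ 2 : ℕ) : ℝ) ≤ ((4 * (N ^ 2 / 4) + 3 : ℕ) : ℝ) := by
    have : N ^ 2 ≤ 4 * (N ^ 2 / 4) + 3 := by omega
    exact_mod_cast this
  rw [Nat.cast_add, Nat.cast_mul] at h2
  push_cast at h2
  have h3 : ((N : ℝ) / 2 - 1 / N) ^ 2 = (N : ℝ) ^ 2 / 4 - 1 + 1 / (N : ℝ) ^ 2 := by
    field_simp
    ring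
  have h4 : 1 / (N : ℝ) ^ 2 ≤ 1 / 4 := by
    apply one_div_le_one_div_of_le (by norm_num)
    nlinarith
  rw [h3]
  linarith

theorem sqrt_mul_le {a b : ℝ} (ha : 0 ≤ a) (hb : 0 ≤ b) : Real.sqrt (a * b) ≤ (a + b) / 2 := by
  apply Real.sqrt_le_iff.2
  constructor
  · positivity
  · nlinarith [sq_nonneg (a - b)]

variable {V : Type*} [Fintype V]

/-- nonadjacent pairs in `X × Y` -/
noncomputable def missP (G : SimpleGraph V) (X Y : Finset V) : Finset (V × V) :=
  (X ×ˢ Y).filter (fun p => ¬ G.Adj p.1 p.2)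

/-- adjacent ordered pairs that do not go between `X` and `Y` -/
noncomputable def extraP (G : SimpleGraph V) (X Y : Finset V) : Finset (V × V) :=
  univ.filter (fun p : V × V => G.Adj p.1 p.2 ∧ ¬ ((p.1 ∈ X ∧ p.2 ∈ Y) ∨ (p.1 ∈ Y ∧ p.2 ∈ X)))

theorem mem_missP {G : SimpleGraph V} {X Y : Finset V} {p : V × V} :
    p ∈ missP G X Y ↔ (p.1 ∈ X ∧ p.2 ∈ Y) ∧ ¬ G.Adj p.1 p.2 := by
  unfold missP; rw [mem_filter, mem_product]

theorem mem_extraP {G : SimpleGraph V} {X Y : Finset V} {p : V × V} :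
    p ∈ extraP G X Y ↔
      G.Adj p.1 p.2 ∧ ¬ ((p.1 ∈ X ∧ p.2 ∈ Y) ∨ (p.1 ∈ Y ∧ p.2 ∈ X)) := by
  unfold extraP; rw [mem_filter]; simp only [mem_univ, true_and]

theorem caseB [Nonempty V] (G : SimpleGraph V) (X Y : Finset V) (hXY : Disjoint X Y) {n : ℝ}
    (hn : n = Fintype.card V) (hbig : 1000000 ≤ n)
    (hX : 48 / 100 * n ≤ X.card) (hY : 48 / 100 * n ≤ Y.card)
    (hXYn : n - X.card - Y.card ≤ n / 1000)
    (hmiss : ((missP G X Y).card : ℝ) ≤ n ^ 2 / 10 ^ 8)
    (hextra : ((extraP G X Y).card : ℝ) ≤ n ^ 2 / 10 ^ 8)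
    (hlam : Real.sqrt ((Fintype.card V ^ 2 / 4 : ℕ) : ℝ) < specRadius G)
    (ℓ : ℕ) (h3 : 3 ≤ ℓ) (hℓ : (ℓ : ℝ) ≤ 2 / 5 * n) : HasCyc G ℓ := by
  have hn0 : 0 < n := by linarith
  -- bad vertices
  set BX := X.filter (fun x => n / 1000 < ((Y.filter (fun y => ¬ G.Adj x y)).card : ℝ)) with hBX
  set BY := Y.filter (fun y => n / 1000 < ((X.filter (fun x => ¬ G.Adj y x)).card : ℝ)) with hBY
  have hBXc : (BX.card : ℝ) ≤ n / 10 ^ 5 := by
    have h1 := bad_count X Y (fun x y => ¬ G.Adj x y) (τ := n / 1000)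
    rw [← hBX] at h1
    unfold missP at hmiss
    have h2 : (BX.card : ℝ) * (n / 1000) ≤ (n / 10 ^ 5) * (n / 1000) := by
      refine (h1.trans hmiss).trans (le_of_eq ?_)
      ring
    exact le_of_mul_le_mul_right h2 (by positivity)
  have hBYc : (BY.card : ℝ) ≤ n / 10 ^ 5 := by
    have h1 := bad_count Y X (fun y x => ¬ G.Adj y x) (τ := n / 1000)
    rw [← hBY] at h1
    have h0 : ((Y ×ˢ X).filter (fun p => ¬ G.Adj p.1 p.2)).card =
        ((X ×ˢ Y).filter (fun p => ¬ G.Adj p.1 p.2)).card := by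
      rw [card_filter, card_filter, sum_product, sum_product, sum_comm]
      refine sum_congr rfl fun x _ => sum_congr rfl fun y _ => ?_
      simp only [G.adj_comm y x]
    rw [h0] at h1
    unfold missP at hmiss
    have h2 : (BY.card : ℝ) * (n / 1000) ≤ (n / 10 ^ 5) * (n / 1000) := by
      refine (h1.trans hmiss).trans (le_of_eq ?_)
      ring
    exact le_of_mul_le_mul_right h2 (by positivity)
  set X1 := X \ BX with hX1
  set Y1 := Y \ BY with hY1
  have hX1c : 47 / 100 * n ≤ X1.card := by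
    have h1 := Finset.le_card_sdiff BX X
    have h2 : (X.card : ℝ) ≤ (X1.card : ℝ) + BX.card := by
      have : X.card ≤ X1.card + BX.card := by rw [← hX1] at h1; omega
      exact_mod_cast this
    have h4 : n / 10 ^ 5 ≤ n / 100 := by
      apply div_le_div_of_nonneg_left hn0.le <;> norm_num
    linarith
  have hY1c : 47 / 100 * n ≤ Y1.card := by
    have h1 := Finset.le_card_sdiff BY Y
    have h2 : (Y.card : ℝ) ≤ (Y1.card : ℝ) + BY.card := by
      have : Y.card ≤ Y1.card + BY.card := by rw [← hY1] at h1; omega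
      exact_mod_cast this
    have h4 : n / 10 ^ 5 ≤ n / 100 := by
      apply div_le_div_of_nonneg_left hn0.le <;> norm_num
    linarith
  have hXY1 : Disjoint X1 Y1 := (hXY.mono_left sdiff_subset).mono_right sdiff_subset
  have hgoodX : ∀ x ∈ X1, ((Y.filter (fun y => ¬ G.Adj x y)).card : ℝ) ≤ n / 1000 := by
    intro x hx
    rw [hX1, mem_sdiff, hBX, mem_filter] at hx
    by_contra h
    push Not at h
    exact hx.2 ⟨hx.1, h⟩
  have hgoodY : ∀ y ∈ Y1, ((X.filter (fun x => ¬ G.Adj y x)).card : ℝ) ≤ n / 1000 := by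
    intro x hx
    rw [hY1, mem_sdiff, hBY, mem_filter] at hx
    by_contra h
    push Not at h
    exact hx.2 ⟨hx.1, h⟩
  set M : ℕ := ⌊9 / 20 * n⌋₊ with hM
  have hMle : (M : ℝ) ≤ 9 / 20 * n := Nat.floor_le (by positivity)
  have hMge : 9 / 20 * n - 1 ≤ (M : ℝ) := by
    have := Nat.lt_floor_add_one (9 / 20 * n)
    rw [← hM] at this
    linarith
  have hMY : ∀ y ∈ Y1, ∀ y' ∈ Y1, M ≤ (X1.filter (fun x => G.Adj y x ∧ G.Adj x y')).card := by
    intro y hy y' hy'
    have h1 := common G X X1 sdiff_subset (hgoodY y hy) (hgoodY y' hy')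
    have h2 : (M : ℝ) ≤ ((X1.filter (fun x => G.Adj y x ∧ G.Adj x y')).card : ℝ) := by linarith
    exact_mod_cast h2
  have hMX : ∀ y ∈ X1, ∀ y' ∈ X1, M ≤ (Y1.filter (fun x => G.Adj y x ∧ G.Adj x y')).card := by
    intro y hy y' hy'
    have h1 := common G Y Y1 sdiff_subset (hgoodX y hy) (hgoodX y' hy')
    have h2 : (M : ℝ) ≤ ((Y1.filter (fun x => G.Adj y x ∧ G.Adj x y')).card : ℝ) := by linarith
    exact_mod_cast h2
  have hXn : M ≤ X1.card := by
    have : (M : ℝ) ≤ X1.card := by linarith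
    exact_mod_cast this
  have hYn : M ≤ Y1.card := by
    have : (M : ℝ) ≤ Y1.card := by linarith
    exact_mod_cast this
  have hℓM : ℓ + 10 ≤ M := by
    have : ((ℓ + 10 : ℕ) : ℝ) ≤ M := by push_cast; linarith
    exact_mod_cast this
  -- small and even lengths
  rcases Nat.lt_or_ge ℓ 4 with hsm | h4
  · have : ℓ = 3 := by omega
    rw [this]
    exact hasCyc_three hlam
  rcases Nat.even_or_odd ℓ with hpar | hpar
  · obtain ⟨r, hr⟩ := hpar
    obtain ⟨u, hu⟩ : X1.Nonempty := by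
      rw [← card_pos]; omega
    have hu2 : 2 ≤ (Y1.filter (G.Adj u)).card := by
      have h1 := hMX u hu u hu
      have h2 : (Y1.filter (fun x => G.Adj u x ∧ G.Adj x u)).card ≤ (Y1.filter (G.Adj u)).card := by
        apply card_le_card
        intro x hx
        rw [mem_filter] at hx ⊢
        exact ⟨hx.1, hx.2.1⟩
      omega
    have := even_from_vertex G X1 Y1 hXY1 hMY hu2 (j := r - 1) (by omega) (by omega) (by omega)
    have h5 : 2 * (r - 1) + 2 = ℓ := by omega
    rwa [h5] at this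
  -- odd lengths
  obtain ⟨r, hr⟩ := hpar
  have hfin : ∀ u v, G.Adj u v →
      ((3 ≤ (Y1.filter (G.Adj u)).card ∧ 3 ≤ (Y1.filter (G.Adj v)).card) ∨
        (3 ≤ (X1.filter (G.Adj u)).card ∧ 3 ≤ (X1.filter (G.Adj v)).card)) → HasCyc G ℓ := by
    intro u v huv h
    have h5 : 2 * (r - 1) + 3 = ℓ := by omega
    rcases h with h | h
    · have := odd_from_edge G X1 Y1 hXY1 hMY huv h.1 h.2 (j := r - 1) (by omega) (by omega)
        (by omega)
      rwa [h5] at this
    · have := odd_from_edge G Y1 X1 hXY1.symm hMX huv h.1 h.2 (j := r - 1) (by omega) (by omega)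
        (by omega)
      rwa [h5] at this
  by_contra hno
  -- the core
  have hcard20 : 20000 ≤ Fintype.card V := by
    have : (20000 : ℝ) ≤ (Fintype.card V : ℝ) := by rw [← hn]; linarith
    exact_mod_cast this
  have hsq := sqrt_floor_ge (N := Fintype.card V) (by omega)
  rw [← hn] at hsq
  have hninv : 1 / n ≤ 1 / 1000000 := one_div_le_one_div_of_le (by norm_num) hbig
  obtain ⟨S, hS1, hS2, hS3⟩ := exists_core G hcard20 (by rw [← hn]; linarith)
  rw [← hn] at hS1
  have hSn : (S.card : ℝ) ≤ n := by rw [hn]; exact_mod_cast card_le_univ S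
  -- upper bound for the spectral radius of the core
  have hup : specRadius (rs G S) ≤ (S.card : ℝ) / 2 + n / 10 ^ 4 := by
    set G' : SimpleGraph V :=
      { Adj := fun u v => (rs G S).Adj u v ∧ ((u ∈ X ∧ v ∈ Y) ∨ (u ∈ Y ∧ v ∈ X))
        symm := ⟨fun u v h => ⟨h.1.symm, by tauto⟩⟩
        loopless := ⟨fun u h => (rs G S).loopless.irrefl _ h.1⟩ } with hG'
    have hle : G' ≤ rs G S := fun u v h => h.1
    refine specRadius_le _ fun x hx hx1 => ?_
    have h1 := QF_loss hle x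
    have h2 : ((dpairs (rs G S) G').card : ℝ) ≤ (n / 10 ^ 4) ^ 2 := by
      have h5 : (dpairs (rs G S) G').card ≤ (extraP G X Y).card := by
        apply card_le_card
        intro p hp
        rw [mem_dpairs] at hp
        rw [mem_extraP]
        exact ⟨hp.1.1, fun h => hp.2 ⟨hp.1, h⟩⟩
      have h6 : ((dpairs (rs G S) G').card : ℝ) ≤ ((extraP G X Y).card : ℝ) := by exact_mod_cast h5
      refine (h6.trans hextra).trans (le_of_eq ?_)
      ring
    have h4 : Real.sqrt ((dpairs (rs G S) G').card : ℝ) ≤ n / 10 ^ 4 := by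
      rw [← Real.sqrt_sq (show 0 ≤ n / 10 ^ 4 by positivity)]
      exact Real.sqrt_le_sqrt h2
    have h5 := QF_bip (G := G') (X ∩ S) (Y ∩ S) (hXY.mono inter_subset_left inter_subset_left)
      (by
        intro u v huv
        rcases huv.2 with h | h
        · left; exact ⟨mem_inter.2 ⟨h.1, huv.1.2.1⟩, mem_inter.2 ⟨h.2, huv.1.2.2⟩⟩
        · right; exact ⟨mem_inter.2 ⟨h.1, huv.1.2.1⟩, mem_inter.2 ⟨h.2, huv.1.2.2⟩⟩) x hx
    have h6 := sqrt_mul_le (a := ((X ∩ S).card : ℝ)) (b := ((Y ∩ S).card : ℝ))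
      (Nat.cast_nonneg _) (Nat.cast_nonneg _)
    have h7 : (((X ∩ S).card : ℝ) + (Y ∩ S).card) ≤ S.card := by
      rw [← Nat.cast_add, ← card_union_of_disjoint (hXY.mono inter_subset_left inter_subset_left)]
      exact_mod_cast card_le_card (union_subset inter_subset_right inter_subset_right)
    rw [hx1, mul_one] at h1 h5
    linarith
  have hSbig : 97 / 100 * n ≤ S.card := by
    have h5 : n / 10 ^ 4 = n * (1 / 10 ^ 4) := by ring
    rw [h5] at hup
    norm_num at hup
    linarith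
  -- the partition of the core
  set Xs := S.filter (fun w => n / 10 ≤ ((Y1.filter (G.Adj w)).card : ℝ)) with hXs
  set Ys := S \ Xs with hYs
  have hYsdeg : ∀ w ∈ Ys, n / 10 ≤ ((X1.filter (G.Adj w)).card : ℝ) := by
    intro w hw
    rw [hYs, mem_sdiff, hXs, mem_filter] at hw
    have hlt : ((Y1.filter (G.Adj w)).card : ℝ) < n / 10 := by
      by_contra h
      push Not at h
      exact hw.2 ⟨hw.1, h⟩
    have h1 := hS2 w hw.1
    -- neighbours are in X1, Y1 or among the few others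
    have hsub : S.filter (G.Adj w) ⊆ X1.filter (G.Adj w) ∪ Y1.filter (G.Adj w) ∪
        (univ \ (X ∪ Y)) ∪ BX ∪ BY := by
      intro z hz
      rw [mem_filter] at hz
      simp only [mem_union, mem_filter, mem_sdiff, mem_univ, true_and, hX1, hY1]
      by_cases hzX : z ∈ X
      · by_cases hzB : z ∈ BX
        · tauto
        · tauto
      · by_cases hzY : z ∈ Y
        · by_cases hzB : z ∈ BY
          · tauto
          · tauto
        · tauto
    have h5 : (S.filter (G.Adj w)).card ≤ (X1.filter (G.Adj w)).card + (Y1.filter (G.Adj w)).card +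
        (univ \ (X ∪ Y) : Finset V).card + BX.card + BY.card := by
      refine (card_le_card hsub).trans ?_
      refine (card_union_le _ _).trans ?_
      gcongr
      refine (card_union_le _ _).trans ?_
      gcongr
      refine (card_union_le _ _).trans ?_
      gcongr
      exact card_union_le _ _
    have h6 : ((S.filter (G.Adj w)).card : ℝ) ≤ ((X1.filter (G.Adj w)).card : ℝ) +
        ((Y1.filter (G.Adj w)).card : ℝ) + ((univ \ (X ∪ Y) : Finset V).card : ℝ) + BX.card +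
        BY.card := by exact_mod_cast h5
    have h7 : ((univ \ (X ∪ Y) : Finset V).card : ℝ) = n - X.card - Y.card := by
      rw [cast_card_sdiff (subset_univ _), card_union_of_disjoint hXY, card_univ, hn]
      push_cast; ring
    have h8 : n / 10 ^ 5 ≤ n / 1000 := by
      apply div_le_div_of_nonneg_left hn0.le <;> norm_num
    linarith
  have hXsdeg : ∀ w ∈ Xs, n / 10 ≤ ((Y1.filter (G.Adj w)).card : ℝ) := by
    intro w hw
    rw [hXs, mem_filter] at hw
    exact hw.2
  have h3of : ∀ T : Finset V, n / 10 ≤ (T.card : ℝ) → 3 ≤ T.card := by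
    intro T hT
    have : (3 : ℝ) ≤ T.card := by linarith
    exact_mod_cast this
  have hbip : ∀ u v, (rs G S).Adj u v → (u ∈ Xs ∧ v ∈ Ys) ∨ (u ∈ Ys ∧ v ∈ Xs) := by
    intro u v huv
    have hu : u ∈ Xs ∨ u ∈ Ys := by
      by_cases h : u ∈ Xs
      · left; exact h
      · right; rw [hYs, mem_sdiff]; exact ⟨huv.2.1, h⟩
    have hv : v ∈ Xs ∨ v ∈ Ys := by
      by_cases h : v ∈ Xs
      · left; exact h
      · right; rw [hYs, mem_sdiff]; exact ⟨huv.2.2, h⟩
    rcases hu with hu | hu <;> rcases hv with hv | hv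
    · exact absurd (hfin u v huv.1 (Or.inl ⟨h3of _ (hXsdeg u hu), h3of _ (hXsdeg v hv)⟩)) hno
    · left; exact ⟨hu, hv⟩
    · right; exact ⟨hu, hv⟩
    · exact absurd (hfin u v huv.1 (Or.inr ⟨h3of _ (hYsdeg u hu), h3of _ (hYsdeg v hv)⟩)) hno
  have hdis : Disjoint Xs Ys := disjoint_sdiff
  have hle : specRadius (rs G S) ≤ Real.sqrt ((Xs.card : ℝ) * Ys.card) := by
    refine specRadius_le _ fun x hx hx1 => ?_
    have := QF_bip Xs Ys hdis hbip x hx
    rwa [hx1, mul_one] at this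
  have hsum : Xs.card + Ys.card = S.card := by
    rw [← card_union_of_disjoint hdis, hYs, union_sdiff_of_subset (filter_subset _ _)]
  by_cases hSu : S = univ
  · rw [hSu, rs_univ] at hle
    refine absurd hlam (not_lt.2 (hle.trans (Real.sqrt_le_sqrt ?_)))
    have h5 : Xs.card * Ys.card ≤ Fintype.card V ^ 2 / 4 := by
      rw [Nat.le_div_iff_mul_le (by norm_num)]
      have h6 : Xs.card + Ys.card = Fintype.card V := by rw [hsum, hSu, card_univ]
      rw [← h6]
      nlinarith [sq_nonneg ((Xs.card : ℤ) - Ys.card), four_mul_le_sq_add Xs.card Ys.card]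
    exact_mod_cast h5
  · have h5 : S.card + 1 ≤ Fintype.card V := by
      have := card_lt_card (ssubset_univ_iff.2 hSu)
      rw [card_univ] at this
      exact this
    have h6 : (S.card : ℝ) + 1 ≤ n := by rw [hn]; exact_mod_cast h5
    have h7 := sqrt_mul_le (a := (Xs.card : ℝ)) (b := (Ys.card : ℝ)) (Nat.cast_nonneg _)
      (Nat.cast_nonneg _)
    have h8 : ((Xs.card : ℝ) + Ys.card) = S.card := by exact_mod_cast hsum
    rw [h8] at h7
    linarith

end Pool.Agent.TH516.CC
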