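import Mathlib
import Pool.Agent.TH516.CC.CaseB

set_option autoImplicit false

/-!
# A triangle-free subgraph of large spectral radius
-/

namespace Pool.Agent.TH516.CC

open Finset Classical

variable {V : Type*} [Fintype V]

theorem AO_one (H : SimpleGraph V) (u : V) :
    AO H (fun _ => 1) u = ((univ.filter (H.Adj u)).card : ℝ) := by
  unfold AO
  rw [card_filter]
  push_cast
  rfl

theorem exists_edge_large (H : SimpleGraph V) (hpos : 0 < (opairs H).card) :
    ∃ u v, H.Adj u v ∧ 2 * ((opairs H).card : ℝ) / (Fintype.card V : ℝ) ≤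
      ((univ.filter (H.Adj u)).card : ℝ) + ((univ.filter (H.Adj v)).card : ℝ) := by
  set d : V → ℝ := AO H (fun _ => 1) with hd
  have hop : ((opairs H).card : ℝ) = ∑ v, d v := by
    have h1 := QF_opairs H (fun _ => 1)
    have h2 := QF_eq H (fun _ => 1)
    rw [h2] at h1
    simpa [hd] using h1.symm
  have hVpos : (0 : ℝ) < Fintype.card V := by
    obtain ⟨p, _⟩ := card_pos.1 hpos
    exact_mod_cast Fintype.card_pos_iff.2 ⟨p.1⟩
  have h1 : ∑ p ∈ opairs H, d p.1 = ∑ v, d v * d v := by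
    have h2 := BF_eq H d (fun _ => 1)
    rw [← h2]
    unfold BF opairs
    rw [sum_filter, ← univ_product_univ, sum_product]
    simp
  have h2 : ∑ p ∈ opairs H, d p.2 = ∑ v, d v * d v := by
    have h2 := BF_eq H d (fun _ => 1)
    rw [← h2, BF_symm]
    unfold BF opairs
    rw [sum_filter, ← univ_product_univ, sum_product]
    simp
  have h3 : (∑ v, d v) ^ 2 ≤ (Fintype.card V : ℝ) * ∑ v, d v ^ 2 := by
    have := sq_sum_le_card_mul_sum_sq (s := (univ : Finset V)) (f := d)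
    rwa [card_univ] at this
  obtain ⟨p, hp, hle⟩ := exists_le_of_sum_le (s := opairs H) (card_pos.1 hpos)
    (f := fun _ => 2 * ((opairs H).card : ℝ) / (Fintype.card V : ℝ))
    (g := fun p => d p.1 + d p.2) (by
      rw [sum_const, nsmul_eq_mul, sum_add_distrib, h1, h2, ← two_mul]
      have h4 : ((opairs H).card : ℝ) * (2 * ((opairs H).card : ℝ) / (Fintype.card V : ℝ)) =
          2 * (((opairs H).card : ℝ) ^ 2 / (Fintype.card V : ℝ)) := by ring
      rw [h4]
      apply mul_le_mul_of_nonneg_left _ (by norm_num)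
      rw [div_le_iff₀ hVpos, hop]
      refine h3.trans (le_of_eq ?_)
      rw [mul_comm]
      congr 1
      exact sum_congr rfl fun v _ => by ring)
  refine ⟨p.1, p.2, ?_, ?_⟩
  · unfold opairs at hp
    exact (mem_filter.1 hp).2
  · rw [← AO_one, ← AO_one]
    exact hle

theorem size_bound {a b n : ℝ} (ha : 0 ≤ a) (hab : a + b ≤ n) (hn : 0 < n)
    (h : (1 / 4 - 5 / 10 ^ 9) * n ^ 2 ≤ a * b) : 48 / 100 * n ≤ a := by
  by_contra hc
  push Not at hc
  have h1 : a * b ≤ a * (n - a) := mul_le_mul_of_nonneg_left (by linarith) ha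
  have h2 : a * (n - a) ≤ (48 / 100 * n) * (52 / 100 * n) := by nlinarith
  nlinarith

theorem missP_bound {a b e q n : ℝ} (h1 : a * b = e + q) (h2 : a * b ≤ n ^ 2 / 4)
    (h3 : (1 / 4 - 5 / 10 ^ 9) * n ^ 2 ≤ e) : q ≤ n ^ 2 / 10 ^ 8 := by
  have : 0 ≤ n ^ 2 := sq_nonneg n
  linarith

theorem mul_bound {a b n : ℝ} (ha : 0 ≤ a) (hb : 0 ≤ b) (hab : a + b ≤ n) :
    a * b ≤ n ^ 2 / 4 := by
  nlinarith [sq_nonneg (a - b)]

theorem caseB_entry [Nonempty V] (G G' H : SimpleGraph V) (hHG' : H ≤ G') (hG'G : G' ≤ G)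
    (htf : TriFree H) (hcomp : ∀ u v w, G'.Adj u v → H.Adj u w → H.Adj u v) {n : ℝ}
    (hn : n = Fintype.card V) (hbig : 1000000 ≤ n)
    (hloss : ((dpairs G G').card : ℝ) ≤ n ^ 2 / 10 ^ 9)
    {x : V → ℝ} (hx : 0 < nsq x) (hQ : (1 / 2 - 1 / 10 ^ 9) * n * nsq x ≤ QF H x)
    (hlam : Real.sqrt ((Fintype.card V ^ 2 / 4 : ℕ) : ℝ) < specRadius G)
    (ℓ : ℕ) (h3 : 3 ≤ ℓ) (hℓ : (ℓ : ℝ) ≤ 2 / 5 * n) : HasCyc G ℓ := by
  have hn0 : 0 < n := by linarith
  -- many edges
  have hop : (1 / 2 - 2 / 10 ^ 9) * n ^ 2 ≤ ((opairs H).card : ℝ) := by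
    have h1 := QF_sq_triFree htf x
    have h2 : ((1 / 2 - 1 / 10 ^ 9) * n * nsq x) ^ 2 ≤ QF H x ^ 2 := by
      apply pow_le_pow_left₀ _ hQ
      have : (0 : ℝ) < 1 / 2 - 1 / 10 ^ 9 := by norm_num
      positivity
    have h4 : ((1 / 2 - 1 / 10 ^ 9) * n) ^ 2 * nsq x ^ 2 ≤
        ((opairs H).card : ℝ) / 2 * nsq x ^ 2 := by
      rw [← mul_pow]; exact h2.trans h1
    have h5 := le_of_mul_le_mul_right h4 (by positivity)
    nlinarith
  have hop0 : 0 < (opairs H).card := by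
    have : (0 : ℝ) < ((opairs H).card : ℝ) := by
      refine lt_of_lt_of_le ?_ hop
      have : (0 : ℝ) < 1 / 2 - 2 / 10 ^ 9 := by norm_num
      positivity
    exact_mod_cast this
  obtain ⟨u, v, huv, hdeg⟩ := exists_edge_large H hop0
  rw [← hn] at hdeg
  set X := univ.filter (H.Adj v) with hX
  set Y := univ.filter (H.Adj u) with hY
  have hmX : ∀ a, a ∈ X ↔ H.Adj v a := by intro a; rw [hX, mem_filter]; simp
  have hmY : ∀ a, a ∈ Y ↔ H.Adj u a := by intro a; rw [hY, mem_filter]; simp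
  have hXY : Disjoint X Y := by
    rw [disjoint_left]
    intro a ha hb
    rw [hmX] at ha
    rw [hmY] at hb
    exact htf u v a huv ha hb
  have hsum : (1 - 4 / 10 ^ 9) * n ≤ (X.card : ℝ) + Y.card := by
    have h1 : (1 - 4 / 10 ^ 9) * n ≤ 2 * ((opairs H).card : ℝ) / n := by
      rw [le_div_iff₀ hn0]; nlinarith
    linarith
  have hsumle : (X.card : ℝ) + Y.card ≤ n := by
    rw [hn]
    have h1 := card_union_of_disjoint hXY
    have h2 := card_le_univ (X ∪ Y)
    have h3 : X.card + Y.card ≤ Fintype.card V := by omega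
    exact_mod_cast h3
  set Z := univ \ (X ∪ Y) with hZ
  have hmZ : ∀ a, a ∈ Z ↔ a ∉ X ∧ a ∉ Y := by
    intro a; rw [hZ, mem_sdiff, mem_union]; simp
  have hZc : (Z.card : ℝ) ≤ 4 / 10 ^ 9 * n := by
    rw [hZ, cast_card_sdiff (subset_univ _), card_union_of_disjoint hXY, card_univ, ← hn]
    push_cast
    linarith
  -- pairs touching Z
  set TZ : Finset (V × V) := Z ×ˢ univ ∪ univ ×ˢ Z with hTZ
  have hTZc : (TZ.card : ℝ) ≤ 8 / 10 ^ 9 * n ^ 2 := by
    have h1 : TZ.card ≤ Z.card * Fintype.card V + Fintype.card V * Z.card := by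
      rw [hTZ]
      refine (card_union_le _ _).trans ?_
      rw [card_product, card_product, card_univ]
    have h2 : (TZ.card : ℝ) ≤ (Z.card : ℝ) * n + n * Z.card := by
      rw [hn]; exact_mod_cast h1
    nlinarith
  have hZin : ∀ p : V × V, p ∉ TZ → (p.1 ∈ X ∨ p.1 ∈ Y) ∧ (p.2 ∈ X ∨ p.2 ∈ Y) := by
    intro p hp
    rw [hTZ, mem_union, mem_product, mem_product] at hp
    push Not at hp
    have h1 : p.1 ∉ Z := fun h => hp.1 h (mem_univ _)
    have h2 : p.2 ∉ Z := fun h => hp.2 (mem_univ _) h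
    rw [hmZ] at h1 h2
    constructor <;> tauto
  have hindep : ∀ a b, H.Adj a b → ¬ (a ∈ X ∧ b ∈ X) ∧ ¬ (a ∈ Y ∧ b ∈ Y) := by
    intro a b hab
    constructor
    · rintro ⟨h1, h2⟩
      rw [hmX] at h1 h2
      exact htf v a b h1 hab h2
    · rintro ⟨h1, h2⟩
      rw [hmY] at h1 h2
      exact htf u a b h1 hab h2
  -- the pairs between X and Y
  set EXY := (X ×ˢ Y).filter (fun p => H.Adj p.1 p.2) with hEXY
  have hopsub : opairs H ⊆ TZ ∪ (EXY ∪ EXY.image Prod.swap) := by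
    intro p hp
    unfold opairs at hp
    rw [mem_filter] at hp
    by_cases hpT : p ∈ TZ
    · exact mem_union.2 (Or.inl hpT)
    · refine mem_union.2 (Or.inr (mem_union.2 ?_))
      obtain ⟨h1, h2⟩ := hZin p hpT
      obtain ⟨h4, h5⟩ := hindep _ _ hp.2
      rcases h1 with h1 | h1
      · rcases h2 with h2 | h2
        · exact absurd ⟨h1, h2⟩ h4
        · left
          rw [hEXY, mem_filter, mem_product]
          exact ⟨⟨h1, h2⟩, hp.2⟩
      · rcases h2 with h2 | h2
        · right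
          rw [mem_image]
          refine ⟨(p.2, p.1), ?_, by simp⟩
          rw [hEXY, mem_filter, mem_product]
          exact ⟨⟨h2, h1⟩, hp.2.symm⟩
        · exact absurd ⟨h1, h2⟩ h5
  have hEc : (1 / 4 - 5 / 10 ^ 9) * n ^ 2 ≤ (EXY.card : ℝ) := by
    have h1 : (opairs H).card ≤ TZ.card + (EXY.card + EXY.card) := by
      have e1 := card_union_le TZ (EXY ∪ EXY.image Prod.swap)
      have e2 := card_union_le EXY (EXY.image Prod.swap)
      have e3 := card_image_le (s := EXY) (f := Prod.swap)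
      have e4 := card_le_card hopsub
      omega
    have h2 : ((opairs H).card : ℝ) ≤ (TZ.card : ℝ) + (EXY.card + EXY.card) := by exact_mod_cast h1
    nlinarith
  have hXYmul : (X.card : ℝ) * Y.card = (EXY.card : ℝ) +
      (((X ×ˢ Y).filter (fun p => ¬ H.Adj p.1 p.2)).card : ℝ) := by
    rw [hEXY, ← Nat.cast_add, card_filter_add_card_filter_not, card_product]
    push_cast; rfl
  have hXYle : (X.card : ℝ) * Y.card ≤ n ^ 2 / 4 :=
    mul_bound (Nat.cast_nonneg _) (Nat.cast_nonneg _) hsumle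
  have hmiss : ((missP G X Y).card : ℝ) ≤ n ^ 2 / 10 ^ 8 := by
    have h1 : missP G X Y ⊆ (X ×ˢ Y).filter (fun p => ¬ H.Adj p.1 p.2) := by
      intro p hp
      rw [mem_missP] at hp
      rw [mem_filter, mem_product]
      exact ⟨hp.1, fun h => hp.2 (hG'G (hHG' h))⟩
    have h2 : ((missP G X Y).card : ℝ) ≤
        (((X ×ˢ Y).filter (fun p => ¬ H.Adj p.1 p.2)).card : ℝ) := by
      exact_mod_cast card_le_card h1
    exact h2.trans (missP_bound hXYmul hXYle hEc)
  have hextra : ((extraP G X Y).card : ℝ) ≤ n ^ 2 / 10 ^ 8 := by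
    have h1 : extraP G X Y ⊆ dpairs G G' ∪ TZ := by
      intro p hp
      rw [mem_extraP] at hp
      by_cases hpT : p ∈ TZ
      · exact mem_union.2 (Or.inr hpT)
      · refine mem_union.2 (Or.inl ?_)
        rw [mem_dpairs]
        refine ⟨hp.1, fun hG' => ?_⟩
        obtain ⟨h1, h2⟩ := hZin p hpT
        have hH : H.Adj p.1 p.2 := by
          rcases h1 with h1 | h1
          · exact hcomp _ _ _ hG' ((hmX _).1 h1).symm
          · exact hcomp _ _ _ hG' ((hmY _).1 h1).symm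
        obtain ⟨h4, h5⟩ := hindep _ _ hH
        apply hp.2
        tauto
    have h2 : (extraP G X Y).card ≤ (dpairs G G').card + TZ.card :=
      (card_le_card h1).trans (card_union_le _ _)
    have h4 : ((extraP G X Y).card : ℝ) ≤ ((dpairs G G').card : ℝ) + TZ.card := by exact_mod_cast h2
    have h5 : n ^ 2 / 10 ^ 9 + 8 / 10 ^ 9 * n ^ 2 ≤ n ^ 2 / 10 ^ 8 := by nlinarith [sq_nonneg n]
    linarith
  have hEle : (EXY.card : ℝ) ≤ (X.card : ℝ) * Y.card := by
    rw [hXYmul]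
    have : (0 : ℝ) ≤ (((X ×ˢ Y).filter (fun p => ¬ H.Adj p.1 p.2)).card : ℝ) := Nat.cast_nonneg _
    linarith
  have hXc : 48 / 100 * n ≤ X.card :=
    size_bound (Nat.cast_nonneg _) hsumle hn0 (hEc.trans hEle)
  have hYc : 48 / 100 * n ≤ Y.card :=
    size_bound (b := (X.card : ℝ)) (Nat.cast_nonneg _) (by linarith) hn0
      ((hEc.trans hEle).trans (le_of_eq (mul_comm _ _)))
  exact caseB G X Y hXY hn hbig hXc hYc (by linarith) hmiss hextra hlam ℓ h3 hℓ

end Pool.Agent.TH516.CC
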