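import Mathlib
import Pool.Agent.TH516.CC.Spec2

set_option autoImplicit false

/-!
# The regularity lemma: edges lost and dense pairs
-/

namespace Pool.Agent.TH516.CC

open Finset Classical

variable {V : Type*}

theorem DP_of_uniform (G : SimpleGraph V) {s t : Finset V} {ε d : ℝ} {k : ℕ}
    (hU : G.IsUniform ε s t) (hd : d ≤ (G.edgeDensity s t : ℝ)) (hk1 : 1 ≤ k)
    (hs : (s.card : ℝ) * ε ≤ k) (ht : (t.card : ℝ) * ε ≤ k) : DP G k (d - ε) s t := by
  intro X hX Y hY hXk hYk
  have hXk' : (k : ℝ) ≤ X.card := by exact_mod_cast hXk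
  have hYk' : (k : ℝ) ≤ Y.card := by exact_mod_cast hYk
  have h1 := hU hX hY (hs.trans hXk') (ht.trans hYk')
  have h2 : d - ε < (G.edgeDensity X Y : ℝ) := by
    have := (abs_lt.1 h1).1
    linarith
  by_contra hcon
  push Not at hcon
  have hk1' : (1 : ℝ) ≤ k := by exact_mod_cast hk1
  have hXpos : (0 : ℝ) < X.card := by linarith
  have hYpos : (0 : ℝ) < Y.card := by linarith
  have hXne : X.Nonempty := by
    rw [← card_pos]; exact_mod_cast hXpos
  have h3 : ((G.interedges X Y).card : ℝ) = ∑ x ∈ X, ((Y.filter (G.Adj x)).card : ℝ) := by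
    rw [SimpleGraph.interedges_def, card_filter, sum_product]
    push_cast
    refine sum_congr rfl fun x _ => ?_
    rw [card_filter]
    push_cast
    rfl
  have h4 : ∑ x ∈ X, ((Y.filter (G.Adj x)).card : ℝ) < ∑ _x ∈ X, (d - ε) * Y.card :=
    sum_lt_sum_of_nonempty hXne hcon
  rw [sum_const, nsmul_eq_mul, ← h3] at h4
  rw [SimpleGraph.edgeDensity_def] at h2
  push_cast at h2
  rw [lt_div_iff₀ (by positivity)] at h2
  nlinarith

variable [Fintype V]

theorem loss_card [Nonempty V] (G : SimpleGraph V) (P : Finpartition (univ : Finset V))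
    {ε ε' d : ℝ} (hε : 0 < ε) (hε' : 0 < ε') (hd : 0 ≤ d) (hP : P.IsEquipartition)
    (hU : P.IsUniform G ε) (hp : 4 / ε' ≤ P.parts.card) :
    ((dpairs G (G.regularityReduced P ε d)).card : ℝ) ≤
      (4 * ε + ε' / 2 + 4 * d) * (Fintype.card V : ℝ) ^ 2 := by
  set A := (P.nonUniforms G ε).biUnion fun p => p.1 ×ˢ p.2 with hA
  set B := P.parts.biUnion offDiag with hB
  set C := (P.sparsePairs G d).biUnion fun p => G.interedges p.1 p.2 with hC
  have hsub : dpairs G (G.regularityReduced P ε d) ⊆ A ∪ B ∪ C := by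
    rintro ⟨x, y⟩ hxy
    rw [mem_dpairs] at hxy
    obtain ⟨h, h'⟩ := hxy
    simp only at h h'
    rw [SimpleGraph.regularityReduced_adj] at h'
    obtain ⟨U, hU', hx⟩ := P.exists_mem (mem_univ x)
    obtain ⟨W, hW', hy⟩ := P.exists_mem (mem_univ y)
    rw [mem_union, mem_union]
    rcases eq_or_ne U W with rfl | hUW
    · left; right
      rw [hB, mem_biUnion]
      exact ⟨U, hU', by rw [mem_offDiag]; exact ⟨hx, hy, h.ne⟩⟩
    · by_cases h2 : G.IsUniform ε U W
      · right
        rw [hC, mem_biUnion]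
        refine ⟨(U, W), ?_, ?_⟩
        · rw [Finpartition.mk_mem_sparsePairs]
          refine ⟨hU', hW', hUW, ?_⟩
          by_contra h3
          push Not at h3
          exact h' ⟨h, U, hU', W, hW', hx, hy, hUW, h2, h3⟩
        · rw [SimpleGraph.mk_mem_interedges_iff]
          exact ⟨hx, hy, h⟩
      · left; left
        rw [hA, mem_biUnion]
        refine ⟨(U, W), ?_, ?_⟩
        · rw [Finpartition.mk_mem_nonUniforms]
          exact ⟨hU', hW', hUW, h2⟩
        · rw [mem_product]; exact ⟨hx, hy⟩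
  have hcardu : ((univ : Finset V).card : ℝ) = (Fintype.card V : ℝ) := by rw [card_univ]
  have hAc : (A.card : ℝ) ≤ 4 * ε * (Fintype.card V : ℝ) ^ 2 := by
    have := hP.sum_nonUniforms_lt univ_nonempty hε hU
    rw [hcardu] at this
    exact this.le
  have hBc : (B.card : ℝ) ≤ ε' / 2 * (Fintype.card V : ℝ) ^ 2 := by
    have := hP.card_biUnion_offDiag_le hε' hp
    rw [hcardu] at this
    exact this
  have hCc : (C.card : ℝ) ≤ 4 * d * (Fintype.card V : ℝ) ^ 2 := by
    have := hP.card_interedges_sparsePairs_le (G := G) hd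
    rw [hcardu] at this
    exact this
  have h1 : (dpairs G (G.regularityReduced P ε d)).card ≤ A.card + B.card + C.card := by
    have e1 := card_le_card hsub
    have e2 := card_union_le (A ∪ B) C
    have e3 := card_union_le A B
    omega
  have h2 : ((dpairs G (G.regularityReduced P ε d)).card : ℝ) ≤
      (A.card : ℝ) + B.card + C.card := by exact_mod_cast h1
  linarith

end Pool.Agent.TH516.CC
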