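import Mathlib
import Pool.Agent.TH516.CC.ABC
import Pool.Agent.TH516.CC.CaseA
import Pool.Agent.TH516.CC.HallD
import Pool.Agent.TH516.CC.Near
import Pool.Agent.TH516.CC.Reg

set_option autoImplicit false

/-!
# All cycle lengths up to `((3 - √5) / 2 - ε) n`
-/

namespace Pool.Agent.TH516.CC

open Finset Classical

variable {V : Type} [Fintype V]

/-- Splitting the quadratic form along a partition of the vertices without crossing edges. -/
theorem exists_component {κ : Type} [Fintype κ] (G : SimpleGraph V) (comp : V → κ)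
    (hcomp : ∀ u v, G.Adj u v → comp u = comp v) {c : ℝ} {x : V → ℝ} (hx : 0 < nsq x)
    (hQ : c * nsq x ≤ QF G x) :
    ∃ (k : κ) (y : V → ℝ), (∀ v, y v = if comp v = k then x v else 0) ∧ 0 < nsq y ∧
      ∀ H : SimpleGraph V, (∀ u v, H.Adj u v ↔ G.Adj u v ∧ comp u = k) → c * nsq y ≤ QF H y := by
  set y : κ → V → ℝ := fun k v => if comp v = k then x v else 0 with hy
  have hn : nsq x = ∑ k, nsq (y k) := by
    unfold nsq
    rw [sum_comm]
    refine sum_congr rfl fun v _ => ?_
    rw [sum_eq_single (comp v)]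
    · simp [hy]
    · intro b _ hb
      simp [hy, Ne.symm hb]
    · simp
  have hQe : QF G x = ∑ k, QF G (y k) := by
    have e : ∀ u v, (if G.Adj u v then x u * x v else 0) =
        ∑ k, (if G.Adj u v then y k u * y k v else 0) := by
      intro u v
      rw [sum_eq_single (comp u)]
      · by_cases h : G.Adj u v
        · have := hcomp u v h
          simp [hy, this]
        · simp [h]
      · intro b _ hb
        simp [hy, Ne.symm hb]
      · simp
    unfold QF
    calc ∑ u, ∑ v, (if G.Adj u v then x u * x v else 0)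
        = ∑ u, ∑ v, ∑ k, (if G.Adj u v then y k u * y k v else 0) :=
          sum_congr rfl fun u _ => sum_congr rfl fun v _ => e u v
      _ = ∑ u, ∑ k, ∑ v, (if G.Adj u v then y k u * y k v else 0) :=
          sum_congr rfl fun u _ => sum_comm
      _ = ∑ k, ∑ u, ∑ v, (if G.Adj u v then y k u * y k v else 0) := sum_comm
  have hH : ∀ k, ∀ H : SimpleGraph V, (∀ u v, H.Adj u v ↔ G.Adj u v ∧ comp u = k) →
      QF H (y k) = QF G (y k) := by
    intro k H hH
    unfold QF
    refine sum_congr rfl fun u _ => sum_congr rfl fun v _ => ?_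
    by_cases h : comp u = k
    · by_cases h2 : G.Adj u v
      · rw [if_pos h2, if_pos ((hH u v).2 ⟨h2, h⟩)]
      · rw [if_neg h2, if_neg (fun h3 => h2 ((hH u v).1 h3).1)]
    · have : y k u = 0 := by simp [hy, h]
      simp [this]
  by_contra hcon
  push Not at hcon
  have hlt : ∀ k, 0 < nsq (y k) → QF G (y k) < c * nsq (y k) := by
    intro k hk
    obtain ⟨H, hH1, hH2⟩ := hcon k (y k) (fun v => rfl) hk
    rwa [hH k H hH1] at hH2
  have hle : ∀ k, QF G (y k) ≤ c * nsq (y k) := by
    intro k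
    rcases (nsq_nonneg (y k)).eq_or_lt with h | h
    · have h0 := nsq_eq_zero h.symm
      rw [h0]
      simp [QF, nsq]
    · exact (hlt k h).le
  have hex : ∃ k, 0 < nsq (y k) := by
    by_contra h
    push Not at h
    have : nsq x ≤ 0 := by
      rw [hn]; exact sum_nonpos fun k _ => h k
    linarith
  obtain ⟨k0, hk0⟩ := hex
  have : QF G x < c * nsq x := by
    rw [hQe, hn, mul_sum]
    exact sum_lt_sum (fun k _ => hle k) ⟨k0, mem_univ _, hlt k0 hk0⟩
  linarith

/-- Cardinality of a union of clusters. -/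
theorem card_cluster_le {ι : Type} (cl : V → ι) (A : Finset ι) {M : ℕ}
    (hM : ∀ i, (univ.filter (fun v => cl v = i)).card ≤ M) :
    (univ.filter (fun v => cl v ∈ A)).card ≤ M * A.card := by
  refine (card_le_mul_card_image (f := cl) _ M ?_).trans ?_
  · intro i _
    refine (card_le_card ?_).trans (hM i)
    intro v hv
    rw [mem_filter] at hv ⊢
    exact ⟨mem_univ _, hv.2⟩
  · apply Nat.mul_le_mul_left
    apply card_le_card
    intro i hi
    rw [mem_image] at hi
    obtain ⟨v, hv, rfl⟩ := hi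
    exact (mem_filter.1 hv).2

/-- The Hall condition in a component of large spectral radius. -/
theorem hall_cond {ι : Type} [Fintype ι] (H : SimpleGraph V) (R : SimpleGraph ι) (cl : V → ι)
    (K : Finset ι) (hK : ∀ u v, H.Adj u v → cl u ∈ K) (hR : ∀ u v, H.Adj u v → R.Adj (cl u) (cl v))
    (hKc : ∀ i j, R.Adj i j → i ∈ K → j ∈ K) {M τ : ℕ}
    (hM : ∀ i, (univ.filter (fun v => cl v = i)).card ≤ M) {n t δ : ℝ}
    (hn : n = Fintype.card V) (hn0 : 0 < n) (hτ : (M : ℝ) * τ ≤ t * n) (ht : t ≤ 2 / 5)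
    (hδ0 : 0 < δ) (hδ1 : δ ≤ 1 / 10) (hδ : δ ≤ t ^ 2 - 3 * t + 1)
    {y : V → ℝ} (hy0 : ∀ v, 0 ≤ y v) (hy : 0 < nsq y)
    (hQ : (1 / 2 - δ / 20) * n * nsq y ≤ QF H y) :
    ∀ X ⊆ K, X.card + τ ≤ (nbh R X).card + K.card := by
  intro X hX
  by_contra hcon
  push Not at hcon
  set N := nbh R X with hN
  have hmN : ∀ j, j ∈ N ↔ ∃ i ∈ X, R.Adj i j := by
    intro j; rw [hN]; unfold nbh; rw [mem_filter]; simp
  have hNK : N ⊆ K := by
    intro j hj
    obtain ⟨i, hi, hij⟩ := (hmN j).1 hj
    exact hKc i j hij (hX hi)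
  set A := N \ X with hA
  set C := X \ N with hC
  set B := K \ (A ∪ C) with hB
  have hAK : A ⊆ K := sdiff_subset.trans hNK
  have hCK : C ⊆ K := sdiff_subset.trans hX
  have hACd : Disjoint A C := by
    rw [disjoint_left]
    intro i h1 h2
    rw [hA, mem_sdiff] at h1
    rw [hC, mem_sdiff] at h2
    exact h1.2 h2.1
  have hcardB : B.card + (A.card + C.card) = K.card := by
    rw [hB, ← card_union_of_disjoint hACd]
    exact card_sdiff_add_card_eq_card (union_subset hAK hCK)
  have hcardN : A.card + (N ∩ X).card = N.card := by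
    rw [hA]; exact card_sdiff_add_card_inter N X
  have hcardX : C.card + (X ∩ N).card = X.card := by
    rw [hC]; exact card_sdiff_add_card_inter X N
  rw [inter_comm] at hcardX
  have h2AB : 2 * A.card + B.card ≤ τ := by omega
  -- blow-up
  set A' := univ.filter (fun v => cl v ∈ A) with hA'
  set B' := univ.filter (fun v => cl v ∈ B) with hB'
  set C' := univ.filter (fun v => cl v ∈ C) with hC'
  have mA : ∀ v, v ∈ A' ↔ cl v ∈ A := by intro v; rw [hA', mem_filter]; simp
  have mB : ∀ v, v ∈ B' ↔ cl v ∈ B := by intro v; rw [hB', mem_filter]; simp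
  have mC : ∀ v, v ∈ C' ↔ cl v ∈ C := by intro v; rw [hC', mem_filter]; simp
  have dAB : Disjoint A' B' := by
    rw [disjoint_left]
    intro v h1 h2
    rw [mA] at h1
    rw [mB, hB, mem_sdiff, mem_union] at h2
    exact h2.2 (Or.inl h1)
  have dAC : Disjoint A' C' := by
    rw [disjoint_left]
    intro v h1 h2
    rw [mA] at h1
    rw [mC] at h2
    exact disjoint_left.1 hACd h1 h2
  have dBC : Disjoint B' C' := by
    rw [disjoint_left]
    intro v h1 h2
    rw [mC] at h2
    rw [mB, hB, mem_sdiff, mem_union] at h1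
    exact h1.2 (Or.inr h2)
  have hcov : ∀ u v, H.Adj u v → u ∈ A' ∪ B' ∪ C' := by
    intro u v huv
    have h1 := hK u v huv
    by_cases h2 : cl u ∈ A
    · exact mem_union_left _ (mem_union_left _ ((mA u).2 h2))
    · by_cases h3 : cl u ∈ C
      · exact mem_union_right _ ((mC u).2 h3)
      · refine mem_union_left _ (mem_union_right _ ((mB u).2 ?_))
        rw [hB]
        exact mem_sdiff.2 ⟨h1, fun h => (mem_union.1 h).elim h2 h3⟩
  have h1 : ∀ u v, H.Adj u v → u ∈ C' → v ∈ A' := by
    intro u v huv hu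
    rw [mC, hC, mem_sdiff] at hu
    rw [mA, hA, mem_sdiff]
    have h2 := hR u v huv
    refine ⟨(hmN _).2 ⟨cl u, hu.1, h2⟩, fun h3 => hu.2 ((hmN _).2 ⟨cl v, h3, h2.symm⟩)⟩
  have hsum : (A'.card : ℝ) + B'.card + C'.card ≤ n := by
    rw [hn]
    have e1 := card_union_of_disjoint dAB
    have e2 := card_union_of_disjoint (s := A' ∪ B') (t := C')
      (by rw [disjoint_union_left]; exact ⟨dAC, dBC⟩)
    have e3 := card_le_univ (A' ∪ B' ∪ C')
    have e4 : A'.card + B'.card + C'.card ≤ Fintype.card V := by omega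
    exact_mod_cast e4
  have hat : 2 * (A'.card : ℝ) + B'.card ≤ t * n := by
    have e1 := card_cluster_le cl A hM
    have e2 := card_cluster_le cl B hM
    rw [← hA'] at e1
    rw [← hB'] at e2
    have e3 : 2 * A'.card + B'.card ≤ M * τ := by
      calc 2 * A'.card + B'.card ≤ 2 * (M * A.card) + M * B.card := by omega
        _ = M * (2 * A.card + B.card) := by ring
        _ ≤ M * τ := Nat.mul_le_mul_left _ h2AB
    have e4 : 2 * (A'.card : ℝ) + B'.card ≤ (M : ℝ) * τ := by exact_mod_cast e3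
    linarith
  have hbound := QF_abc A' B' C' dAB dAC dBC hcov h1 hn0 hsum hat ht hδ0.le hδ1 hδ y hy0
  have h3 : (1 / 2 - δ / 10) * n * nsq y < (1 / 2 - δ / 20) * n * nsq y := by
    have : 0 < n * nsq y := mul_pos hn0 hy
    nlinarith
  linarith

end Pool.Agent.TH516.CC
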