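import Mathlib
import Pool.Agent.TH516.CC.Main

set_option autoImplicit false

/-!
# All cycle lengths up to `((3 - √5) / 2 - ε) n`: the proof
-/

namespace Pool.Agent.TH516.CC

open Finset Classical

theorem arith_final {ε c m r h τ q n W ρ L : ℝ} (hε : 0 < ε) (hεc : ε < c) (hc : c ≤ 2 / 5)
    (hr : 16 / ε ≤ r) (hρ : ρ ≤ ε / 16) (hτ : (c - ε / 2) * r - 1 ≤ τ)
    (hh : m - 2 * q - W - 1 ≤ 2 * h) (hq : q ≤ ρ * m + 1) (hW : 0 ≤ W)
    (hm : 8 * (W + 4) / ε ≤ m) (hn : n ≤ (m + 1) * r) (hL : L ≤ (c - ε) * n) :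
    L ≤ 2 * h * τ := by
  have hr' : 16 ≤ r * ε := by rwa [div_le_iff₀ hε] at hr
  have hm' : 8 * (W + 4) ≤ m * ε := by rwa [div_le_iff₀ hε] at hm
  have hrpos : 0 < r := by
    by_contra h0
    push Not at h0
    nlinarith
  have hmpos : 0 < m := by
    by_contra h0
    push Not at h0
    nlinarith
  set H := m * (1 - 2 * ρ) - (W + 3) with hH
  have h1 : H ≤ 2 * h := by rw [hH]; linarith
  have h2 : r * (c - 9 * ε / 16) ≤ τ := by
    have : 1 ≤ r * ε / 16 := by linarith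
    nlinarith
  have hε1 : ε < 2 / 5 := by linarith
  have hHlow : m * (1 - ε / 8) - (W + 3) ≤ H := by
    rw [hH]
    nlinarith
  have hH0 : 0 ≤ H := by
    have : 8 * (W + 4) ≤ m * (2 / 5) := by nlinarith
    nlinarith
  have hc9 : 0 < c - 9 * ε / 16 := by linarith
  have h3 : (c - ε) * (m + 1) ≤ H * (c - 9 * ε / 16) := by
    have e1 : (m * (1 - ε / 8) - (W + 3)) * (c - 9 * ε / 16) ≤ H * (c - 9 * ε / 16) :=
      mul_le_mul_of_nonneg_right hHlow hc9.le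
    have e2 : (c - ε) * (m + 1) ≤ (m * (1 - ε / 8) - (W + 3)) * (c - 9 * ε / 16) := by
      have e3 : (m * (1 - ε / 8) - (W + 3)) * (c - 9 * ε / 16) - (c - ε) * (m + 1) =
          m * ε * (7 / 16 - c / 8 + 9 * ε / 128) - (W + 3) * (c - 9 * ε / 16) - (c - ε) := by
        ring
      have e4 : m * ε * (7 / 16 - 1 / 20) ≤ m * ε * (7 / 16 - c / 8 + 9 * ε / 128) := by
        apply mul_le_mul_of_nonneg_left _ (by positivity)
        linarith
      have e5 : (W + 3) * (c - 9 * ε / 16) ≤ (W + 3) * (2 / 5) :=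
        mul_le_mul_of_nonneg_left (by linarith) (by linarith)
      nlinarith
    linarith
  have hcε : 0 < c - ε := by linarith
  calc L ≤ (c - ε) * n := hL
    _ ≤ (c - ε) * ((m + 1) * r) := mul_le_mul_of_nonneg_left hn hcε.le
    _ = r * ((c - ε) * (m + 1)) := by ring
    _ ≤ r * (H * (c - 9 * ε / 16)) := mul_le_mul_of_nonneg_left h3 hrpos.le
    _ = H * (r * (c - 9 * ε / 16)) := by ring
    _ ≤ H * τ := mul_le_mul_of_nonneg_left h2 hH0
    _ ≤ 2 * h * τ := by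
        apply mul_le_mul_of_nonneg_right h1
        exact (mul_pos hrpos hc9).le.trans h2

theorem params {d ρ ε1 : ℝ} {m r Bd : ℕ} (hd0 : 0 < d) (hd1 : d ≤ 1 / 64) (hρ0 : 0 < ρ)
    (hρ1 : ρ ≤ d / 8) (hε1 : ε1 = d * ρ / 8) (hm64 : 64 / (d * ρ) ≤ m)
    (hmB8 : 8 * (Bd * Bd) + 100 ≤ m) (hPB : r ≤ Bd) :
    ∃ k q h : ℕ, 1 ≤ k ∧ k ≤ q ∧ ε1 * ((m : ℝ) + 1) ≤ k ∧ (k : ℝ) ≤ (d - ε1) * q ∧
      (q : ℝ) + k ≤ (d - ε1) * m ∧ (q : ℝ) ≤ ρ * m + 1 ∧ 2 * q + (2 * r * r + 4) + 2 * h ≤ m ∧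
      m ≤ 2 * h + 1 + 2 * q + (2 * r * r + 4) := by
  have hmpos : (0 : ℝ) < m := by
    have : 0 < m := by omega
    exact_mod_cast this
  have hdρ : 0 < d * ρ := by positivity
  have hdm : 64 ≤ d * ρ * m := by
    rw [div_le_iff₀ hdρ] at hm64
    linarith
  have hε10 : 0 < ε1 := by rw [hε1]; positivity
  have hdρ1 : d * ρ ≤ d * (1 / 8) := mul_le_mul_of_nonneg_left (by linarith) hd0.le
  have hk1 : 1 ≤ ⌈ε1 * ((m : ℝ) + 1)⌉₊ := by
    rw [Nat.one_le_ceil_iff]; positivity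
  have hkge : ε1 * ((m : ℝ) + 1) ≤ (⌈ε1 * ((m : ℝ) + 1)⌉₊ : ℝ) := Nat.le_ceil _
  have hkle : (⌈ε1 * ((m : ℝ) + 1)⌉₊ : ℝ) ≤ d * ρ * m / 4 + 1 := by
    have h1 : (⌈ε1 * ((m : ℝ) + 1)⌉₊ : ℝ) < ε1 * ((m : ℝ) + 1) + 1 :=
      Nat.ceil_lt_add_one (by positivity)
    have h2 : ε1 * ((m : ℝ) + 1) ≤ d * ρ * m / 4 := by
      rw [hε1]
      have h3 : (1 : ℝ) ≤ m := by
        have : 1 ≤ m := by omega
        exact_mod_cast this
      have h4 : d * ρ * 1 ≤ d * ρ * m := mul_le_mul_of_nonneg_left h3 hdρ.le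
      linarith
    linarith
  have hqge : ρ * m ≤ (⌈ρ * (m : ℝ)⌉₊ : ℝ) := Nat.le_ceil _
  have hqle : (⌈ρ * (m : ℝ)⌉₊ : ℝ) ≤ ρ * m + 1 := (Nat.ceil_lt_add_one (by positivity)).le
  generalize ⌈ε1 * ((m : ℝ) + 1)⌉₊ = k at hk1 hkge hkle
  generalize ⌈ρ * (m : ℝ)⌉₊ = q at hqge hqle
  have hηd : d / 2 ≤ d - ε1 := by
    rw [hε1]
    linarith
  have hη0 : 0 ≤ d - ε1 := by linarith
  have hdm1 : d * ρ * m ≤ 1 * (ρ * m) := by
    rw [mul_assoc]
    exact mul_le_mul_of_nonneg_right (by linarith) (by positivity)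
  have hρm : 64 ≤ ρ * m := by linarith
  have hkq : k ≤ q := by
    have h1 : (k : ℝ) ≤ q := by linarith
    exact_mod_cast h1
  have hηq : (k : ℝ) ≤ (d - ε1) * q := by
    have h1 : d / 2 * (ρ * m) ≤ (d - ε1) * q :=
      mul_le_mul hηd hqge (by positivity) hη0
    have h2 : d / 2 * (ρ * m) = d * ρ * m / 2 := by ring
    linarith
  have hdρm : d * ρ * m ≤ d * (1 / 8) * m := mul_le_mul_of_nonneg_right hdρ1 hmpos.le
  have hρm8 : ρ * m ≤ d / 8 * m := mul_le_mul_of_nonneg_right hρ1 hmpos.le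
  have hηm : ((q : ℝ) + k) ≤ (d - ε1) * m := by
    have h1 : d / 2 * m ≤ (d - ε1) * m := mul_le_mul_of_nonneg_right hηd hmpos.le
    linarith
  have hqm : 4 * q ≤ m := by
    have h1 : (4 : ℝ) * q ≤ m := by
      have h3 : (100 : ℝ) ≤ m := by
        have : 100 ≤ m := by omega
        exact_mod_cast this
      have h4 : d / 8 * m ≤ 1 / 8 * m := mul_le_mul_of_nonneg_right (by linarith) hmpos.le
      linarith
    exact_mod_cast h1
  have hrr : r * r ≤ Bd * Bd := Nat.mul_le_mul hPB hPB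
  have hrr2 : 2 * r * r = 2 * (r * r) := by ring
  have hbudget : 2 * q + (2 * (r * r) + 4) ≤ m := by omega
  refine ⟨k, q, (m - 2 * q - (2 * (r * r) + 4)) / 2, hk1, hkq, hkge, hηq, hηm, hqle, ?_, ?_⟩
  · rw [hrr2]; omega
  · rw [hrr2]; omega

theorem c0_facts : ((3 - Real.sqrt 5) / 2) ^ 2 - 3 * ((3 - Real.sqrt 5) / 2) + 1 = 0 ∧
    (3 - Real.sqrt 5) / 2 ≤ 2 / 5 ∧ 19 / 50 ≤ (3 - Real.sqrt 5) / 2 := by
  have h5 : Real.sqrt 5 ^ 2 = 5 := Real.sq_sqrt (by norm_num)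
  have h1 : (11 : ℝ) / 5 ≤ Real.sqrt 5 := by apply Real.le_sqrt_of_sq_le; norm_num
  have h2 : Real.sqrt 5 ≤ 56 / 25 := by
    rw [Real.sqrt_le_left (by norm_num)]; norm_num
  refine ⟨by nlinarith, by linarith, by linarith⟩

theorem main_lower {ε : ℝ} (hε0 : 0 < ε) (hεc : ε < (3 - Real.sqrt 5) / 2) :
    ∃ N : ℕ, ∀ (V : Type) [Fintype V] (G : SimpleGraph V), N ≤ Fintype.card V →
      Real.sqrt ((Fintype.card V ^ 2 / 4 : ℕ) : ℝ) < specRadius G → ∀ ℓ : ℕ, 3 ≤ ℓ →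
      (ℓ : ℝ) ≤ ((3 - Real.sqrt 5) / 2 - ε) * Fintype.card V → HasCyc G ℓ := by
  obtain ⟨hc1, hc2, hc3⟩ := c0_facts
  generalize (3 - Real.sqrt 5) / 2 = c at hεc hc1 hc2 hc3 ⊢
  obtain ⟨t, ht⟩ : ∃ z : ℝ, z = c - ε / 4 := ⟨_, rfl⟩
  obtain ⟨δ, hδ⟩ : ∃ z : ℝ, z = min (1 / 10) (t ^ 2 - 3 * t + 1) := ⟨_, rfl⟩
  have hδ0 : 0 < δ := by
    rw [hδ]
    apply lt_min (by norm_num)
    have : t ^ 2 - 3 * t + 1 = (c - t) * (3 - c - t) + (c ^ 2 - 3 * c + 1) := by ring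
    rw [this, hc1, add_zero]
    apply mul_pos
    · rw [ht]; linarith
    · rw [ht]; linarith
  have hδ1 : δ ≤ 1 / 10 := by rw [hδ]; exact min_le_left _ _
  have hδ2 : δ ≤ t ^ 2 - 3 * t + 1 := by rw [hδ]; exact min_le_right _ _
  have ht2 : t ≤ 2 / 5 := by rw [ht]; linarith
  obtain ⟨e0, he0⟩ : ∃ z : ℝ, z = min (δ / 20) (1 / 10 ^ 9) := ⟨_, rfl⟩
  have he00 : 0 < e0 := by
    rw [he0]; apply lt_min
    · positivity
    · norm_num
  have he01 : e0 ≤ δ / 20 := by rw [he0]; exact min_le_left _ _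
  have he02 : e0 ≤ 1 / 10 ^ 9 := by rw [he0]; exact min_le_right _ _
  have he03 : e0 ≤ 1 := by
    refine he02.trans ?_
    norm_num
  obtain ⟨d, hd⟩ : ∃ z : ℝ, z = e0 ^ 2 / 64 := ⟨_, rfl⟩
  have hd0 : 0 < d := by rw [hd]; positivity
  have hd1 : d ≤ 1 / 64 := by rw [hd]; nlinarith
  obtain ⟨ρ, hρ⟩ : ∃ z : ℝ, z = min (d / 8) (ε / 16) := ⟨_, rfl⟩
  have hρ0 : 0 < ρ := by rw [hρ]; apply lt_min <;> positivity
  have hρ1 : ρ ≤ d / 8 := by rw [hρ]; exact min_le_left _ _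
  have hρ2 : ρ ≤ ε / 16 := by rw [hρ]; exact min_le_right _ _
  obtain ⟨ε1, hε1⟩ : ∃ z : ℝ, z = d * ρ / 8 := ⟨_, rfl⟩
  have hε10 : 0 < ε1 := by rw [hε1]; positivity
  obtain ⟨ε', hε'⟩ : ∃ z : ℝ, z = e0 ^ 2 / 16 := ⟨_, rfl⟩
  have hε'0 : 0 < ε' := by rw [hε']; positivity
  obtain ⟨l, hl⟩ : ∃ l : ℕ, l = ⌈4 / ε'⌉₊ + ⌈16 / ε⌉₊ + 1 := ⟨_, rfl⟩
  have hl1 : 4 / ε' ≤ l := by
    have := Nat.le_ceil (4 / ε')
    rw [hl]; push_cast
    have h0 : (0 : ℝ) ≤ (⌈16 / ε⌉₊ : ℝ) := Nat.cast_nonneg _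
    linarith
  have hl2 : 16 / ε ≤ l := by
    have := Nat.le_ceil (16 / ε)
    rw [hl]; push_cast
    have h0 : (0 : ℝ) ≤ (⌈4 / ε'⌉₊ : ℝ) := Nat.cast_nonneg _
    linarith
  obtain ⟨Bd, hBd⟩ : ∃ Bd : ℕ, Bd = SzemerediRegularity.bound ε1 l := ⟨_, rfl⟩
  have hBd0 : 0 < Bd := by rw [hBd]; exact SzemerediRegularity.bound_pos _ _
  obtain ⟨m0, hm0⟩ : ∃ m0 : ℕ, m0 = ⌈64 / (d * ρ)⌉₊ + ⌈8 * ((2 * (Bd : ℝ) * Bd + 4) + 4) / ε⌉₊ +
    8 * (Bd * Bd) + 100 := ⟨_, rfl⟩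
  obtain ⟨N, hN⟩ : ∃ N : ℕ, N = 1000000 + l + (m0 + 1) * (Bd + 1) + ⌈4 * (Bd : ℝ) / ε⌉₊ +
    ⌈2 / e0⌉₊ := ⟨_, rfl⟩
  refine ⟨N, ?_⟩
  intro V _ G hNV hlam ℓ hℓ3 hℓ
  obtain ⟨nn, hnn⟩ : ∃ nn : ℕ, nn = Fintype.card V := ⟨_, rfl⟩
  rw [← hnn] at hNV hlam hℓ
  obtain ⟨n, hn⟩ : ∃ n : ℝ, n = (nn : ℝ) := ⟨_, rfl⟩
  rw [← hn] at hℓ
  have hn' : n = (Fintype.card V : ℝ) := by rw [hn, hnn]
  have hlam' : Real.sqrt ((Fintype.card V ^ 2 / 4 : ℕ) : ℝ) < specRadius G := by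
    rw [← hnn]; exact hlam
  have hNV' : (N : ℝ) ≤ n := by rw [hn]; exact_mod_cast hNV
  have hnbig : 1000000 ≤ n := by
    have : ((1000000 : ℕ) : ℝ) ≤ (N : ℝ) := by
      have : 1000000 ≤ N := by rw [hN]; omega
      exact_mod_cast this
    push_cast at this
    linarith
  have hn0 : 0 < n := by linarith
  have hne : Nonempty V := by
    rw [← Fintype.card_pos_iff, ← hnn]
    have : (0 : ℝ) < (nn : ℝ) := by rw [← hn]; exact hn0
    exact_mod_cast this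
  have hBdn : 4 * (Bd : ℝ) / ε ≤ n := by
    have h1 := Nat.le_ceil (4 * (Bd : ℝ) / ε)
    have h2 : ((⌈4 * (Bd : ℝ) / ε⌉₊ : ℕ) : ℝ) ≤ (N : ℝ) := by
      have : ⌈4 * (Bd : ℝ) / ε⌉₊ ≤ N := by rw [hN]; omega
      exact_mod_cast this
    linarith
  have he0n : 2 / e0 ≤ n := by
    have h1 := Nat.le_ceil (2 / e0)
    have h2 : ((⌈2 / e0⌉₊ : ℕ) : ℝ) ≤ (N : ℝ) := by
      have : ⌈2 / e0⌉₊ ≤ N := by rw [hN]; omega
      exact_mod_cast this
    linarith
  -- the top eigenvector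
  obtain ⟨x, hx0, hx1, hxe⟩ := top G
  have hQx := QF_of_eig G hxe
  rw [hx1, mul_one] at hQx
  have hlamn : (1 / 2 - e0 / 2) * n ≤ specRadius G := by
    have h1 := sqrt_floor_ge (N := nn) (by
      have : (2 : ℝ) ≤ (nn : ℝ) := by rw [← hn]; linarith
      exact_mod_cast this)
    have h2 : 1 / n ≤ e0 / 2 * n := by
      have h3 : 1 ≤ e0 / 2 * n := by
        rw [div_le_iff₀ he00] at he0n
        linarith
      have h4 : 1 / n ≤ 1 := by rw [div_le_one hn0]; linarith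
      linarith
    have h3 : (nn : ℝ) / 2 - 1 / nn ≤ specRadius G := h1.trans hlam.le
    rw [← hn] at h3
    linarith
  -- regularity
  obtain ⟨P, hP, hPl, hPB, hPU⟩ := szemeredi_regularity G (ε := ε1) (l := l) hε10
    (by rw [← hnn]; omega)
  rw [← hBd] at hPB
  obtain ⟨r, hr⟩ : ∃ r : ℕ, r = P.parts.card := ⟨_, rfl⟩
  rw [← hr] at hPl hPB
  have hrB : (r : ℝ) ≤ Bd := by exact_mod_cast hPB
  have hrl : (l : ℝ) ≤ r := by exact_mod_cast hPl
  have hr0 : 0 < r := by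
    have : 0 < l := by rw [hl]; omega
    omega
  have hrR : (0 : ℝ) < r := by exact_mod_cast hr0
  obtain ⟨m, hm⟩ : ∃ m : ℕ, m = nn / r := ⟨_, rfl⟩
  have hmm0 : m0 ≤ m := by
    rw [hm, Nat.le_div_iff_mul_le hr0]
    calc m0 * r ≤ (m0 + 1) * (Bd + 1) := Nat.mul_le_mul (by omega) (by omega)
      _ ≤ N := by rw [hN]; omega
      _ ≤ nn := hNV
  have hmm0' : (m0 : ℝ) ≤ m := by exact_mod_cast hmm0
  have hm64 : 64 / (d * ρ) ≤ m := by
    have h1 := Nat.le_ceil (64 / (d * ρ))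
    have h2 : ((⌈64 / (d * ρ)⌉₊ : ℕ) : ℝ) ≤ (m0 : ℝ) := by
      have : ⌈64 / (d * ρ)⌉₊ ≤ m0 := by rw [hm0]; omega
      exact_mod_cast this
    linarith
  have hmW : 8 * ((2 * (Bd : ℝ) * Bd + 4) + 4) / ε ≤ m := by
    have h1 := Nat.le_ceil (8 * ((2 * (Bd : ℝ) * Bd + 4) + 4) / ε)
    have h2 : ((⌈8 * ((2 * (Bd : ℝ) * Bd + 4) + 4) / ε⌉₊ : ℕ) : ℝ) ≤ (m0 : ℝ) := by
      have : ⌈8 * ((2 * (Bd : ℝ) * Bd + 4) + 4) / ε⌉₊ ≤ m0 := by rw [hm0]; omega
      exact_mod_cast this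
    linarith
  have hmB8 : 8 * (Bd * Bd) + 100 ≤ m := by
    refine le_trans ?_ hmm0
    rw [hm0]; omega
  have hnm : n ≤ ((m : ℝ) + 1) * r := by
    have h1 : nn < (m + 1) * r := by
      rw [hm, add_mul, one_mul]
      exact Nat.lt_div_mul_add hr0
    have h2 : (nn : ℝ) ≤ (((m + 1) * r : ℕ) : ℝ) := by exact_mod_cast h1.le
    push_cast at h2
    rw [hn]
    exact h2
  have hmr : (m : ℝ) * r ≤ n := by
    have h1 : m * r ≤ nn := by rw [hm]; exact Nat.div_mul_le_self _ _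
    have h2 : ((m * r : ℕ) : ℝ) ≤ (nn : ℝ) := by exact_mod_cast h1
    push_cast at h2
    rw [hn]
    exact h2
  have hsize : ∀ U ∈ P.parts, m ≤ U.card ∧ U.card ≤ m + 1 := by
    intro U hU
    have h1 := hP.average_le_card_part hU
    have h2 := hP.card_part_le_average_add_one hU
    rw [card_univ, ← hnn, ← hr, ← hm] at h1 h2
    exact ⟨h1, h2⟩
  set G' := G.regularityReduced P ε1 d with hG'
  have hG'G : G' ≤ G := SimpleGraph.regularityReduced_le
  have hloss : ((dpairs G G').card : ℝ) ≤ (e0 / 2 * n) ^ 2 := by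
    have h1 := loss_card G P hε10 hε'0 hd0.le hP hPU (by rw [← hr]; exact hl1.trans hrl)
    rw [← hnn, ← hn] at h1
    refine h1.trans ?_
    rw [mul_pow]
    apply mul_le_mul_of_nonneg_right _ (sq_nonneg n)
    have h2 : ε1 ≤ d / 8 := by
      rw [hε1]
      have : d * ρ ≤ d * 1 := mul_le_mul_of_nonneg_left (by linarith) hd0.le
      linarith
    have h3 : 4 * ε1 + ε' / 2 + 4 * d ≤ 4 * (d / 8) + ε' / 2 + 4 * d := by linarith
    refine h3.trans ?_
    rw [hd, hε']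
    nlinarith [sq_nonneg e0]
  have hQ' : (1 / 2 - e0) * n * nsq x ≤ QF G' x := by
    have h1 := QF_loss hG'G x
    have h2 : Real.sqrt ((dpairs G G').card : ℝ) ≤ e0 / 2 * n :=
      (Real.sqrt_le_left (by positivity)).2 hloss
    rw [hx1, mul_one] at h1 ⊢
    rw [hQx] at h1
    linarith
  -- clusters
  set cl : V → P.parts := fun v => ⟨P.part v, P.part_mem.2 (mem_univ v)⟩ with hcl
  have hclm : ∀ (v : V) (i : P.parts), cl v = i ↔ v ∈ i.1 := by
    intro v i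
    rw [hcl, Subtype.ext_iff]
    exact P.part_eq_iff_mem i.2
  set R : SimpleGraph P.parts :=
    { Adj := fun i j => i ≠ j ∧ G.IsUniform ε1 i.1 j.1 ∧ d ≤ (G.edgeDensity i.1 j.1 : ℝ)
      symm := ⟨fun i j h => ⟨h.1.symm, h.2.1.symm, by rw [G.edgeDensity_comm]; exact h.2.2⟩⟩
      loopless := ⟨fun i h => h.1 rfl⟩ } with hR
  have hG'R : ∀ u v, G'.Adj u v → R.Adj (cl u) (cl v) := by
    intro u v huv
    rw [hG', SimpleGraph.regularityReduced_adj] at huv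
    obtain ⟨_, U, hU, W, hW, huU, hvW, hUW, hun, hde⟩ := huv
    have e1 : cl u = ⟨U, hU⟩ := (hclm u ⟨U, hU⟩).2 huU
    have e2 : cl v = ⟨W, hW⟩ := (hclm v ⟨W, hW⟩).2 hvW
    rw [e1, e2]
    exact ⟨fun h => hUW (congrArg Subtype.val h), hun, hde⟩
  -- the component
  set comp : V → R.ConnectedComponent := fun v => R.connectedComponentMk (cl v) with hcomp
  have hcompG : ∀ u v, G'.Adj u v → comp u = comp v := by
    intro u v huv
    exact SimpleGraph.ConnectedComponent.sound (hG'R u v huv).reachable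
  obtain ⟨κ, y, hy, hy0, hyH⟩ := exists_component G' comp hcompG (c := (1 / 2 - e0) * n)
    (x := x) (by rw [hx1]; norm_num) hQ'
  set H : SimpleGraph V :=
    { Adj := fun u v => G'.Adj u v ∧ comp u = κ
      symm := ⟨fun u v h => ⟨h.1.symm, (hcompG u v h.1).symm.trans h.2⟩⟩
      loopless := ⟨fun u h => G'.loopless.irrefl _ h.1⟩ } with hH
  have hHadj : ∀ u v, H.Adj u v ↔ G'.Adj u v ∧ comp u = κ := fun u v => Iff.rfl
  have hQH := hyH H hHadj
  have hy00 : ∀ v, 0 ≤ y v := by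
    intro v
    rw [hy]
    split_ifs
    · exact hx0 v
    · exact le_rfl
  by_cases htri : ∃ a b c' : P.parts, R.Adj a b ∧ R.Adj b c' ∧ R.Adj c' a ∧
      R.connectedComponentMk a = κ
  · -- Case A
    obtain ⟨a, b, c', hab, hbc, hca, haκ⟩ := htri
    set K : Finset P.parts := univ.filter (fun i => R.connectedComponentMk i = κ) with hK
    have hmK : ∀ i, i ∈ K ↔ R.connectedComponentMk i = κ := by
      intro i; rw [hK, mem_filter]; simp
    obtain ⟨τ, hτ⟩ : ∃ τ : ℕ, τ = ⌊(c - ε / 2) * r⌋₊ := ⟨_, rfl⟩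
    have hτ1 : (τ : ℝ) ≤ (c - ε / 2) * r := by
      rw [hτ]
      apply Nat.floor_le
      apply mul_nonneg _ hrR.le
      linarith
    have hτ2 : (c - ε / 2) * r - 1 ≤ (τ : ℝ) := by
      have := Nat.lt_floor_add_one ((c - ε / 2) * r)
      rw [← hτ] at this
      linarith
    have hfib : ∀ i : P.parts, (univ.filter (fun v => cl v = i)).card ≤ m + 1 := by
      intro i
      have : univ.filter (fun v => cl v = i) = i.1 := by
        ext v
        rw [mem_filter, hclm]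
        simp
      rw [this]
      exact (hsize i.1 i.2).2
    have hMτ : ((m + 1 : ℕ) : ℝ) * τ ≤ t * n := by
      push_cast
      have h1 : ((m : ℝ) + 1) * τ ≤ ((m : ℝ) + 1) * ((c - ε / 2) * r) :=
        mul_le_mul_of_nonneg_left hτ1 (by positivity)
      have h2 : ((m : ℝ) + 1) * ((c - ε / 2) * r) = (c - ε / 2) * (m * r) + (c - ε / 2) * r := by
        ring
      have h3 : (c - ε / 2) * (m * r) ≤ (c - ε / 2) * n :=
        mul_le_mul_of_nonneg_left hmr (by linarith)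
      have h4 : (c - ε / 2) * r ≤ ε / 4 * n := by
        rw [div_le_iff₀ hε0] at hBdn
        have h5 : (c - ε / 2) * r ≤ 1 * r := mul_le_mul_of_nonneg_right (by linarith) hrR.le
        linarith
      rw [ht]
      linarith
    have hall := hall_cond H R cl K
      (by
        intro u v huv
        rw [hmK]
        exact huv.2)
      (fun u v huv => hG'R u v huv.1)
      (by
        intro i j hij hi
        rw [hmK] at hi ⊢
        rw [← hi]
        exact SimpleGraph.ConnectedComponent.sound hij.symm.reachable)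
      (fun i => le_trans (le_of_eq (congrArg card (by ext v; simp only [mem_filter]))) (hfib i))
      (n := n) (t := t) (δ := δ) hn' hn0 hMτ ht2 hδ0 hδ1 hδ2 hy00 hy0
      (by
        refine le_trans ?_ hQH
        apply mul_le_mul_of_nonneg_right _ hy0.le
        apply mul_le_mul_of_nonneg_right _ hn0.le
        linarith)
    have hτK : τ ≤ K.card := by
      have h1 := hall ∅ (empty_subset _)
      have h2 : (nbh R (∅ : Finset P.parts)).card = 0 := by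
        rw [card_eq_zero]
        unfold nbh
        apply filter_eq_empty_iff.2
        intro j _
        simp
      rw [h2, card_empty] at h1
      omega
    obtain ⟨S, hSK, f, hf, hfinj, hScard⟩ := hall_def R K (K.card - τ) (by
      intro X hX
      have := hall X hX
      omega)
    have hτS : τ ≤ S.card := by omega
    obtain ⟨k, q, h, hk1, hkq, hkge, hηq, hηm, hqle, hhm, hmh⟩ := params (m := m) (r := r)
      (Bd := Bd) hd0 hd1 hρ0 hρ1 hε1 hm64 hmB8 hPB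
    have hη0 : 0 ≤ d - ε1 := by
      rw [hε1]
      have : d * ρ ≤ d * 1 := mul_le_mul_of_nonneg_left (by linarith) hd0.le
      linarith
    have hcardι : Fintype.card P.parts = r := by rw [Fintype.card_coe, hr]
    refine caseA G R (fun i => i.1) (k := k) (q := q) (m := m) (h := h) (η := d - ε1) ?_ ?_ ?_ hη0
      hk1 hkq hηq hηm hab hbc hca S f hf hfinj ?_ ?_ ℓ hℓ3 ?_
    · intro i j hij
      exact P.disjoint i.2 j.2 (fun h => hij (Subtype.ext h))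
    · intro i j hij
      refine DP_of_uniform G hij.2.1 hij.2.2 hk1 ?_ ?_
      · have h1 : ((i.1.card : ℕ) : ℝ) ≤ (m : ℝ) + 1 := by exact_mod_cast (hsize i.1 i.2).2
        calc (i.1.card : ℝ) * ε1 ≤ ((m : ℝ) + 1) * ε1 := mul_le_mul_of_nonneg_right h1 hε10.le
          _ = ε1 * ((m : ℝ) + 1) := by ring
          _ ≤ k := hkge
      · have h1 : ((j.1.card : ℕ) : ℝ) ≤ (m : ℝ) + 1 := by exact_mod_cast (hsize j.1 j.2).2
        calc (j.1.card : ℝ) * ε1 ≤ ((m : ℝ) + 1) * ε1 := mul_le_mul_of_nonneg_right h1 hε10.le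
          _ = ε1 * ((m : ℝ) + 1) := by ring
          _ ≤ k := hkge
    · intro i
      exact (hsize i.1 i.2).1
    · intro i hi
      have h1 := (hmK i).1 (hSK hi)
      rw [← haκ] at h1
      exact (SimpleGraph.ConnectedComponent.exact h1).symm
    · rw [hcardι]
      omega
    · -- the length
      have h2' : (m : ℝ) ≤ 2 * h + 1 + 2 * q + (2 * r * r + 4) := by exact_mod_cast hmh
      have hrr' : (2 : ℝ) * r * r ≤ 2 * Bd * Bd := by
        have h1 : (r : ℝ) * r ≤ Bd * Bd := mul_le_mul hrB hrB hrR.le (by positivity)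
        linarith
      have h3 := arith_final (ε := ε) (c := c) (m := m) (r := r) (h := h) (τ := τ) (q := q) (n := n)
        (W := 2 * (Bd : ℝ) * Bd + 4) (ρ := ρ) (L := ℓ) hε0 hεc hc2 (hl2.trans hrl) hρ2 hτ2
        (by linarith) hqle (by positivity) hmW hnm hℓ
      have h4 : (2 : ℝ) * h * τ ≤ 2 * h * S.card := by
        apply mul_le_mul_of_nonneg_left _ (by positivity)
        exact_mod_cast hτS
      have h5 : (ℓ : ℝ) ≤ ((2 * h * S.card : ℕ) : ℝ) := by push_cast; linarith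
      exact_mod_cast h5
  · -- Case B
    push Not at htri
    have htf : TriFree H := by
      intro a b c' hab hbc hac
      exact htri (cl a) (cl b) (cl c') (hG'R a b hab.1) (hG'R b c' hbc.1)
        (hG'R a c' hac.1).symm hab.2
    have h1 : (1 / 2 - 1 / 10 ^ 9) * n * nsq y ≤ QF H y := by
      refine le_trans ?_ hQH
      apply mul_le_mul_of_nonneg_right _ hy0.le
      apply mul_le_mul_of_nonneg_right _ hn0.le
      linarith
    refine caseB_entry G G' H (fun u v h => h.1) hG'G htf ?_ hn' hnbig ?_ hy0 h1 hlam' ℓ hℓ3 ?_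
    · intro u v w huv huw
      exact ⟨huv, huw.2⟩
    · refine hloss.trans ?_
      rw [mul_pow, div_eq_mul_inv (n ^ 2)]
      rw [mul_comm]
      apply mul_le_mul_of_nonneg_left _ (sq_nonneg n)
      have h2 : (e0 / 2) ^ 2 ≤ e0 := by nlinarith
      refine h2.trans (he02.trans (le_of_eq ?_))
      norm_num
    · refine hℓ.trans ?_
      apply mul_le_mul_of_nonneg_right _ hn0.le
      linarith

end Pool.Agent.TH516.CC
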