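import Mathlib
import Pool.Agent.TH516.CC.Spec

set_option autoImplicit false

/-!
# The upper bound: a clique joined to an independent set
-/

namespace Pool.Agent.TH516.CC

open Finset Classical

/-- A clique on the first `s` vertices, joined completely to the others. -/
def GS (n s : ℕ) : SimpleGraph (Fin n) where
  Adj i j := i ≠ j ∧ (i.val < s ∨ j.val < s)
  symm := ⟨fun _ _ h => ⟨h.1.symm, h.2.symm⟩⟩
  loopless := ⟨fun _ h => h.1 rfl⟩

theorem GS_cycle {n s : ℕ} {v : Fin n} {p : (GS n s).Walk v v} (hp : p.IsCycle) :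
    p.length ≤ 2 * s := by
  have h1 : ∀ i < p.length, (p.getVert i).val < s ∨ (p.getVert (i + 1)).val < s := by
    intro i hi
    exact (p.adj_getVert_succ hi).2
  set A := (range p.length).filter (fun i => (p.getVert i).val < s) with hA
  set B := (range p.length).filter (fun i => (p.getVert (i + 1)).val < s) with hB
  have hAB : range p.length ⊆ A ∪ B := by
    intro i hi
    rw [mem_range] at hi
    rw [mem_union, hA, hB, mem_filter, mem_filter, mem_range]
    rcases h1 i hi with h | h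
    · exact Or.inl ⟨hi, h⟩
    · exact Or.inr ⟨hi, h⟩
  have hAc : A.card ≤ s := by
    have : A.card ≤ (range s).card := by
      apply card_le_card_of_injOn (fun i => (p.getVert i).val)
      · intro i hi
        rw [mem_coe, hA, mem_filter] at hi
        rw [mem_coe, mem_range]
        exact hi.2
      · intro i hi j hj hij
        rw [mem_coe, hA, mem_filter, mem_range] at hi hj
        apply hp.getVert_injOn'
        · show i ≤ p.length - 1
          omega
        · show j ≤ p.length - 1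
          omega
        · exact Fin.ext hij
    rwa [card_range] at this
  have hBc : B.card ≤ s := by
    have : B.card ≤ (range s).card := by
      apply card_le_card_of_injOn (fun i => (p.getVert (i + 1)).val)
      · intro i hi
        rw [mem_coe, hB, mem_filter] at hi
        rw [mem_coe, mem_range]
        exact hi.2
      · intro i hi j hj hij
        rw [mem_coe, hB, mem_filter, mem_range] at hi hj
        have := hp.getVert_injOn (show 1 ≤ i + 1 ∧ i + 1 ≤ p.length from ⟨by omega, by omega⟩)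
          (show 1 ≤ j + 1 ∧ j + 1 ≤ p.length from ⟨by omega, by omega⟩) (Fin.ext hij)
        omega
    rwa [card_range] at this
  have h2 := card_le_card hAB
  have h3 := card_union_le A B
  rw [card_range] at h2
  omega

theorem card_lt_fin {n s : ℕ} (hs : s ≤ n) :
    ((univ : Finset (Fin n)).filter (fun i => i.val < s)).card = s := by
  have h : (univ : Finset (Fin n)).filter (fun i => i.val < s) =
      (univ : Finset (Fin s)).map (Fin.castLEEmb hs) := by
    ext i
    rw [mem_filter, mem_map]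
    constructor
    · rintro ⟨_, h⟩
      exact ⟨⟨i.val, h⟩, mem_univ _, Fin.ext rfl⟩
    · rintro ⟨j, _, rfl⟩
      exact ⟨mem_univ _, j.isLt⟩
  rw [h, card_map, card_univ, Fintype.card_fin]

theorem sum_two {n s : ℕ} (hs : s ≤ n) (a b : ℝ) :
    ∑ i : Fin n, (if i.val < s then a else b) = s * a + ((n : ℝ) - s) * b := by
  rw [sum_ite, sum_const, sum_const, card_lt_fin hs]
  have h : ((univ : Finset (Fin n)).filter (fun i => ¬ i.val < s)).card = n - s := by
    have := card_filter_add_card_filter_not (s := (univ : Finset (Fin n))) (fun i => i.val < s)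
    rw [card_lt_fin hs, card_univ, Fintype.card_fin] at this
    omega
  rw [h, nsmul_eq_mul, nsmul_eq_mul, Nat.cast_sub hs]

theorem GS_QF {n s : ℕ} (hs : s ≤ n) (r : ℝ) :
    QF (GS n s) (fun i => if i.val < s then 1 else r) = s * ((s : ℝ) - 1) + 2 * s * (n - s) * r := by
  unfold QF
  have h1 : ∀ i : Fin n, (∑ j : Fin n, if (GS n s).Adj i j then
      (if i.val < s then (1 : ℝ) else r) * (if j.val < s then 1 else r) else 0) =
      if i.val < s then ((s : ℝ) - 1 + (n - s) * r) else s * r := by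
    intro i
    by_cases hi : i.val < s
    · have h2 : ∀ j : Fin n, (if (GS n s).Adj i j then
          (if i.val < s then (1 : ℝ) else r) * (if j.val < s then 1 else r) else 0) =
          (if j.val < s then (1 : ℝ) else r) - (if j = i then 1 else 0) := by
        intro j
        by_cases hij : j = i
        · subst hij
          rw [if_neg (by intro h; exact h.1 rfl), if_pos hi, if_pos rfl, sub_self]
        · rw [if_pos (show (GS n s).Adj i j from ⟨fun h => hij h.symm, Or.inl hi⟩), if_pos hi,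
            if_neg hij, one_mul, sub_zero]
      rw [sum_congr rfl fun j _ => h2 j, sum_sub_distrib, sum_two hs, sum_ite_eq', if_pos hi,
        if_pos (mem_univ i)]
      ring
    · have h2 : ∀ j : Fin n, (if (GS n s).Adj i j then
          (if i.val < s then (1 : ℝ) else r) * (if j.val < s then 1 else r) else 0) =
          (if j.val < s then r else 0) := by
        intro j
        by_cases hj : j.val < s
        · rw [if_pos (show (GS n s).Adj i j from ⟨fun h => hi (h ▸ hj), Or.inr hj⟩), if_neg hi,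
            if_pos hj, if_pos hj, mul_one]
        · rw [if_neg (fun h => h.2.elim hi hj), if_neg hj]
      rw [sum_congr rfl fun j _ => h2 j, sum_two hs, if_neg hi]
      ring
  rw [sum_congr rfl fun i _ => h1 i, sum_two hs]
  ring

theorem GS_nsq {n s : ℕ} (hs : s ≤ n) (r : ℝ) :
    nsq (fun i : Fin n => if i.val < s then 1 else r) = s + ((n : ℝ) - s) * r ^ 2 := by
  unfold nsq
  have h1 : ∀ i : Fin n, (if i.val < s then (1 : ℝ) else r) ^ 2 = if i.val < s then 1 else r ^ 2 := by
    intro i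
    split_ifs <;> ring
  rw [sum_congr rfl fun i _ => h1 i, sum_two hs]
  ring

theorem GS_spec {n s : ℕ} (hs0 : 0 < s) (hs : s ≤ n)
    (h : 1 / (n : ℝ) < 3 * (s / n) - 2 * (s / n) ^ 2 - 1 / 2) :
    (n : ℝ) / 2 < specRadius (GS n s) := by
  have hn0 : 0 < n := by omega
  have : Nonempty (Fin n) := ⟨⟨0, hn0⟩⟩
  have hnR : (0 : ℝ) < n := by exact_mod_cast hn0
  have hsR : (0 : ℝ) < s := by exact_mod_cast hs0
  have hsn : (s : ℝ) ≤ n := by exact_mod_cast hs
  have h1 := QF_le (GS n s) (fun i => if i.val < s then 1 else 2 * (s / n))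
  rw [GS_QF hs, GS_nsq hs] at h1
  set σ : ℝ := s / n with hσ
  have hσ0 : 0 < σ := div_pos hsR hnR
  have hσ1 : σ ≤ 1 := by rw [hσ, div_le_one hnR]; exact hsn
  have hsσ : (s : ℝ) = σ * n := by rw [hσ]; field_simp
  have hpos : 0 < (s : ℝ) + ((n : ℝ) - s) * (2 * σ) ^ 2 := by
    have : 0 ≤ ((n : ℝ) - s) * (2 * σ) ^ 2 := mul_nonneg (by linarith) (sq_nonneg _)
    linarith
  have h2 : (n : ℝ) / 2 * ((s : ℝ) + ((n : ℝ) - s) * (2 * σ) ^ 2) <
      s * ((s : ℝ) - 1) + 2 * s * (n - s) * (2 * σ) := by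
    have h3 : s * ((s : ℝ) - 1) + 2 * s * (n - s) * (2 * σ) -
        (n : ℝ) / 2 * ((s : ℝ) + ((n : ℝ) - s) * (2 * σ) ^ 2) =
        σ * n ^ 2 * (3 * σ - 2 * σ ^ 2 - 1 / 2 - 1 / n) := by
      rw [hsσ]
      field_simp
      ring
    have h4 : 0 < σ * n ^ 2 * (3 * σ - 2 * σ ^ 2 - 1 / 2 - 1 / n) := by
      apply mul_pos (by positivity)
      linarith
    linarith
  exact lt_of_mul_lt_mul_right (h2.trans_le h1) hpos.le

theorem GS_sqrt {n s : ℕ} (h : (n : ℝ) / 2 < specRadius (GS n s)) :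
    Real.sqrt ((n ^ 2 / 4 : ℕ) : ℝ) < specRadius (GS n s) := by
  refine lt_of_le_of_lt ?_ h
  rw [Real.sqrt_le_left (by positivity)]
  have h1 : ((n ^ 2 / 4 : ℕ) : ℝ) ≤ ((n ^ 2 : ℕ) : ℝ) / (4 : ℕ) := Nat.cast_div_le
  push_cast at h1
  rw [div_pow]
  norm_num
  exact h1

/-- The numerical choice of the extremal graphs. -/
theorem upper_choice {c γ : ℝ} (hc0 : 19 / 50 ≤ c) (hc2 : c ≤ 2 / 5) (hc : c ^ 2 - 3 * c + 1 = 0)
    (hγ : c < γ) (n₀ : ℕ) : ∃ n s : ℕ, n₀ ≤ n ∧ 0 < s ∧ s ≤ n ∧
      1 / (n : ℝ) < 3 * (s / n) - 2 * (s / n) ^ 2 - 1 / 2 ∧ ((2 * s + 1 : ℕ) : ℝ) ≤ γ * n := by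
  obtain ⟨θ, hθ0, hθ1, hθ2⟩ : ∃ θ : ℝ, 0 < θ ∧ θ ≤ 1 / 20 ∧ 4 * θ ≤ γ - c :=
    ⟨min (1 / 20) ((γ - c) / 4), lt_min (by norm_num) (by linarith), min_le_left _ _,
      by linarith [min_le_right (1 / 20 : ℝ) ((γ - c) / 4)]⟩
  set n := n₀ + ⌈3 / θ⌉₊ + 100 with hn
  have hnθ : 3 / θ ≤ (n : ℝ) := by
    have h1 := Nat.le_ceil (3 / θ)
    have h2 : ((⌈3 / θ⌉₊ : ℕ) : ℝ) ≤ (n : ℝ) := by
      have : ⌈3 / θ⌉₊ ≤ n := by omega
      exact_mod_cast this
    linarith
  have hn100 : (100 : ℝ) ≤ n := by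
    have : 100 ≤ n := by omega
    exact_mod_cast this
  have hn0 : (0 : ℝ) < n := by linarith
  have hθn : 3 ≤ θ * n := by
    rw [div_le_iff₀ hθ0] at hnθ
    linarith
  set s := ⌈(c / 2 + θ) * n⌉₊ with hs
  have hs1 : (c / 2 + θ) * n ≤ s := Nat.le_ceil _
  have hs2 : (s : ℝ) < (c / 2 + θ) * n + 1 := Nat.ceil_lt_add_one (by positivity)
  have hs0 : (0 : ℝ) < s := lt_of_lt_of_le (by positivity) hs1
  refine ⟨n, s, by omega, by exact_mod_cast hs0, ?_, ?_, ?_⟩
  · have : (s : ℝ) ≤ n := by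
      have : (c / 2 + θ) * n ≤ 1 / 2 * n := mul_le_mul_of_nonneg_right (by linarith) hn0.le
      linarith
    exact_mod_cast this
  · set σ : ℝ := s / n with hσ
    have hσ1 : c / 2 + θ ≤ σ := by rw [hσ, le_div_iff₀ hn0]; exact hs1
    have hσ2 : σ ≤ c / 2 + θ + 1 / n := by
      rw [hσ, div_le_iff₀ hn0, add_mul, one_div, inv_mul_cancel₀ hn0.ne']
      exact hs2.le
    have h1n : 1 / (n : ℝ) ≤ 1 / 100 := one_div_le_one_div_of_le (by norm_num) hn100
    have h1nθ : 1 / (n : ℝ) ≤ θ / 3 := by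
      rw [div_le_iff₀ hn0]
      linarith
    have hn10 : 0 < 1 / (n : ℝ) := by positivity
    have e1 : 3 * σ - 2 * σ ^ 2 - 1 / 2 = (σ - c / 2) * (3 - 2 * (σ + c / 2)) -
        (c ^ 2 - 3 * c + 1) / 2 := by ring
    rw [e1, hc]
    have e2 : θ ≤ σ - c / 2 := by linarith
    have e3 : 1 ≤ 3 - 2 * (σ + c / 2) := by linarith
    have e4 : θ * 1 ≤ (σ - c / 2) * (3 - 2 * (σ + c / 2)) :=
      mul_le_mul e2 e3 (by norm_num) (by linarith)
    linarith
  · push_cast
    have h1 : (c + 4 * θ) * n ≤ γ * n := mul_le_mul_of_nonneg_right (by linarith) hn0.le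
    linarith

end Pool.Agent.TH516.CC
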